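import Pool.Agent.Work.MP_3bf421_lc_LU.Greedy

set_option autoImplicit false

/-!
The rule which accepts an element iff it is in the optimum of everything seen and is not spanned
by the earlier such elements after time `T0`, with random tie breaking.
-/

namespace Pool.Agent.Work.MP_3bf421_lc_LU

open Finset

variable {n : ℕ}

/-! ## The rule -/

/-- `x` is not spanned by `X`, as seen by the independence oracle `P` -/
def out (P : Set (Fin n) → Prop) (X : Set (Fin n)) (x : Fin n) : Prop :=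
  ∀ I : Set (Fin n), I ⊆ X → P I → P (insert x I)

/-- the key of a position: its weight, ties being broken by the priorities `π` -/
def keyP (π : Equiv.Perm (Fin n)) (wt : Fin n → ℝ) (j : Fin n) : ℝ ×ₗ Fin n :=
  toLex (wt j, π j)

/-- the position `j` is in the optimum of the first `j + 1` positions -/
def candP (π : Equiv.Perm (Fin n)) (wt : Fin n → ℝ) (P : Set (Fin n) → Prop) (j : Fin n) :
    Prop := out P {l | l ≤ j ∧ keyP π wt j < keyP π wt l} j

/-- the rule -/
noncomputable def ruleD (T0 : ℕ) (π : Equiv.Perm (Fin n)) (i : Fin n) (wt : Fin n → ℝ)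
    (P : Set (Fin n) → Prop) : Bool := by
  classical
  exact decide (T0 ≤ i.val ∧ candP π wt P i ∧
    out P {j | T0 ≤ j.val ∧ j < i ∧ candP π wt P j} i)

/-- the element `e` is accepted, in terms of the elements and an injective key -/
def Acc {α : Type*} [LinearOrder α] (M : Matroid (Fin n)) (κ : Fin n → α) (T0 : ℕ)
    (σ : Equiv.Perm (Fin n)) (e : Fin n) : Prop :=
  T0 ≤ (σ.symm e).val ∧ cand M κ ∅ (pre σ ((σ.symm e).val + 1)) e ∧
    e ∉ M.closure {x | T0 ≤ (σ.symm x).val ∧ (σ.symm x).val < (σ.symm e).val ∧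
      cand M κ ∅ (pre σ ((σ.symm x).val + 1)) x}

/-- the oracle at time `i` -/
def seenP (M : Matroid (Fin n)) (σ : Equiv.Perm (Fin n)) (i : Fin n) : Set (Fin n) → Prop :=
  fun S => M.Indep (σ '' (S ∩ Set.Iic i))

/-- the weights at time `i` -/
def seenW (w : Fin n → ℝ) (σ : Equiv.Perm (Fin n)) (i : Fin n) : Fin n → ℝ :=
  fun j => if j ≤ i then w (σ j) else 0

/-- the key of an element -/
def keyE (w : Fin n → ℝ) (τ : Equiv.Perm (Fin n)) (x : Fin n) : ℝ ×ₗ Fin n := toLex (w x, τ x)

theorem keyE_inj (w : Fin n → ℝ) (τ : Equiv.Perm (Fin n)) : Function.Injective (keyE w τ) := by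
  intro x y h
  unfold keyE at h
  have h1 := congrArg (fun p => (ofLex p).2) h
  exact τ.injective h1

theorem keyE_mono (w : Fin n → ℝ) (τ : Equiv.Perm (Fin n)) (x y : Fin n)
    (h : keyE w τ x ≤ keyE w τ y) : w x ≤ w y := by
  unfold keyE at h
  rw [Prod.Lex.toLex_le_toLex] at h
  rcases h with h | h
  · exact le_of_lt h
  · exact le_of_eq h.1

/-- The oracle decides whether an element is spanned. -/
theorem out_iff (M : Matroid (Fin n)) (hE : M.E = Set.univ) (σ : Equiv.Perm (Fin n))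
    (i : Fin n) {X : Set (Fin n)} (hX : X ⊆ Set.Iic i) {x : Fin n} (hx : x ≤ i) (hxX : x ∉ X) :
    out (seenP M σ i) X x ↔ σ x ∉ M.closure (σ '' X) := by
  have hsub : ∀ Y : Set (Fin n), Y ⊆ M.E := fun Y => by rw [hE]; exact Set.subset_univ Y
  have hxE : σ x ∈ M.E := by rw [hE]; exact Set.mem_univ _
  have hins : ∀ I : Set (Fin n), I ⊆ X → insert x I ⊆ Set.Iic i := by
    intro I hI y hy
    rcases hy with rfl | hy
    · exact hx
    · exact hX (hI hy)
  constructor
  · intro h hcl
    obtain ⟨B, hB⟩ := M.exists_isBasis (σ '' X) (hsub _)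
    set I : Set (Fin n) := σ ⁻¹' B with hI
    have hIB : σ '' I = B := by rw [hI]; exact Set.image_preimage_eq B σ.surjective
    have hIX : I ⊆ X := by
      intro y hy
      obtain ⟨z, hz, hzy⟩ := hB.subset hy
      rwa [← σ.injective hzy]
    have h1 : seenP M σ i I := by
      unfold seenP
      rw [Set.inter_eq_left.2 (hIX.trans hX), hIB]
      exact hB.indep
    have h2 := h I hIX h1
    unfold seenP at h2
    rw [Set.inter_eq_left.2 (hins I hIX), Set.image_insert_eq, hIB] at h2
    have h3 : σ x ∉ B := by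
      intro h4
      exact hxX (hIX h4)
    have h5 := (hB.indep.notMem_closure_iff hxE).2 ⟨h2, h3⟩
    rw [hB.closure_eq_closure] at h5
    exact h5 hcl
  · intro h I hIX h1
    unfold seenP at h1 ⊢
    rw [Set.inter_eq_left.2 (hIX.trans hX)] at h1
    rw [Set.inter_eq_left.2 (hins I hIX), Set.image_insert_eq]
    refine ((h1.notMem_closure_iff hxE).1 fun h2 => h ?_).1
    exact M.closure_subset_closure (Set.image_mono hIX) h2

/-- The candidates seen by the rule. -/
theorem candP_iff (M : Matroid (Fin n)) (hE : M.E = Set.univ) (w : Fin n → ℝ)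
    (σ π : Equiv.Perm (Fin n)) {i j : Fin n} (hj : j ≤ i) :
    candP π (seenW w σ i) (seenP M σ i) j ↔
      cand M (keyE w (σ.symm.trans π)) ∅ (pre σ (j.val + 1)) (σ j) := by
  unfold candP cand
  rw [out_iff M hE σ i (fun l hl => le_trans hl.1 hj) hj (fun h => lt_irrefl _ h.2)]
  have h1 : σ '' {l | l ≤ j ∧ keyP π (seenW w σ i) j < keyP π (seenW w σ i) l} =
      {y | y ∈ pre σ (j.val + 1) ∧ y ∉ (∅ : Finset (Fin n)) ∧
        keyE w (σ.symm.trans π) (σ j) < keyE w (σ.symm.trans π) y} := by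
    ext y
    constructor
    · rintro ⟨l, ⟨hl, hk⟩, rfl⟩
      refine ⟨?_, by simp, ?_⟩
      · rw [mem_pre, Equiv.symm_apply_apply]
        have : l.val ≤ j.val := hl
        omega
      · unfold keyE
        unfold keyP seenW at hk
        rw [if_pos hj, if_pos (hl.trans hj)] at hk
        simpa using hk
    · rintro ⟨hy, -, hk⟩
      rw [mem_pre] at hy
      have hl : σ.symm y ≤ j := by
        have : (σ.symm y).val ≤ j.val := by omega
        exact this
      refine ⟨σ.symm y, ⟨hl, ?_⟩, by simp⟩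
      unfold keyP seenW
      rw [if_pos hj, if_pos (hl.trans hj)]
      unfold keyE at hk
      simpa using hk
  rw [h1]

open Classical in
/-- **The rule accepts what it should.** -/
theorem ruleD_iff (M : Matroid (Fin n)) (hE : M.E = Set.univ) (w : Fin n → ℝ)
    (σ π : Equiv.Perm (Fin n)) (T0 : ℕ) (i : Fin n) :
    ruleD T0 π i (seenW w σ i) (seenP M σ i) = true ↔
      Acc M (keyE w (σ.symm.trans π)) T0 σ (σ i) := by
  unfold ruleD Acc
  rw [decide_eq_true_iff, Equiv.symm_apply_apply, candP_iff M hE w σ π le_rfl]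
  refine and_congr_right fun _ => and_congr_right fun _ => ?_
  rw [out_iff M hE σ i (fun l hl => le_of_lt hl.2.1) le_rfl (fun h => lt_irrefl _ h.2.1)]
  have h1 : σ '' {j | T0 ≤ j.val ∧ j < i ∧ candP π (seenW w σ i) (seenP M σ i) j} =
      {x | T0 ≤ (σ.symm x).val ∧ (σ.symm x).val < i.val ∧
        cand M (keyE w (σ.symm.trans π)) ∅ (pre σ ((σ.symm x).val + 1)) x} := by
    ext y
    constructor
    · rintro ⟨l, ⟨h2, h3, h4⟩, rfl⟩
      rw [candP_iff M hE w σ π (le_of_lt h3)] at h4
      refine ⟨by simpa using h2, by simpa using h3, by simpa using h4⟩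
    · rintro ⟨h2, h3, h4⟩
      have h5 : σ.symm y < i := h3
      refine ⟨σ.symm y, ⟨h2, h5, ?_⟩, by simp⟩
      rw [candP_iff M hE w σ π (le_of_lt h5)]
      simpa using h4
  rw [h1]

/-- The accepted elements are independent. -/
theorem acc_indep {α : Type*} [LinearOrder α] (M : Matroid (Fin n)) (hE : M.E = Set.univ)
    (κ : Fin n → α) (T0 : ℕ) (σ : Equiv.Perm (Fin n)) : M.Indep {e | Acc M κ T0 σ e} := by
  by_contra hcon
  have hdep : M.Dep {e | Acc M κ T0 σ e} := ⟨hcon, by rw [hE]; exact Set.subset_univ _⟩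
  obtain ⟨D, hD, hcirc⟩ := hdep.exists_isCircuit_subset
  obtain ⟨x, hx, hmax⟩ := Set.exists_max_image D (fun y => (σ.symm y).val) (Set.toFinite D)
    hcirc.nonempty
  have h1 := hcirc.mem_closure_sdiff_singleton_of_mem hx
  apply (hD hx).2.2
  refine M.closure_subset_closure ?_ h1
  rintro y ⟨hy, hyx⟩
  refine ⟨(hD hy).1, lt_of_le_of_ne (hmax y hy) ?_, (hD hy).2.1⟩
  intro h2
  exact hyx (σ.symm.injective (Fin.ext h2))

theorem ruleD_indep (M : Matroid (Fin n)) (hE : M.E = Set.univ) (w : Fin n → ℝ)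
    (σ π : Equiv.Perm (Fin n)) (T0 : ℕ) :
    M.Indep (σ '' {i | ruleD T0 π i (seenW w σ i) (seenP M σ i) = true}) := by
  refine (acc_indep M hE (keyE w (σ.symm.trans π)) T0 σ).subset ?_
  rintro _ ⟨i, hi, rfl⟩
  exact (ruleD_iff M hE w σ π T0 i).1 hi

/-! ## The value -/

open Classical in
/-- the value for one order and one priority, in terms of the elements -/
theorem value_eq (M : Matroid (Fin n)) (hE : M.E = Set.univ) (w : Fin n → ℝ)
    (σ π : Equiv.Perm (Fin n)) (T0 : ℕ) :
    ∑ i : Fin n, (if ruleD T0 π i (seenW w σ i) (seenP M σ i) = true then w (σ i) else 0) =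
      ∑ e : Fin n, (if Acc M (keyE w (σ.symm.trans π)) T0 σ e then w e else 0) := by
  rw [← Equiv.sum_comp σ (fun e => if Acc M (keyE w (σ.symm.trans π)) T0 σ e then w e else 0)]
  refine sum_congr rfl fun i _ => ?_
  simp only [ruleD_iff M hE w σ π T0 i]

open Classical in
/-- the total over all orders and priorities -/
theorem total_ge (M : Matroid (Fin n)) (hE : M.E = Set.univ) (w : Fin n → ℝ)
    (hw : ∀ e, 0 ≤ w e) (T0 : ℕ) {c : ℝ} (hc : 0 ≤ c)
    (h : ∀ κ : Fin n → ℝ ×ₗ Fin n, Function.Injective κ → (∀ x y, κ x ≤ κ y → w x ≤ w y) →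
      ∀ e ∈ optB M κ, c * (n.factorial : ℝ) ≤
        ((univ.filter fun σ : Equiv.Perm (Fin n) => Acc M κ T0 σ e).card : ℝ))
    (I : Finset (Fin n)) (hI : M.Indep (I : Set (Fin n))) :
    c * (∑ e ∈ I, w e) * (n.factorial : ℝ) * (n.factorial : ℝ) ≤
      ∑ σ : Equiv.Perm (Fin n), ∑ π : Equiv.Perm (Fin n), ∑ i : Fin n,
        (if ruleD T0 π i (seenW w σ i) (seenP M σ i) = true then w (σ i) else 0) := by
  have h1 : ∑ σ : Equiv.Perm (Fin n), ∑ π : Equiv.Perm (Fin n), ∑ i : Fin n,
      (if ruleD T0 π i (seenW w σ i) (seenP M σ i) = true then w (σ i) else 0) =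
      ∑ τ : Equiv.Perm (Fin n), ∑ e : Fin n,
        w e * ((univ.filter fun σ : Equiv.Perm (Fin n) => Acc M (keyE w τ) T0 σ e).card : ℝ) := by
    have h2 : ∀ σ : Equiv.Perm (Fin n), ∑ π : Equiv.Perm (Fin n), ∑ i : Fin n,
        (if ruleD T0 π i (seenW w σ i) (seenP M σ i) = true then w (σ i) else 0) =
        ∑ τ : Equiv.Perm (Fin n), ∑ e : Fin n,
          (if Acc M (keyE w τ) T0 σ e then w e else 0) := by
      intro σ
      rw [sum_congr rfl fun π _ => value_eq M hE w σ π T0]
      refine Fintype.sum_equiv ((Equiv.mulRight σ.symm : Equiv.Perm (Equiv.Perm (Fin n)))) _ _ ?_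
      intro π
      have h3 : (Equiv.mulRight σ.symm) π = σ.symm.trans π := rfl
      rw [h3]
    rw [sum_congr rfl fun σ _ => h2 σ, sum_comm]
    refine sum_congr rfl fun τ _ => ?_
    rw [sum_comm]
    refine sum_congr rfl fun e _ => ?_
    rw [← sum_filter, sum_const, nsmul_eq_mul, mul_comm]
  rw [h1]
  have h4 : ∀ τ : Equiv.Perm (Fin n), c * (∑ e ∈ I, w e) * (n.factorial : ℝ) ≤
      ∑ e : Fin n, w e *
        ((univ.filter fun σ : Equiv.Perm (Fin n) => Acc M (keyE w τ) T0 σ e).card : ℝ) := by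
    intro τ
    have h5 := greedy_opt M hE (keyE w τ) (keyE_inj w τ) w hw (keyE_mono w τ) I hI
    calc c * (∑ e ∈ I, w e) * (n.factorial : ℝ)
        ≤ c * (∑ e ∈ optB M (keyE w τ), w e) * (n.factorial : ℝ) := by
          refine mul_le_mul_of_nonneg_right (mul_le_mul_of_nonneg_left h5 hc) (Nat.cast_nonneg _)
      _ = ∑ e ∈ optB M (keyE w τ), w e * (c * (n.factorial : ℝ)) := by
          rw [← sum_mul]
          ring
      _ ≤ ∑ e ∈ optB M (keyE w τ), w e *
          ((univ.filter fun σ : Equiv.Perm (Fin n) => Acc M (keyE w τ) T0 σ e).card : ℝ) := by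
          refine sum_le_sum fun e he => mul_le_mul_of_nonneg_left ?_ (hw e)
          exact h (keyE w τ) (keyE_inj w τ) (keyE_mono w τ) e he
      _ ≤ _ := by
          refine sum_le_sum_of_subset_of_nonneg (subset_univ _) fun e _ _ => ?_
          exact mul_nonneg (hw e) (Nat.cast_nonneg _)
  calc c * (∑ e ∈ I, w e) * (n.factorial : ℝ) * (n.factorial : ℝ)
      = ∑ _τ : Equiv.Perm (Fin n), c * (∑ e ∈ I, w e) * (n.factorial : ℝ) := by
        rw [sum_const, card_univ, Fintype.card_perm, Fintype.card_fin, nsmul_eq_mul]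
        ring
    _ ≤ _ := sum_le_sum fun τ _ => h4 τ

open Classical in
/-- **The rule in the form of the problem.** -/
theorem rule_value (n T0 : ℕ) : ∃ m : ℕ, ∃ p : Fin m → ℝ, (∀ s, 0 ≤ p s) ∧ (∑ s, p s = 1) ∧
    ∃ D : Fin m → Fin n → (Fin n → ℝ) → (Set (Fin n) → Prop) → Bool,
      ∀ (M : Matroid (Fin n)) (w : Fin n → ℝ), M.E = Set.univ → (∀ e, 0 ≤ w e) →
        (∀ (s : Fin m) (σ : Equiv.Perm (Fin n)),
          M.Indep (σ '' {i | D s i (fun j => if j ≤ i then w (σ j) else 0)
              (fun S => M.Indep (σ '' (S ∩ Set.Iic i))) = true})) ∧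
        ∀ c : ℝ, 0 ≤ c →
          (∀ κ : Fin n → ℝ ×ₗ Fin n, Function.Injective κ → (∀ x y, κ x ≤ κ y → w x ≤ w y) →
            ∀ e ∈ optB M κ, c * (n.factorial : ℝ) ≤
              ((univ.filter fun σ : Equiv.Perm (Fin n) => Acc M κ T0 σ e).card : ℝ)) →
          ∀ I : Finset (Fin n), M.Indep (↑I : Set (Fin n)) →
            c * ∑ e ∈ I, w e ≤
              (∑ σ : Equiv.Perm (Fin n), ∑ s : Fin m, p s *
                ∑ i : Fin n, (if D s i (fun j => if j ≤ i then w (σ j) else 0)
                  (fun S => M.Indep (σ '' (S ∩ Set.Iic i))) = true then w (σ i) else 0))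
              / (n.factorial : ℝ) := by
  have hcard : Fintype.card (Equiv.Perm (Fin n)) = n.factorial := by
    rw [Fintype.card_perm, Fintype.card_fin]
  have hf : (0 : ℝ) < (n.factorial : ℝ) := by exact_mod_cast n.factorial_pos
  set q : Fin n.factorial ≃ Equiv.Perm (Fin n) :=
    (Fintype.equivFinOfCardEq hcard).symm with hq
  refine ⟨n.factorial, fun _ => 1 / (n.factorial : ℝ), fun _ => by positivity, ?_,
    fun s i wt P => ruleD T0 (q s) i wt P, ?_⟩
  · rw [sum_const, card_univ, Fintype.card_fin, nsmul_eq_mul]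
    field_simp
  · intro M w hE hw
    refine ⟨fun s σ => ruleD_indep M hE w σ (q s) T0, ?_⟩
    intro c hc h I hI
    have h1 := total_ge M hE w hw T0 hc h I hI
    have h2 : (∑ σ : Equiv.Perm (Fin n), ∑ s : Fin n.factorial, 1 / (n.factorial : ℝ) *
        ∑ i : Fin n, (if ruleD T0 (q s) i (fun j => if j ≤ i then w (σ j) else 0)
          (fun S => M.Indep (σ '' (S ∩ Set.Iic i))) = true then w (σ i) else 0)) =
        (1 / (n.factorial : ℝ)) * ∑ σ : Equiv.Perm (Fin n), ∑ π : Equiv.Perm (Fin n),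
          ∑ i : Fin n, (if ruleD T0 π i (seenW w σ i) (seenP M σ i) = true then w (σ i)
            else 0) := by
      rw [mul_sum]
      refine sum_congr rfl fun σ _ => ?_
      rw [← mul_sum]
      congr 1
      exact Fintype.sum_equiv q _ _ fun s => rfl
    rw [h2, le_div_iff₀ hf]
    have h3 : c * ∑ e ∈ I, w e * 1 = c * ∑ e ∈ I, w e := by simp
    have h4 : (1 / (n.factorial : ℝ)) * (c * (∑ e ∈ I, w e) * (n.factorial : ℝ) *
        (n.factorial : ℝ)) = c * (∑ e ∈ I, w e) * (n.factorial : ℝ) := by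
      field_simp
    rw [← h4]
    exact mul_le_mul_of_nonneg_left h1 (by positivity)

end Pool.Agent.Work.MP_3bf421_lc_LU
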