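import Pool.Agent.Work.MP_3bf421_lc_LU.BlockA
import Pool.Agent.Work.MP_3bf421_lc_LU.RuleV

set_option autoImplicit false

/-!
The union bound over given covers of the circuits through an element, and the passage to the
acceptance event.
-/

namespace Pool.Agent.Work.MP_3bf421_lc_LU

open Finset

variable {n : ℕ} {α : Type*} [LinearOrder α]

/-- an unblocked element of the optimum is accepted -/
theorem acc_of (M : Matroid (Fin n)) (κ : Fin n → α) (T0 : ℕ) (σ : Equiv.Perm (Fin n))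
    (e : Fin n) (he : e ∈ optB M κ) (hT : T0 ≤ (σ.symm e).val)
    (hC : e ∉ M.closure (Cset M κ {e} T0 σ : Set (Fin n))) : Acc M κ T0 σ e := by
  classical
  refine ⟨hT, ?_, ?_⟩
  · unfold cand
    intro h
    unfold optB at he
    rw [mem_filter] at he
    apply he.2
    refine M.closure_subset_closure ?_ h
    rintro y ⟨-, -, hy⟩
    exact hy
  · intro h
    apply hC
    refine M.closure_subset_closure ?_ h
    rintro x ⟨h1, h2, h3⟩
    unfold Cset
    rw [mem_coe, mem_filter]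
    refine ⟨mem_univ _, ?_, h1, ?_⟩
    · rw [mem_singleton]
      rintro rfl
      exact lt_irrefl _ h2
    · unfold cand at h3 ⊢
      intro h4
      apply h3
      refine M.closure_subset_closure ?_ h4
      rintro y ⟨a, -, c⟩
      exact ⟨a, notMem_empty _, c⟩

open Classical in
theorem acc_count (M : Matroid (Fin n)) (κ : Fin n → α) (T0 : ℕ) (hTn : T0 < n)
    (e : Fin n) (he : e ∈ optB M κ) {x : ℝ}
    (hx : ((univ.filter (fun σ : Equiv.Perm (Fin n) => T0 ≤ (σ.symm e).val ∧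
      e ∈ M.closure (Cset M κ {e} T0 σ : Set (Fin n)))).card : ℝ)
      ≤ (((n - 1).factorial : ℝ) * ((n - T0 : ℕ) : ℝ)) * x) :
    (((n - T0 : ℕ) : ℝ) / n * (1 - x)) * (n.factorial : ℝ)
    ≤ ((univ.filter (fun σ : Equiv.Perm (Fin n) => Acc M κ T0 σ e)).card : ℝ) := by
  refine (good_count M κ e T0 hTn hx).trans ?_
  have h : univ.filter (fun σ : Equiv.Perm (Fin n) => T0 ≤ (σ.symm e).val ∧
      e ∉ M.closure (Cset M κ {e} T0 σ : Set (Fin n)))
      ⊆ univ.filter (fun σ : Equiv.Perm (Fin n) => Acc M κ T0 σ e) := by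
    intro σ hσ
    rw [mem_filter] at hσ ⊢
    exact ⟨mem_univ _, acc_of M κ T0 σ e he hσ.2.1 hσ.2.2⟩
  exact_mod_cast card_le_card h

/-- a circuit through an element of the optimum is not a loop -/
theorem erase_nonempty (M : Matroid (Fin n)) (κ : Fin n → α) (e : Fin n) (he : e ∈ optB M κ)
    (D : Finset (Fin n)) (hD : M.IsCircuit (D : Set (Fin n))) (heD : e ∈ D) :
    (D.erase e).Nonempty := by
  classical
  rw [nonempty_iff_ne_empty]
  intro h
  have h1 := hD.mem_closure_sdiff_singleton_of_mem (e := e) heD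
  have h2 : (D : Set (Fin n)) \ {e} = ∅ := by
    rw [← coe_erase, h, coe_empty]
  rw [h2] at h1
  unfold optB at he
  rw [mem_filter] at he
  exact he.2 (M.closure_subset_closure (Set.empty_subset _) h1)

open Classical in
theorem blockB (M : Matroid (Fin n)) (hE : M.E = Set.univ) (κ : Fin n → α)
    (hκ : Function.Injective κ) (e : Fin n) (he : e ∈ optB M κ) (T0 K q : ℕ) (hTn : T0 < n)
    {lam : ℝ} (hlam : 1 ≤ lam) (F : ℕ → Finset (Finset (Fin n)))
    (hF1 : ∀ j, 1 ≤ j → (F j).card ≤ K ^ j)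
    (hF2 : ∀ j, 1 ≤ j → ∀ G ∈ F j, ∀ I : Finset (Fin n), I ⊆ G → M.Indep (I : Set (Fin n)) →
      I.card ≤ q * j)
    (hF3 : ∀ D : Finset (Fin n), M.IsCircuit (D : Set (Fin n)) → e ∈ D →
      ∀ j, 1 ≤ j → D.card = j + 1 → ∃ G ∈ F j, D ⊆ G) :
    ((univ.filter (fun σ : Equiv.Perm (Fin n) => T0 ≤ (σ.symm e).val ∧
      e ∈ M.closure (Cset M κ {e} T0 σ : Set (Fin n)))).card : ℝ)
    ≤ (((n - 1).factorial : ℝ) * ((n - T0 : ℕ) : ℝ)) *
      ∑ j ∈ Icc 1 n, (K : ℝ) ^ j * (PB T0 ((lam - 1) * ((q * j : ℕ) : ℝ)) (n - 1) / lam ^ j) := by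
  set c1 : ℝ := ((n - 1).factorial : ℝ) * ((n - T0 : ℕ) : ℝ) with hc1d
  have hc10 : 0 ≤ c1 := by positivity
  have h2 : univ.filter (fun σ : Equiv.Perm (Fin n) =>
      T0 ≤ (σ.symm e).val ∧ e ∈ M.closure (Cset M κ {e} T0 σ : Set (Fin n)))
      ⊆ (Icc 1 n).biUnion (fun j => (F j).biUnion (fun G =>
        univ.filter (fun σ : Equiv.Perm (Fin n) =>
          T0 ≤ (σ.symm e).val ∧ j ≤ (Cset M κ {e} T0 σ ∩ G).card))) := by
    intro σ hσ
    rw [mem_filter] at hσ
    obtain ⟨-, hσ2, hσ3⟩ := hσ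
    have heC : e ∉ Cset M κ {e} T0 σ := by
      intro h
      unfold Cset at h
      rw [mem_filter] at h
      exact h.2.1 (mem_singleton_self e)
    obtain ⟨D, hD, heD, hDC⟩ := exists_circuit M e _ heC hσ3
    have hne := erase_nonempty M κ e he D hD heD
    have hcard : D.card = (D.erase e).card + 1 := by
      rw [card_erase_of_mem heD]
      have := card_pos.2 ⟨e, heD⟩
      omega
    obtain ⟨G, hG, hDG⟩ := hF3 D hD heD _ (card_pos.2 hne) hcard
    rw [mem_biUnion]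
    refine ⟨(D.erase e).card, ?_, ?_⟩
    · rw [mem_Icc]
      refine ⟨card_pos.2 hne, ?_⟩
      have := card_le_univ (D.erase e)
      rwa [Fintype.card_fin] at this
    · rw [mem_biUnion]
      refine ⟨G, hG, ?_⟩
      rw [mem_filter]
      refine ⟨mem_univ _, hσ2, card_le_card ?_⟩
      intro x hx
      rw [mem_inter]
      exact ⟨hDC hx, hDG (erase_subset e D hx)⟩
  have h3 : ((univ.filter (fun σ : Equiv.Perm (Fin n) => T0 ≤ (σ.symm e).val ∧
      e ∈ M.closure (Cset M κ {e} T0 σ : Set (Fin n)))).card : ℝ)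
      ≤ ∑ j ∈ Icc 1 n, ∑ G ∈ F j, ((univ.filter (fun σ : Equiv.Perm (Fin n) =>
          T0 ≤ (σ.symm e).val ∧ j ≤ (Cset M κ {e} T0 σ ∩ G).card)).card : ℝ) := by
    have h4 := (card_le_card h2).trans card_biUnion_le
    have h5 := h4.trans (sum_le_sum fun j _ => card_biUnion_le)
    exact_mod_cast h5
  refine h3.trans ?_
  rw [mul_sum]
  refine sum_le_sum fun j hj => ?_
  rw [mem_Icc] at hj
  have h6 : ∀ G ∈ F j, ((univ.filter (fun σ : Equiv.Perm (Fin n) =>
          T0 ≤ (σ.symm e).val ∧ j ≤ (Cset M κ {e} T0 σ ∩ G).card)).card : ℝ)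
      ≤ c1 * (PB T0 ((lam - 1) * ((q * j : ℕ) : ℝ)) (n - 1) / lam ^ j) := by
    intro G hG
    have h7 := count_cond M hE κ hκ e ∅ G (notMem_empty e) T0 (q * j) j (by simp) hTn hlam
      (hF2 j hj.1 G hG)
    simp only [card_empty, pre_zero, true_and, Nat.factorial_zero, Nat.cast_one, one_mul,
      Nat.sub_zero, insert_empty_eq] at h7
    exact h7
  refine (sum_le_sum h6).trans ?_
  rw [sum_const, nsmul_eq_mul]
  have hP : 0 ≤ PB T0 ((lam - 1) * ((q * j : ℕ) : ℝ)) (n - 1) / lam ^ j := by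
    have := (PB_pos T0 (x := (lam - 1) * ((q * j : ℕ) : ℝ))
      (mul_nonneg (by linarith) (Nat.cast_nonneg _)) (n - 1)).le
    positivity
  have hK : ((F j).card : ℝ) ≤ (K : ℝ) ^ j := by exact_mod_cast hF1 j hj.1
  calc _ ≤ (K : ℝ) ^ j * (c1 * (PB T0 ((lam - 1) * ((q * j : ℕ) : ℝ)) (n - 1) / lam ^ j)) :=
        mul_le_mul_of_nonneg_right hK (by positivity)
    _ = _ := by ring

end Pool.Agent.Work.MP_3bf421_lc_LU
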