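import Pool.Agent.Work.MP_3bf421_lc_LU.Moment
import Pool.Agent.Work.MP_3bf421_lc.UN.NumA

set_option autoImplicit false

/-!
The numbers of the theorem on few flats.
-/

namespace Pool.Agent.Work.MP_3bf421_lc_LU

open Finset
open _root_.MP_3bf421_lc.UN

theorem geom_le {x : ℝ} (h0 : 0 ≤ x) (h1 : x ≤ 1 / 3) (n : ℕ) :
    ∑ j ∈ Icc 1 n, x ^ j ≤ 1 / 2 - x ^ n / 2 := by
  induction n with
  | zero => simp
  | succ n ih =>
    rw [sum_Icc_succ_top (by omega)]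
    have h2 : 0 ≤ x ^ n := pow_nonneg h0 n
    have h3 : x ^ (n + 1) ≤ x ^ n / 3 := by
      rw [pow_succ]
      nlinarith
    linarith

theorem numB (K q n : ℕ) (hK : 1 ≤ K) (hq : 1 ≤ q) (hn : 1 ≤ n) : ∃ T0 : ℕ, T0 < n ∧
    ∃ lam : ℝ, 1 ≤ lam ∧ (1 : ℝ) / (20 * q * K) ≤ ((n - T0 : ℕ) : ℝ) / n *
      (1 - ∑ j ∈ Icc 1 n, (K : ℝ) ^ j *
        (PB T0 ((lam - 1) * ((q * j : ℕ) : ℝ)) (n - 1) / lam ^ j)) := by
  have hKR : (1 : ℝ) ≤ K := by exact_mod_cast hK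
  have hqR : (1 : ℝ) ≤ q := by exact_mod_cast hq
  have hnR : (1 : ℝ) ≤ n := by exact_mod_cast hn
  have hqK : (1 : ℝ) ≤ q * K := by nlinarith
  set a : ℝ := (n : ℝ) / (10 * (q * K)) with ha
  have ha0 : 0 < a := by positivity
  have ha1 : a ≤ n / 10 := by
    rw [ha]
    apply div_le_div_of_nonneg_left (by positivity) (by norm_num)
    linarith
  have haK : a * (10 * (q * K)) = n := by
    rw [ha]; field_simp
  set m : ℕ := ⌈a⌉₊ with hm
  have hm0 : 0 < m := Nat.ceil_pos.2 ha0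
  have hma : a ≤ m := Nat.le_ceil a
  have hma1 : (m : ℝ) < a + 1 := Nat.ceil_lt_add_one ha0.le
  have hmn : m ≤ n := by
    rw [hm]
    apply Nat.ceil_le.2
    linarith
  refine ⟨n - m, by omega, 9 * K, by linarith, ?_⟩
  have hsub : n - (n - m) = m := by omega
  rw [hsub]
  have hH : ∑ t ∈ Ioc (n - m) (n - 1), (1 : ℝ) / t ≤ 1 / (9 * (q * K)) := by
    have h1 : ∀ t ∈ Ioc (n - m) (n - 1), (1 : ℝ) / t ≤ 1 / ((n : ℝ) - m + 1) := by
      intro t ht
      rw [mem_Ioc] at ht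
      have h2 : (n : ℝ) - m + 1 ≤ t := by
        have h3 : n - m + 1 ≤ t := ht.1
        have h4 : ((n - m + 1 : ℕ) : ℝ) ≤ t := by exact_mod_cast h3
        rw [Nat.cast_add, Nat.cast_sub hmn, Nat.cast_one] at h4
        exact h4
      have h3 : (m : ℝ) ≤ n := by exact_mod_cast hmn
      exact one_div_le_one_div_of_le (by linarith) h2
    refine (sum_le_sum h1).trans ?_
    rw [sum_const, nsmul_eq_mul, Nat.card_Ioc]
    have h5 : n - 1 - (n - m) = m - 1 := by omega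
    rw [h5, Nat.cast_sub (by omega), Nat.cast_one]
    have h6 : (0 : ℝ) < (n : ℝ) - m + 1 := by
      have h3 : (m : ℝ) ≤ n := by exact_mod_cast hmn
      linarith
    rw [mul_one_div, div_le_div_iff₀ h6 (by positivity)]
    nlinarith
  have hterm : ∀ j ∈ Icc 1 n, (K : ℝ) ^ j *
      (PB (n - m) ((9 * (K : ℝ) - 1) * ((q * j : ℕ) : ℝ)) (n - 1) / (9 * (K : ℝ)) ^ j)
      ≤ (Real.exp 1 / 9) ^ j := by
    intro j _
    have h1 : PB (n - m) ((9 * (K : ℝ) - 1) * ((q * j : ℕ) : ℝ)) (n - 1) ≤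
        Real.exp 1 ^ j := by
      unfold PB
      refine (prod_le_exp _ _ (mul_nonneg (by linarith) (Nat.cast_nonneg _))).trans ?_
      rw [← Real.exp_nat_mul, mul_one]
      apply Real.exp_le_exp.2
      have h2 : (9 * (K : ℝ) - 1) * ((q * j : ℕ) : ℝ) * ∑ t ∈ Ioc (n - m) (n - 1), (1 : ℝ) / t
          ≤ (9 * (K : ℝ) - 1) * ((q * j : ℕ) : ℝ) * (1 / (9 * (q * K))) :=
        mul_le_mul_of_nonneg_left hH (mul_nonneg (by linarith) (Nat.cast_nonneg _))
      refine h2.trans ?_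
      rw [mul_one_div, div_le_iff₀ (by positivity), Nat.cast_mul]
      have h3 : (0 : ℝ) ≤ q * j := by positivity
      nlinarith
    have h2 : (0 : ℝ) < (9 * (K : ℝ)) ^ j := by positivity
    calc (K : ℝ) ^ j *
      (PB (n - m) ((9 * (K : ℝ) - 1) * ((q * j : ℕ) : ℝ)) (n - 1) / (9 * (K : ℝ)) ^ j)
        ≤ (K : ℝ) ^ j * (Real.exp 1 ^ j / (9 * (K : ℝ)) ^ j) :=
          mul_le_mul_of_nonneg_left (div_le_div_of_nonneg_right h1 h2.le) (by positivity)
      _ = (Real.exp 1 / 9) ^ j := by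
          rw [mul_pow, div_pow]
          field_simp
  have hsum : ∑ j ∈ Icc 1 n, (K : ℝ) ^ j *
      (PB (n - m) ((9 * (K : ℝ) - 1) * ((q * j : ℕ) : ℝ)) (n - 1) / (9 * (K : ℝ)) ^ j)
      ≤ 1 / 2 := by
    refine (sum_le_sum hterm).trans ?_
    have h1 := exp_one_lt
    have h2 := geom_le (x := Real.exp 1 / 9) (by positivity) (by linarith) n
    have h3 : 0 ≤ (Real.exp 1 / 9) ^ n := by positivity
    linarith
  have h10 : 1 / (10 * (q * K)) ≤ (m : ℝ) / n := by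
    rw [div_le_div_iff₀ (by positivity) (by linarith)]
    nlinarith
  calc (1 : ℝ) / (20 * q * K) = 1 / (10 * (q * K)) * (1 / 2) := by
        field_simp; norm_num
    _ ≤ (m : ℝ) / n * (1 / 2) := mul_le_mul_of_nonneg_right h10 (by norm_num)
    _ ≤ _ := mul_le_mul_of_nonneg_left (by linarith) (by positivity)

end Pool.Agent.Work.MP_3bf421_lc_LU
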