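import Pool.Agent.Work.MP_3bf421_lc_LU.BlockA

set_option autoImplicit false

/-!
The union bound over the sets generated by the relevant elements of a part `U` which contains all
circuits through `e`.
-/

namespace Pool.Agent.Work.MP_3bf421_lc_LU

open Finset

variable {n : ℕ} {α : Type*} [LinearOrder α]

open Classical in
theorem sum_P1U (M : Matroid (Fin n)) (hE : M.E = Set.univ) (κ : Fin n → α)
    (hκ : Function.Injective κ) (e : Fin n) (U : Finset (Fin n)) (T1 R : ℕ)
    (hR : ∀ I : Finset (Fin n), I ⊆ U → M.Indep (I : Set (Fin n)) → I.card ≤ R) :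
    ∑ S ∈ powersetCard T1 (univ.erase e), (P1 M κ e S ∩ U).card
      ≤ R * (n - 1).choose (T1 + 1) := by
  have h1 : ∑ A ∈ powersetCard (T1 + 1) (univ.erase e),
      (A.filter (fun x => x ∉ M.closure {y | y ∈ A ∧ κ x < κ y}) ∩ U).card
      ≤ R * (n - 1).choose (T1 + 1) := by
    calc _ ≤ ∑ _A ∈ powersetCard (T1 + 1) (univ.erase e : Finset (Fin n)), R := by
          refine sum_le_sum fun A _ => hR _ inter_subset_right ?_
          have h := greedy_indep M hE κ hκ (fun x => x ∈ A)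
          refine h.subset ?_
          intro x hx
          rw [mem_coe, mem_inter, mem_filter] at hx
          exact hx.1
      _ = _ := by
          rw [sum_const, card_powersetCard, card_erase_of_mem (mem_univ e), card_univ,
            Fintype.card_fin, smul_eq_mul, mul_comm]
  refine le_trans ?_ h1
  rw [← card_sigma, ← card_sigma]
  refine card_le_card_of_injOn (fun q => ⟨insert q.2 q.1, q.2⟩) ?_ ?_
  · rintro ⟨S, x⟩ hq
    rw [mem_coe, mem_sigma, mem_powersetCard] at hq
    obtain ⟨⟨hS, hSc⟩, hx⟩ := hq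
    simp only at hS hSc hx
    rw [mem_inter] at hx
    obtain ⟨hx, hxU⟩ := hx
    unfold P1 at hx
    rw [mem_filter] at hx
    rw [mem_coe, mem_sigma, mem_powersetCard, mem_inter, mem_filter]
    simp only
    refine ⟨⟨?_, ?_⟩, ⟨mem_insert_self _ _, ?_⟩, hxU⟩
    · intro y hy
      rcases mem_insert.1 hy with rfl | hy
      · exact mem_erase.2 ⟨hx.2.1, mem_univ _⟩
      · exact hS hy
    · rw [card_insert_of_notMem hx.2.2.1, hSc]
    · have h2 : {y | y ∈ insert x S ∧ κ x < κ y} = {y | y ∈ S ∧ κ x < κ y} := by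
        ext y
        constructor
        · rintro ⟨h3, h4⟩
          rcases mem_insert.1 h3 with rfl | h3
          · exact absurd h4 (lt_irrefl _)
          · exact ⟨h3, h4⟩
        · rintro ⟨h3, h4⟩
          exact ⟨mem_insert_of_mem h3, h4⟩
      rw [h2]
      exact hx.2.2.2
  · rintro ⟨S, x⟩ hq ⟨S', x'⟩ hq' heq
    rw [mem_coe, mem_sigma] at hq hq'
    simp only at hq hq' heq
    have hx2 := (mem_inter.1 hq.2).1
    have hx2' := (mem_inter.1 hq'.2).1
    unfold P1 at hx2 hx2'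
    rw [mem_filter] at hx2 hx2'
    rw [Sigma.mk.injEq] at heq
    obtain ⟨h3, h4⟩ := heq
    have h5 : x = x' := eq_of_heq h4
    subst h5
    have h6 : S = S' := by
      rw [← erase_insert hx2.2.2.1, h3, erase_insert hx2'.2.2.1]
    subst h6
    rfl

open Classical in
theorem blockU (M : Matroid (Fin n)) (hE : M.E = Set.univ) (κ : Fin n → α)
    (hκ : Function.Injective κ) (e : Fin n) (U : Finset (Fin n)) (T1 T0 R B k : ℕ) (hT : T1 ≤ T0) (hTn : T0 < n)
    {lam θ : ℝ} (hlam : 1 ≤ lam) (hθ : 0 ≤ θ)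
    (hR : ∀ I : Finset (Fin n), I ⊆ U → M.Indep (I : Set (Fin n)) → I.card ≤ R)
    (cont : Finset (Fin n) → Finset (Fin n)) (f : Finset (Fin n) → ℕ)
    (hc1 : ∀ J : Finset (Fin n), ∀ I : Finset (Fin n), I ⊆ cont J → M.Indep (I : Set (Fin n)) →
      I.card ≤ f J)
    (hc2 : ∀ D : Finset (Fin n), M.IsCircuit (D : Set (Fin n)) → e ∈ D →
      D.erase e ⊆ U ∧ ∃ J : Finset (Fin n), J.Nonempty ∧ J ⊆ D.erase e ∧ D.erase e ⊆ cont J ∧
        k * J.card ≤ f J ∧ (D.erase e).card = f J)
    (hθ2 : ∀ m j : ℕ, k * j ≤ m →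
      PB (T0 - T1) ((lam - 1) * m) (n - T1 - 1) / lam ^ m ≤ θ ^ j) :
    ((univ.filter (fun σ : Equiv.Perm (Fin n) => T0 ≤ (σ.symm e).val ∧
      e ∈ M.closure (Cset M κ {e} T0 σ : Set (Fin n)))).card : ℝ)
    ≤ (((n - 1).factorial : ℝ) * ((n - T0 : ℕ) : ℝ)) *
      ((R : ℝ) * ((n - 1 - T1 : ℕ) : ℝ) / (((T1 : ℝ) + 1) * ((B : ℝ) + 1))
        + ((1 + θ) ^ B - 1)) := by
  set c1 : ℝ := (T1.factorial : ℝ) * ((n - T1 - 1).factorial : ℝ) * ((n - T0 : ℕ) : ℝ) with hc1d
  have hc10 : 0 ≤ c1 := by positivity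
  set Ss := powersetCard T1 (univ.erase e : Finset (Fin n)) with hSs
  have hθB : (0 : ℝ) ≤ (1 + θ) ^ B - 1 := by
    have : (1 : ℝ) ≤ (1 + θ) ^ B := one_le_pow₀ (by linarith)
    linarith
  set N : Finset (Fin n) → ℝ := fun S => ((univ.filter (fun σ : Equiv.Perm (Fin n) =>
    pre σ S.card = S ∧ T0 ≤ (σ.symm e).val ∧
      e ∈ M.closure (Cset M κ {e} T0 σ : Set (Fin n)))).card : ℝ) with hN
  -- splitting according to the first block
  have hsplit : ((univ.filter (fun σ : Equiv.Perm (Fin n) => T0 ≤ (σ.symm e).val ∧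
      e ∈ M.closure (Cset M κ {e} T0 σ : Set (Fin n)))).card : ℝ) ≤ ∑ S ∈ Ss, N S := by
    rw [hN]
    rw [← Nat.cast_sum]
    have h1 : univ.filter (fun σ : Equiv.Perm (Fin n) => T0 ≤ (σ.symm e).val ∧
      e ∈ M.closure (Cset M κ {e} T0 σ : Set (Fin n))) ⊆ Ss.biUnion (fun S =>
        univ.filter (fun σ : Equiv.Perm (Fin n) =>
        pre σ S.card = S ∧ T0 ≤ (σ.symm e).val ∧
          e ∈ M.closure (Cset M κ {e} T0 σ : Set (Fin n)))) := by
      intro σ hσ
      rw [mem_filter] at hσ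
      rw [mem_biUnion]
      have hcard : (pre σ T1).card = T1 := card_pre σ (by omega)
      refine ⟨pre σ T1, ?_, ?_⟩
      · rw [hSs, mem_powersetCard]
        refine ⟨fun x hx => mem_erase.2 ⟨?_, mem_univ _⟩, hcard⟩
        rintro rfl
        rw [mem_pre] at hx
        omega
      · rw [mem_filter, hcard]
        exact ⟨mem_univ _, rfl, hσ.2⟩
    exact_mod_cast (card_le_card h1).trans card_biUnion_le
  have hNS : ∀ S ∈ Ss, N S ≤ c1 * ((if B < (P1 M κ e S ∩ U).card then 1 else 0)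
      + ((1 + θ) ^ B - 1)) := by
    intro S hS
    rw [hSs, mem_powersetCard] at hS
    have heS : e ∉ S := fun h => (mem_erase.1 (hS.1 h)).1 rfl
    have hcard := hS.2
    have hST : S.card ≤ T0 := by omega
    by_cases hP : B < (P1 M κ e S ∩ U).card
    · rw [if_pos hP]
      have h1 : N S ≤ c1 := by
        have h2 := count_first e S heS T0 hST hTn
        rw [hcard] at h2
        refine le_trans ?_ h2
        rw [hN]
        simp only
        rw [hcard]
        exact_mod_cast card_le_card (by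
          intro σ hσ
          rw [mem_filter] at hσ ⊢
          exact ⟨hσ.1, hσ.2.1, hσ.2.2.1⟩)
      nlinarith [mul_nonneg hc10 hθB]
    · rw [if_neg hP, zero_add]
      push Not at hP
      have h1 : N S ≤ ∑ J ∈ (P1 M κ e S ∩ U).powerset.filter (fun J => J.Nonempty),
          c1 * θ ^ J.card := by
        have h2 : univ.filter (fun σ : Equiv.Perm (Fin n) => pre σ S.card = S ∧
            T0 ≤ (σ.symm e).val ∧ e ∈ M.closure (Cset M κ {e} T0 σ : Set (Fin n)))
            ⊆ ((P1 M κ e S ∩ U).powerset.filter (fun J => J.Nonempty ∧ k * J.card ≤ f J)).biUnion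
              (fun J => univ.filter (fun σ : Equiv.Perm (Fin n) => pre σ S.card = S ∧
                T0 ≤ (σ.symm e).val ∧ f J ≤ (Cset M κ (insert e S) T0 σ ∩ cont J).card)) := by
          intro σ hσ
          rw [mem_filter] at hσ
          obtain ⟨-, hσ1, hσ2, hσ3⟩ := hσ
          have heC : e ∉ Cset M κ {e} T0 σ := by
            intro h
            unfold Cset at h
            rw [mem_filter] at h
            exact h.2.1 (mem_singleton_self e)
          obtain ⟨D, hD, heD, hDC⟩ := exists_circuit M e _ heC hσ3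
          obtain ⟨hDU, J, hJ1, hJ2, hJ3, hJ4, hJ5⟩ := hc2 D hD heD
          rw [mem_biUnion]
          refine ⟨J, ?_, ?_⟩
          · rw [mem_filter, mem_powerset]
            exact ⟨fun x hx => mem_inter.2 ⟨Cset_sub_P1 M κ e S heS T0 σ hST hσ1 (hDC (hJ2 hx)),
              hDU (hJ2 hx)⟩, hJ1, hJ4⟩
          · rw [mem_filter]
            refine ⟨mem_univ _, hσ1, hσ2, ?_⟩
            rw [← hJ5]
            apply card_le_card
            intro x hx
            rw [mem_inter]
            exact ⟨Cset_mono M κ e S T0 σ hST hσ1 (hDC hx), hJ3 hx⟩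
        have h3 : N S ≤ ∑ J ∈ (P1 M κ e S ∩ U).powerset.filter
            (fun J => J.Nonempty ∧ k * J.card ≤ f J),
            ((univ.filter (fun σ : Equiv.Perm (Fin n) => pre σ S.card = S ∧
                T0 ≤ (σ.symm e).val ∧
                f J ≤ (Cset M κ (insert e S) T0 σ ∩ cont J).card)).card : ℝ) := by
          rw [hN, ← Nat.cast_sum]
          simp only
          exact_mod_cast (card_le_card h2).trans card_biUnion_le
        refine h3.trans ?_
        have h4 : ∀ J ∈ (P1 M κ e S ∩ U).powerset.filter (fun J => J.Nonempty ∧ k * J.card ≤ f J),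
            ((univ.filter (fun σ : Equiv.Perm (Fin n) => pre σ S.card = S ∧
                T0 ≤ (σ.symm e).val ∧
                f J ≤ (Cset M κ (insert e S) T0 σ ∩ cont J).card)).card : ℝ)
            ≤ c1 * θ ^ J.card := by
          intro J hJ
          rw [mem_filter] at hJ
          have h5 := count_cond M hE κ hκ e S (cont J) heS T0 (f J) (f J) hST hTn hlam (hc1 J)
          rw [hcard] at h5 ⊢
          exact h5.trans (mul_le_mul_of_nonneg_left (hθ2 (f J) J.card hJ.2.2) hc10)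
        refine (sum_le_sum h4).trans ?_
        apply sum_le_sum_of_subset_of_nonneg
        · intro J hJ
          rw [mem_filter] at hJ ⊢
          exact ⟨hJ.1, hJ.2.1⟩
        · intro J _ _
          positivity
      rw [← mul_sum, sum_powerset_pow] at h1
      refine h1.trans (mul_le_mul_of_nonneg_left ?_ hc10)
      have : (1 + θ) ^ (P1 M κ e S ∩ U).card ≤ (1 + θ) ^ B := pow_le_pow_right₀ (by linarith) hP
      linarith
  have hcardSs : (Ss.card : ℝ) = ((n - 1).choose T1 : ℝ) := by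
    rw [hSs, card_powersetCard, card_erase_of_mem (mem_univ e), card_univ, Fintype.card_fin]
  have hmark : ((Ss.filter (fun S => B < (P1 M κ e S ∩ U).card)).card : ℝ) * ((B : ℝ) + 1)
      ≤ (R : ℝ) * ((n - 1).choose (T1 + 1) : ℝ) := by
    have h1 := sum_P1U M hE κ hκ e U T1 R hR
    have h2 : (Ss.filter (fun S => B < (P1 M κ e S ∩ U).card)).card * (B + 1)
        ≤ ∑ S ∈ Ss, (P1 M κ e S ∩ U).card := by
      rw [← smul_eq_mul, ← sum_const]
      refine (sum_le_sum (fun S hS => ?_)).trans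
        (sum_le_sum_of_subset (filter_subset (fun S => B < (P1 M κ e S ∩ U).card) Ss))
      rw [mem_filter] at hS
      omega
    exact_mod_cast h2.trans h1
  have hfac : ((n - 1).choose T1 : ℝ) * c1 = ((n - 1).factorial : ℝ) * ((n - T0 : ℕ) : ℝ) := by
    have h1 := Nat.choose_mul_factorial_mul_factorial (n := n - 1) (k := T1) (by omega)
    rw [hc1d, show n - T1 - 1 = n - 1 - T1 by omega, ← h1]
    push_cast
    ring
  have hch : ((n - 1).choose (T1 + 1) : ℝ) * ((T1 : ℝ) + 1)
      = ((n - 1).choose T1 : ℝ) * ((n - 1 - T1 : ℕ) : ℝ) := by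
    have h1 := Nat.choose_succ_right_eq (n - 1) T1
    exact_mod_cast h1
  have hsum : ∑ S ∈ Ss, N S ≤ c1 * ((Ss.filter (fun S => B < (P1 M κ e S ∩ U).card)).card : ℝ)
      + c1 * ((Ss.card : ℝ) * ((1 + θ) ^ B - 1)) := by
    refine (sum_le_sum hNS).trans (le_of_eq ?_)
    rw [← mul_sum, sum_add_distrib, ← sum_filter, sum_const, sum_const, nsmul_eq_mul,
      nsmul_eq_mul, mul_one]
    ring
  refine hsplit.trans (hsum.trans ?_)
  have hB1 : (0 : ℝ) < (B : ℝ) + 1 := by positivity
  have hT1 : (0 : ℝ) < (T1 : ℝ) + 1 := by positivity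
  have h1 : c1 * ((Ss.filter (fun S => B < (P1 M κ e S ∩ U).card)).card : ℝ)
      ≤ (((n - 1).factorial : ℝ) * ((n - T0 : ℕ) : ℝ)) *
      ((R : ℝ) * ((n - 1 - T1 : ℕ) : ℝ) / (((T1 : ℝ) + 1) * ((B : ℝ) + 1))) := by
    rw [mul_div_assoc', le_div_iff₀ (by positivity)]
    calc _ = (c1 * ((T1 : ℝ) + 1)) *
          (((Ss.filter (fun S => B < (P1 M κ e S ∩ U).card)).card : ℝ) * ((B : ℝ) + 1)) := by ring
      _ ≤ (c1 * ((T1 : ℝ) + 1)) * ((R : ℝ) * ((n - 1).choose (T1 + 1) : ℝ)) :=
          mul_le_mul_of_nonneg_left hmark (by positivity)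
      _ = c1 * (R : ℝ) * (((n - 1).choose (T1 + 1) : ℝ) * ((T1 : ℝ) + 1)) := by ring
      _ = (((n - 1).choose T1 : ℝ) * c1) * ((R : ℝ) * ((n - 1 - T1 : ℕ) : ℝ)) := by
          rw [hch]; ring
      _ = _ := by rw [hfac]
  have h2 : c1 * ((Ss.card : ℝ) * ((1 + θ) ^ B - 1))
      = (((n - 1).factorial : ℝ) * ((n - T0 : ℕ) : ℝ)) * ((1 + θ) ^ B - 1) := by
    rw [hcardSs, ← hfac]; ring
  rw [h2]
  calc _ ≤ (((n - 1).factorial : ℝ) * ((n - T0 : ℕ) : ℝ)) *
      ((R : ℝ) * ((n - 1 - T1 : ℕ) : ℝ) / (((T1 : ℝ) + 1) * ((B : ℝ) + 1)))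
      + (((n - 1).factorial : ℝ) * ((n - T0 : ℕ) : ℝ)) * ((1 + θ) ^ B - 1) := by linarith
    _ = _ := by ring

end Pool.Agent.Work.MP_3bf421_lc_LU
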