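import Mathlib
import Pool.Agent.Work.MP_3bf421_lc_LU.BlockB
import Pool.Agent.Work.MP_3bf421_lc_LU.BlockU
import Pool.Agent.Work.MP_3bf421_lc.UN.Key

/-!
Direct sums of unions: the circuits through an element and the number of good orders.
-/

set_option autoImplicit false

namespace Pool.Agent.Work.MP_3bf421_lc_LU

open Finset
open _root_.MP_3bf421_lc.UN

theorem summand_indep {n t : ℕ} (N : Fin t → Matroid (Fin n))
    (h : Pairwise (Function.onFun Disjoint fun i => (N i).E)) (i : Fin t) (I : Set (Fin n))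
    (hI : I ⊆ (N i).E) : (Matroid.disjointSigma N h).Indep I ↔ (N i).Indep I := by
  rw [Matroid.disjointSigma_indep_iff]
  constructor
  · rintro ⟨h1, -⟩
    have h2 := h1 i
    rwa [Set.inter_eq_left.2 hI] at h2
  · intro h1
    refine ⟨fun j => ?_, hI.trans (Set.subset_iUnion (fun i => (N i).E) i)⟩
    by_cases hij : i = j
    · subst hij
      rwa [Set.inter_eq_left.2 hI]
    · have h2 : I ∩ (N j).E = ∅ := by
        rw [← Set.disjoint_iff_inter_eq_empty]
        exact Set.disjoint_of_subset_left hI (h hij)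
      rw [h2]
      exact (N j).empty_indep

theorem summand_circuit {n t : ℕ} (N : Fin t → Matroid (Fin n))
    (h : Pairwise (Function.onFun Disjoint fun i => (N i).E)) (i : Fin t) {e : Fin n}
    (he : e ∈ (N i).E) (D : Set (Fin n)) (hD : (Matroid.disjointSigma N h).IsCircuit D)
    (heD : e ∈ D) : D ⊆ (N i).E ∧ (N i).IsCircuit D := by
  have hdep := hD.not_indep
  have hex : ∃ j, ¬ (N j).Indep (D ∩ (N j).E) := by
    by_contra hcon
    push Not at hcon
    apply hdep
    rw [Matroid.disjointSigma_indep_iff]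
    refine ⟨hcon, ?_⟩
    have h1 := hD.subset_ground
    rwa [Matroid.disjointSigma_ground_eq] at h1
  obtain ⟨j, hj⟩ := hex
  have h2 : D ∩ (N j).E = D := by
    by_contra hne
    have h3 : D ∩ (N j).E ⊂ D := Set.inter_subset_left.ssubset_of_ne hne
    have h4 := hD.ssubset_indep h3
    rw [summand_indep N h j _ Set.inter_subset_right] at h4
    exact hj h4
  have h3 : D ⊆ (N j).E := Set.inter_eq_left.1 h2
  have hij : i = j := by
    by_contra hne
    have := h hne
    exact Set.disjoint_left.1 this he (h3 heD)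
  subst hij
  refine ⟨h3, ?_⟩
  rw [Matroid.isCircuit_iff]
  constructor
  · rw [h2] at hj
    exact ⟨hj, h3⟩
  · intro I hI hID
    by_contra hne
    have h4 := hD.ssubset_indep (hID.ssubset_of_ne hne)
    rw [summand_indep N h i _ (hID.trans h3)] at h4
    exact hI.not_indep h4

open Classical in
theorem core_count {n t : ℕ} (N : Fin t → Matroid (Fin n))
    (h : Pairwise (Function.onFun Disjoint fun i => (N i).E))
    (hE : (Matroid.disjointSigma N h).E = Set.univ) {α : Type*} [LinearOrder α]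
    (κ : Fin n → α) (hκ : Function.Injective κ) (T0 : ℕ) (hT0 : T0 < n) {c δ : ℝ}
    (hmain : ∀ k R : ℕ, 1 ≤ R → δ * Real.log (R + 1) ≤ k →
      (n ≤ k ∧ c ≤ ((n - T0 : ℕ) : ℝ) / n) ∨
      ∃ T1 B : ℕ, ∃ lam θ : ℝ, T1 ≤ T0 ∧ 1 ≤ lam ∧ 0 ≤ θ ∧
        (∀ f j : ℕ, k * j ≤ f →
          PB (T0 - T1) ((lam - 1) * f) (n - T1 - 1) / lam ^ f ≤ θ ^ j) ∧
        c ≤ ((n - T0 : ℕ) : ℝ) / n *
          (1 - (R : ℝ) * ((n - 1 - T1 : ℕ) : ℝ) / (((T1 : ℝ) + 1) * ((B : ℝ) + 1))
            - ((1 + θ) ^ B - 1)))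
    (hN : ∀ i, ∃ (l k R : ℕ) (Ms : Fin l → Matroid (Fin n)), IsUnion (N i) Ms ∧
      (∀ j, k ≤ (univ.filter (fun i => Ms i = Ms j)).card) ∧
      (∀ I : Finset (Fin n), (N i).Indep (↑I : Set (Fin n)) → I.card ≤ R) ∧
      δ * Real.log (R + 1) ≤ k)
    (e : Fin n) (he : e ∈ optB (Matroid.disjointSigma N h) κ) :
    c * (n.factorial : ℝ) ≤ ((univ.filter fun σ : Equiv.Perm (Fin n) =>
      Acc (Matroid.disjointSigma N h) κ T0 σ e).card : ℝ) := by
  set M := Matroid.disjointSigma N h with hM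
  have heE : e ∈ M.E := by rw [hE]; exact Set.mem_univ e
  rw [hM, Matroid.disjointSigma_ground_eq, Set.mem_iUnion] at heE
  obtain ⟨i, hi⟩ := heE
  obtain ⟨l, k, R, Ms, hU, hk, hR, hkR⟩ := hN i
  set U : Finset (Fin n) := univ.filter (fun x => x ∈ (N i).E) with hUdef
  have hUsub : ∀ I : Finset (Fin n), I ⊆ U → (↑I : Set (Fin n)) ⊆ (N i).E := by
    intro I hI x hx
    have h1 := hI (mem_coe.1 hx)
    rw [hUdef, mem_filter] at h1
    exact h1.2
  have hRU : ∀ I : Finset (Fin n), I ⊆ U → M.Indep (↑I : Set (Fin n)) → I.card ≤ R := by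
    intro I hI h1
    rw [hM, summand_indep N h i _ (hUsub I hI)] at h1
    exact hR I h1
  have hR1 : 1 ≤ R := by
    have h3 : M.Indep (({e} : Finset (Fin n)) : Set (Fin n)) := by
      refine (optB_indep M hE κ hκ).subset ?_
      intro x hx
      rw [mem_coe, mem_singleton] at hx
      rw [hx]
      exact he
    have h4 := hRU {e} (by
      intro x hx
      rw [mem_singleton] at hx
      rw [hUdef, mem_filter, hx]
      exact ⟨mem_univ _, hi⟩) h3
    rwa [card_singleton] at h4
  have hkey : ∀ D : Finset (Fin n), M.IsCircuit (D : Set (Fin n)) → e ∈ D →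
      D.erase e ⊆ U ∧ ∃ J : Finset (Fin n), J.Nonempty ∧ J ⊆ D.erase e ∧
        D.erase e ⊆ cont Ms J ∩ U ∧ k * J.card ≤ fs Ms J ∧ (D.erase e).card = fs Ms J := by
    intro D hD heD
    obtain ⟨hDE, hDc⟩ := summand_circuit N h i hi (↑D) hD heD
    have hDU : D.erase e ⊆ U := by
      intro x hx
      rw [hUdef, mem_filter]
      exact ⟨mem_univ _, hDE (mem_of_mem_erase hx)⟩
    obtain ⟨J, hJ1, hJ2, hJ3, hJ4⟩ := hU.circuit_cont (k := k) (fun j => by
      convert hk j using 2) hDc heD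
    refine ⟨hDU, J, ?_, hJ1, subset_inter hJ3 hDU, hJ2, hJ4⟩
    rw [nonempty_iff_ne_empty]
    rintro rfl
    have h5 : fs Ms ∅ = 0 := by
      unfold fs
      exact sum_eq_zero fun j _ => rk_empty (Ms j)
    have h6 := card_pos.2 (erase_nonempty M κ e he D hD heD)
    omega
  rcases hmain k R hR1 hkR with ⟨hnk, hval⟩ | ⟨T1, B, lam, θ, hT1, hlam, hθ, hθ2, hfin⟩
  · have hb : ((univ.filter (fun σ : Equiv.Perm (Fin n) => T0 ≤ (σ.symm e).val ∧
        e ∈ M.closure (Cset M κ {e} T0 σ : Set (Fin n)))).card : ℝ)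
        ≤ (((n - 1).factorial : ℝ) * ((n - T0 : ℕ) : ℝ)) * 0 := by
      rw [mul_zero]
      have h3 : univ.filter (fun σ : Equiv.Perm (Fin n) => T0 ≤ (σ.symm e).val ∧
        e ∈ M.closure (Cset M κ {e} T0 σ : Set (Fin n))) = ∅ := by
        rw [filter_eq_empty_iff]
        rintro σ - ⟨-, h4⟩
        have heC : e ∉ Cset M κ {e} T0 σ := by
          intro h
          unfold Cset at h
          rw [mem_filter] at h
          exact h.2.1 (mem_singleton_self e)
        obtain ⟨D, hD, heD, -⟩ := exists_circuit M e _ heC h4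
        obtain ⟨-, J, hJ0, -, -, hJ3, hJ4⟩ := hkey D hD heD
        have h5 : k * 1 ≤ k * J.card := Nat.mul_le_mul_left k (card_pos.2 hJ0)
        have h6 := card_erase_lt_of_mem heD
        have h7 := card_le_univ D
        rw [Fintype.card_fin] at h7
        omega
      rw [h3, card_empty, Nat.cast_zero]
    have ha := acc_count M κ T0 hT0 e he hb
    refine le_trans ?_ ha
    rw [sub_zero, mul_one]
    exact mul_le_mul_of_nonneg_right hval (Nat.cast_nonneg _)
  · have hb := blockU M hE κ hκ e U T1 T0 R B k hT1 hT0 hlam hθ hRU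
      (fun J => cont Ms J ∩ U) (fs Ms)
      (fun J I hIJ hI => hU.card_le_of_cont (by
        rw [hM, summand_indep N h i _ (hUsub I (hIJ.trans inter_subset_right))] at hI
        exact hI) (hIJ.trans inter_subset_left)) hkey hθ2
    have ha := acc_count M κ T0 hT0 e he hb
    refine le_trans (mul_le_mul_of_nonneg_right ?_ (Nat.cast_nonneg _)) ha
    refine hfin.trans (le_of_eq ?_)
    ring

end Pool.Agent.Work.MP_3bf421_lc_LU
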