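import Pool.Agent.Work.MP_3bf421_lc_LU.NumAFin

set_option autoImplicit false

/-!
The numbers of the theorem on unions for small multiplicities.
-/

namespace Pool.Agent.Work.MP_3bf421_lc_LU

open Finset
open _root_.MP_3bf421_lc.UN

theorem numSmall {δ : ℝ} (h0 : 0 < δ) : ∀ n : ℕ, 1 ≤ n → ∃ T0 : ℕ, T0 < n ∧
    ∀ k R : ℕ, 1 ≤ R → δ * Real.log (R + 1) ≤ k →
    ∃ T1 B : ℕ, ∃ lam θ : ℝ, T1 ≤ T0 ∧ 1 ≤ lam ∧ 0 ≤ θ ∧
      (∀ f j : ℕ, k * j ≤ f →
        PB (T0 - T1) ((lam - 1) * f) (n - T1 - 1) / lam ^ f ≤ θ ^ j) ∧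
      Real.exp (-(1 / δ)) / 500 ≤ ((n - T0 : ℕ) : ℝ) / n *
        (1 - (R : ℝ) * ((n - 1 - T1 : ℕ) : ℝ) / (((T1 : ℝ) + 1) * ((B : ℝ) + 1))
          - ((1 + θ) ^ B - 1)) := by
  intro n hn
  have hnR : (1 : ℝ) ≤ n := by exact_mod_cast hn
  set E : ℝ := Real.exp (-(1 / δ)) with hE
  have hE0 : 0 < E := Real.exp_pos _
  have hE1 : E ≤ 1 := by
    rw [hE]
    apply Real.exp_le_one_iff.2
    have : 0 < 1 / δ := by positivity
    linarith
  have he0 := Real.exp_pos 1
  have he1 := exp_one_gt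
  have he2 := exp_one_lt
  set a : ℝ := E / (32 * Real.exp 1) with ha
  have ha0 : 0 < a := by positivity
  have haE : a * (32 * Real.exp 1) = E := by rw [ha]; field_simp
  have ha1 : a ≤ 1 / 80 := by
    rw [ha, div_le_div_iff₀ (by positivity) (by norm_num)]
    nlinarith
  have hc : E / 500 ≤ a / 5 := by
    rw [← haE]
    nlinarith
  rcases le_or_gt (2 / 5 * a * n) 1 with hsmall | hbig
  · refine ⟨n - 1, by omega, fun k R hR hk => ⟨n - 1, 0, 1, 1, le_rfl, le_rfl, zero_le_one,
      fun f j _ => ?_, ?_⟩⟩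
    · have h1 : n - (n - 1) - 1 = 0 := by omega
      rw [h1]
      unfold PB
      simp
    · have h1 : n - 1 - (n - 1) = 0 := by omega
      have h2 : n - (n - 1) = 1 := by omega
      rw [h1, h2]
      simp only [Nat.cast_zero, mul_zero, zero_div, sub_zero, pow_zero, sub_self, mul_one,
        Nat.cast_one]
      rw [le_div_iff₀ (by linarith)]
      nlinarith
  · set m : ℕ := ⌈2 / 5 * a * n⌉₊ with hm
    have hm1 : (m : ℝ) < 2 / 5 * a * n + 1 := Nat.ceil_lt_add_one (by positivity)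
    have hm2 : 2 / 5 * a * n ≤ (m : ℝ) := Nat.le_ceil _
    have hm0 : 0 < m := Nat.ceil_pos.2 (by positivity)
    have hn200 : (200 : ℝ) < n := by nlinarith
    have hn200' : 200 < n := by exact_mod_cast hn200
    have hmn : (m : ℝ) ≤ n / 100 := by nlinarith
    set T1 : ℕ := n / 2 with hT1
    have hT1a : 2 * T1 ≤ n := by omega
    have hT1b : n ≤ 2 * T1 + 1 := by omega
    have hT1aR : 2 * (T1 : ℝ) ≤ n := by exact_mod_cast hT1a
    have hT1bR : (n : ℝ) ≤ 2 * T1 + 1 := by exact_mod_cast hT1b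
    have hmnN : 100 * m ≤ n := by
      have : (100 : ℝ) * m ≤ n := by linarith
      exact_mod_cast this
    refine ⟨n - m, by omega, fun k R hR hk => ⟨T1, 4 * R - 1, a⁻¹,
      1 / (32 * ((R : ℝ) + 1)), by omega, ?_, by positivity, fun f j hfj => ?_, ?_⟩⟩
    · rw [one_le_inv₀ ha0]
      linarith
    · have hRR : (1 : ℝ) ≤ R := by exact_mod_cast hR
      have hH : ∑ t ∈ Ioc (n - m - T1) (n - T1 - 1), (1 : ℝ) / t ≤ a := by
        have h1 : ∀ t ∈ Ioc (n - m - T1) (n - T1 - 1), (1 : ℝ) / t ≤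
            1 / ((n : ℝ) - m - T1 + 1) := by
          intro t ht
          rw [mem_Ioc] at ht
          have h2 : (n : ℝ) - m - T1 + 1 ≤ t := by
            have h3 : n - m - T1 + 1 ≤ t := ht.1
            have h4 : ((n - m - T1 + 1 : ℕ) : ℝ) ≤ t := by exact_mod_cast h3
            rw [Nat.cast_add, Nat.cast_sub (by omega), Nat.cast_sub (by omega),
              Nat.cast_one] at h4
            exact h4
          exact one_div_le_one_div_of_le (by linarith) h2
        refine (sum_le_sum h1).trans ?_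
        rw [sum_const, nsmul_eq_mul, Nat.card_Ioc]
        have h5 : n - T1 - 1 - (n - m - T1) = m - 1 := by omega
        rw [h5, Nat.cast_sub (by omega), Nat.cast_one]
        have h6 : (0 : ℝ) < (n : ℝ) - m - T1 + 1 := by linarith
        rw [mul_one_div, div_le_iff₀ h6]
        have h7 : (49 / 100 : ℝ) * n ≤ (n : ℝ) - m - T1 + 1 := by linarith
        have h8 := mul_le_mul_of_nonneg_left h7 ha0.le
        nlinarith
      have hPB : PB (n - m - T1) ((a⁻¹ - 1) * f) (n - T1 - 1) ≤ Real.exp 1 ^ f := by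
        unfold PB
        have hai : 1 ≤ a⁻¹ := by
          rw [one_le_inv₀ ha0]
          linarith
        refine (prod_le_exp _ _ (mul_nonneg (by linarith) (Nat.cast_nonneg _))).trans ?_
        rw [← Real.exp_nat_mul, mul_one]
        apply Real.exp_le_exp.2
        have h2 : (a⁻¹ - 1) * (f : ℝ) *
            ∑ t ∈ Ioc (n - m - T1) (n - T1 - 1), (1 : ℝ) / t ≤ (a⁻¹ - 1) * (f : ℝ) * a :=
          mul_le_mul_of_nonneg_left hH (mul_nonneg (by linarith) (Nat.cast_nonneg _))
        refine h2.trans ?_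
        have h3 : (a⁻¹ - 1) * (f : ℝ) * a = f - a * f := by
          field_simp
        rw [h3]
        have : (0 : ℝ) ≤ a * f := by positivity
        linarith
      have h1 : (0 : ℝ) < a⁻¹ ^ f := by positivity
      have h2 : PB (n - m - T1) ((a⁻¹ - 1) * f) (n - T1 - 1) / a⁻¹ ^ f ≤ (E / 32) ^ f := by
        rw [div_le_iff₀ h1]
        refine hPB.trans (le_of_eq ?_)
        rw [← mul_pow]
        congr 1
        rw [← haE]
        field_simp
      refine h2.trans ?_
      have h3 : (E / 32) ^ f ≤ (E / 32) ^ (k * j) :=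
        pow_le_pow_of_le_one (by positivity) (by linarith) hfj
      refine h3.trans ?_
      rw [pow_mul]
      refine pow_le_pow_left₀ (by positivity) ?_ j
      have hlog : 0 < Real.log ((R : ℝ) + 1) := Real.log_pos (by linarith)
      have hkpos : (0 : ℝ) < k := lt_of_lt_of_le (by positivity) hk
      have hk1 : 1 ≤ k := by
        have : 0 < k := by exact_mod_cast hkpos
        omega
      have h4 : E ^ k ≤ 1 / ((R : ℝ) + 1) := by
        rw [hE, ← Real.exp_nat_mul]
        have h5 : ((R : ℝ) + 1) = Real.exp (Real.log ((R : ℝ) + 1)) :=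
          (Real.exp_log (by linarith)).symm
        have h7 : 1 / ((R : ℝ) + 1) = Real.exp (-Real.log ((R : ℝ) + 1)) := by
          rw [Real.exp_neg, ← h5, one_div]
        rw [h7]
        apply Real.exp_le_exp.2
        rw [mul_neg, neg_le_neg_iff, mul_one_div, le_div_iff₀ h0, mul_comm]
        exact hk
      have h6 : (1 / 32 : ℝ) ^ k ≤ 1 / 32 := by
        calc (1 / 32 : ℝ) ^ k ≤ (1 / 32 : ℝ) ^ 1 :=
              pow_le_pow_of_le_one (by norm_num) (by norm_num) hk1
          _ = 1 / 32 := pow_one _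
      calc (E / 32) ^ k = E ^ k * (1 / 32) ^ k := by rw [← mul_pow]; congr 1; ring
        _ ≤ 1 / ((R : ℝ) + 1) * (1 / 32) :=
            mul_le_mul h4 h6 (by positivity) (by positivity)
        _ = 1 / (32 * ((R : ℝ) + 1)) := by field_simp
    · have hRR : (1 : ℝ) ≤ R := by exact_mod_cast hR
      have hsub : n - (n - m) = m := by omega
      rw [hsub]
      have hBR : ((4 * R - 1 : ℕ) : ℝ) = 4 * R - 1 := by
        rw [Nat.cast_sub (by omega)]
        push_cast
        ring
      have hfirst : (R : ℝ) * ((n - 1 - T1 : ℕ) : ℝ) /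
          (((T1 : ℝ) + 1) * (((4 * R - 1 : ℕ) : ℝ) + 1)) ≤ 1 / 4 := by
        rw [hBR, div_le_iff₀ (by
          have : (0 : ℝ) ≤ T1 := Nat.cast_nonneg _
          nlinarith)]
        have h1 : ((n - 1 - T1 : ℕ) : ℝ) ≤ (T1 : ℝ) + 1 := by
          have : n - 1 - T1 ≤ T1 + 1 := by omega
          exact_mod_cast this
        nlinarith
      have hsecond : (1 + 1 / (32 * ((R : ℝ) + 1))) ^ (4 * R - 1) - 1 ≤ 1 / 4 := by
        have h1 : (1 + 1 / (32 * ((R : ℝ) + 1))) ^ (4 * R - 1) ≤
            Real.exp (((4 * R - 1 : ℕ) : ℝ) * (1 / (32 * ((R : ℝ) + 1)))) := by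
          rw [Real.exp_nat_mul]
          refine pow_le_pow_left₀ (by positivity) ?_ _
          have := Real.add_one_le_exp (1 / (32 * ((R : ℝ) + 1)))
          linarith
        have h2 : ((4 * R - 1 : ℕ) : ℝ) * (1 / (32 * ((R : ℝ) + 1))) ≤ 1 / 8 := by
          rw [hBR, mul_one_div, div_le_iff₀ (by positivity)]
          linarith
        have h3 : 0 ≤ ((4 * R - 1 : ℕ) : ℝ) * (1 / (32 * ((R : ℝ) + 1))) := by positivity
        have h4 := exp_half_le h3 (by linarith)
        linarith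
      have hY : (1 : ℝ) / 2 ≤ 1 - (R : ℝ) * ((n - 1 - T1 : ℕ) : ℝ) /
          (((T1 : ℝ) + 1) * (((4 * R - 1 : ℕ) : ℝ) + 1)) -
          ((1 + 1 / (32 * ((R : ℝ) + 1))) ^ (4 * R - 1) - 1) := by linarith
      refine le_trans ?_ (mul_le_mul_of_nonneg_left hY (by positivity))
      refine hc.trans ?_
      have h1 : 2 / 5 * a ≤ (m : ℝ) / n := by
        rw [le_div_iff₀ (by linarith)]
        exact hm2
      linarith

end Pool.Agent.Work.MP_3bf421_lc_LU
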