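import Mathlib

set_option autoImplicit false

/-!
Sums over uniformly random orders of `Fin n`, evaluated from the last element backwards.
-/

namespace Pool.Agent.Work.MP_3bf421_lc_LU

open Finset

variable {n : ℕ}

/-- the first `t` elements of the order `σ` -/
def pre (σ : Equiv.Perm (Fin n)) (t : ℕ) : Finset (Fin n) :=
  univ.filter (fun x => (σ.symm x).val < t)

theorem mem_pre {σ : Equiv.Perm (Fin n)} {t : ℕ} {x : Fin n} :
    x ∈ pre σ t ↔ (σ.symm x).val < t := by
  simp [pre]

theorem pre_zero (σ : Equiv.Perm (Fin n)) : pre σ 0 = ∅ := by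
  ext x; simp [mem_pre]

theorem pre_n (σ : Equiv.Perm (Fin n)) : pre σ n = univ := by
  ext x; simp [mem_pre]

theorem pre_mono (σ : Equiv.Perm (Fin n)) {s t : ℕ} (h : s ≤ t) : pre σ s ⊆ pre σ t := by
  intro x hx
  rw [mem_pre] at hx ⊢
  omega

theorem card_pre (σ : Equiv.Perm (Fin n)) {t : ℕ} (ht : t ≤ n) : (pre σ t).card = t := by
  have : pre σ t = (univ.filter (fun i : Fin n => i.val < t)).map σ.toEmbedding := by
    ext x
    rw [mem_pre, mem_map]
    constructor
    · intro h
      exact ⟨σ.symm x, by simpa using h, by simp⟩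
    · rintro ⟨i, hi, rfl⟩
      simpa using hi
  rw [this, card_map]
  have h2 : (univ.filter (fun i : Fin n => i.val < t)) = (univ : Finset (Fin t)).map
      (Fin.castLEEmb ht) := by
    ext i
    simp only [mem_filter, mem_univ, true_and, mem_map]
    constructor
    · intro h
      exact ⟨⟨i.val, h⟩, by ext; simp⟩
    · rintro ⟨j, rfl⟩
      simp
  rw [h2, card_map, card_univ, Fintype.card_fin]

theorem notMem_pre_self (σ : Equiv.Perm (Fin n)) (i : Fin n) : σ i ∉ pre σ i.val := by
  rw [mem_pre]; simp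

theorem pre_succ (σ : Equiv.Perm (Fin n)) (i : Fin n) :
    pre σ (i.val + 1) = insert (σ i) (pre σ i.val) := by
  ext x
  rw [mem_pre, mem_insert, mem_pre]
  constructor
  · intro h
    by_cases h2 : (σ.symm x).val < i.val
    · exact Or.inr h2
    · left
      have : σ.symm x = i := by ext; omega
      rw [← this]; simp
  · rintro (h | h)
    · rw [h]; simp
    · omega

/-- the product of `h (A_{i+1}) (σ i)` over the first `t` times -/
def wprod (h : Finset (Fin n) → Fin n → ℝ) (σ : Equiv.Perm (Fin n)) (t : ℕ) : ℝ :=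
  ∏ i ∈ univ.filter (fun i : Fin n => i.val < t), h (pre σ (i.val + 1)) (σ i)

theorem wprod_zero (h : Finset (Fin n) → Fin n → ℝ) (σ : Equiv.Perm (Fin n)) :
    wprod h σ 0 = 1 := by
  simp [wprod]

theorem wprod_succ (h : Finset (Fin n) → Fin n → ℝ) (σ : Equiv.Perm (Fin n)) {t : ℕ}
    (ht : t < n) :
    wprod h σ (t + 1) = h (pre σ (t + 1)) (σ ⟨t, ht⟩) * wprod h σ t := by
  unfold wprod
  have : (univ.filter (fun i : Fin n => i.val < t + 1))
      = insert (⟨t, ht⟩ : Fin n) (univ.filter (fun i : Fin n => i.val < t)) := by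
    ext i
    simp only [mem_filter, mem_univ, true_and, mem_insert]
    constructor
    · intro h1
      by_cases h2 : i.val < t
      · exact Or.inr h2
      · left; ext; simp; omega
    · rintro (h1 | h1)
      · rw [h1]; simp
      · omega
  rw [this, prod_insert (by simp)]

theorem wprod_nonneg {h : Finset (Fin n) → Fin n → ℝ} (hh : ∀ A x, 0 ≤ h A x)
    (σ : Equiv.Perm (Fin n)) (t : ℕ) : 0 ≤ wprod h σ t :=
  prod_nonneg fun _ _ => hh _ _

theorem pre_swap (σ : Equiv.Perm (Fin n)) {s t : ℕ} (hst : s ≤ t) {x y : Fin n}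
    (hx : x ∉ pre σ t) (hy : y ∉ pre σ t) : pre (Equiv.swap x y * σ) s = pre σ s := by
  ext z
  rw [mem_pre, mem_pre]
  rw [mem_pre] at hx hy
  have h1 : (Equiv.swap x y * σ).symm z = σ.symm (Equiv.swap x y z) := by
    rw [Equiv.symm_apply_eq]
    simp
  rw [h1]
  by_cases hzx : z = x
  · rw [hzx, Equiv.swap_apply_left]
    constructor <;> intro h <;> omega
  · by_cases hzy : z = y
    · rw [hzy, Equiv.swap_apply_right]
      constructor <;> intro h <;> omega
    · rw [Equiv.swap_apply_of_ne_of_ne hzx hzy]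

theorem wprod_swap (h : Finset (Fin n) → Fin n → ℝ) (σ : Equiv.Perm (Fin n)) {t : ℕ}
    {x y : Fin n} (hx : x ∉ pre σ t) (hy : y ∉ pre σ t) :
    wprod h (Equiv.swap x y * σ) t = wprod h σ t := by
  unfold wprod
  refine prod_congr rfl fun i hi => ?_
  have hi' : i.val < t := by simpa using hi
  rw [pre_swap σ (by omega : i.val + 1 ≤ t) hx hy]
  congr 1
  have hmem : σ i ∈ pre σ t := by rw [mem_pre]; simpa using hi'
  rw [Equiv.Perm.mul_apply]
  exact Equiv.swap_apply_of_ne_of_ne (fun h => hx (h ▸ hmem)) (fun h => hy (h ▸ hmem))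

open Classical in
/-- given the first `t` elements, the next one is uniform -/
theorem next_uniform (h : Finset (Fin n) → Fin n → ℝ) {t : ℕ} (ht : t < n)
    (A : Finset (Fin n)) (hA : A.card = t) {x : Fin n} (hx : x ∉ A) :
    ((n - t : ℕ) : ℝ) * ∑ σ : Equiv.Perm (Fin n),
      (if pre σ t = A ∧ σ ⟨t, ht⟩ = x then wprod h σ t else 0)
    = ∑ σ : Equiv.Perm (Fin n), (if pre σ t = A then wprod h σ t else 0) := by
  have key : ∀ y ∉ A, ∑ σ : Equiv.Perm (Fin n),
      (if pre σ t = A ∧ σ ⟨t, ht⟩ = y then wprod h σ t else 0)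
      = ∑ σ : Equiv.Perm (Fin n),
      (if pre σ t = A ∧ σ ⟨t, ht⟩ = x then wprod h σ t else 0) := by
    intro y hy
    rw [← Equiv.sum_comp (Equiv.mulLeft (Equiv.swap x y))]
    refine sum_congr rfl fun σ _ => ?_
    rw [Equiv.coe_mulLeft]
    by_cases hc : pre σ t = A
    · have hx' : x ∉ pre σ t := hc ▸ hx
      have hy' : y ∉ pre σ t := hc ▸ hy
      rw [pre_swap σ le_rfl hx' hy', wprod_swap h σ hx' hy']
      have : ((Equiv.swap x y * σ) ⟨t, ht⟩ = y) ↔ (σ ⟨t, ht⟩ = x) := by
        rw [Equiv.Perm.mul_apply]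
        constructor
        · intro h1
          have := congrArg (Equiv.swap x y) h1
          rwa [Equiv.swap_apply_self, Equiv.swap_apply_right] at this
        · intro h1
          rw [h1, Equiv.swap_apply_left]
      simp only [this]
    · have hc' : ¬ pre (Equiv.swap x y * σ) t = A := by
        intro h1
        apply hc
        have hx' : x ∉ pre (Equiv.swap x y * σ) t := h1 ▸ hx
        have hy' : y ∉ pre (Equiv.swap x y * σ) t := h1 ▸ hy
        have h2 := pre_swap (Equiv.swap x y * σ) le_rfl hx' hy'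
        rw [← mul_assoc, Equiv.swap_mul_self, one_mul] at h2
        rw [h2, h1]
      rw [if_neg (fun h1 => hc' h1.1), if_neg (fun h1 => hc h1.1)]
  have hsum : ∑ y ∈ Aᶜ, ∑ σ : Equiv.Perm (Fin n),
      (if pre σ t = A ∧ σ ⟨t, ht⟩ = y then wprod h σ t else 0)
      = ∑ σ : Equiv.Perm (Fin n), (if pre σ t = A then wprod h σ t else 0) := by
    rw [sum_comm]
    refine sum_congr rfl fun σ _ => ?_
    by_cases hc : pre σ t = A
    · have hmem : σ ⟨t, ht⟩ ∈ Aᶜ := by
        rw [mem_compl, ← hc]
        exact notMem_pre_self σ ⟨t, ht⟩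
      rw [sum_eq_single_of_mem _ hmem]
      · simp [hc]
      · intro y _ hy
        rw [if_neg (fun h1 => hy h1.2.symm)]
    · rw [if_neg hc]
      exact sum_eq_zero fun y _ => by rw [if_neg (fun h1 => hc h1.1)]
  rw [← hsum, sum_congr rfl (fun y hy => key y (mem_compl.1 hy)), sum_const, card_compl,
    Fintype.card_fin, hA, nsmul_eq_mul]

open Classical in
theorem order_sum_aux (h : Finset (Fin n) → Fin n → ℝ) (hh : ∀ A x, 0 ≤ h A x)
    (U : Finset (Fin n) → ℝ) (hU0 : 1 ≤ U ∅)
    (hU : ∀ A : Finset (Fin n), A.Nonempty → ∑ x ∈ A, h A x * U (A.erase x) ≤ U A) :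
    ∀ t : ℕ, t ≤ n → ∀ A : Finset (Fin n), A.card = t →
      ∑ σ : Equiv.Perm (Fin n), (if pre σ t = A then wprod h σ t else 0)
        ≤ ((n - t).factorial : ℝ) * U A := by
  intro t
  induction t with
  | zero =>
    intro _ A hA
    rw [card_eq_zero] at hA
    subst hA
    have : ∀ σ : Equiv.Perm (Fin n), (if pre σ 0 = ∅ then wprod h σ 0 else 0) = 1 := by
      intro σ
      rw [if_pos (pre_zero σ), wprod_zero]
    rw [sum_congr rfl (fun σ _ => this σ), sum_const, card_univ, Fintype.card_perm,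
      Fintype.card_fin, nsmul_eq_mul, mul_one, Nat.sub_zero]
    have h0 : (0 : ℝ) ≤ n.factorial := Nat.cast_nonneg _
    nlinarith
  | succ t ih =>
    intro ht A hA
    have ht' : t < n := by omega
    have hne : A.Nonempty := by
      rw [← card_pos]; omega
    have hfac : ((n - t).factorial : ℝ) = ((n - t : ℕ) : ℝ) * ((n - (t + 1)).factorial : ℝ) := by
      have : n - t = (n - (t + 1)) + 1 := by omega
      rw [this, Nat.factorial_succ]
      push_cast
      ring
    have hpos : (0 : ℝ) < ((n - t : ℕ) : ℝ) := by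
      have : 0 < n - t := by omega
      exact_mod_cast this
    have hsplit : ∑ σ : Equiv.Perm (Fin n), (if pre σ (t + 1) = A then wprod h σ (t + 1) else 0)
        = ∑ x ∈ A, h A x * ∑ σ : Equiv.Perm (Fin n),
          (if pre σ t = A.erase x ∧ σ ⟨t, ht'⟩ = x then wprod h σ t else 0) := by
      rw [show (∑ x ∈ A, h A x * ∑ σ : Equiv.Perm (Fin n),
          (if pre σ t = A.erase x ∧ σ ⟨t, ht'⟩ = x then wprod h σ t else 0))
          = ∑ x ∈ A, ∑ σ : Equiv.Perm (Fin n), h A x *
          (if pre σ t = A.erase x ∧ σ ⟨t, ht'⟩ = x then wprod h σ t else 0) from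
          sum_congr rfl fun x _ => mul_sum _ _ _, sum_comm]
      refine sum_congr rfl fun σ _ => ?_
      have hps := pre_succ σ ⟨t, ht'⟩
      simp only at hps
      by_cases hc : pre σ (t + 1) = A
      · rw [if_pos hc]
        have hmem : σ ⟨t, ht'⟩ ∈ A := by rw [← hc, hps]; exact mem_insert_self _ _
        rw [sum_eq_single_of_mem _ hmem]
        · have h1 : pre σ t = A.erase (σ ⟨t, ht'⟩) := by
            rw [← hc, hps, erase_insert (notMem_pre_self σ ⟨t, ht'⟩)]
          rw [if_pos ⟨h1, rfl⟩, wprod_succ h σ ht', hc]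
        · intro y _ hy
          rw [if_neg (fun h1 => hy h1.2.symm), mul_zero]
      · rw [if_neg hc]
        symm
        refine sum_eq_zero fun y hy => ?_
        rw [if_neg, mul_zero]
        rintro ⟨h1, h2⟩
        apply hc
        rw [hps, h1, h2, insert_erase hy]
    rw [hsplit]
    have hstep : ∀ x ∈ A, h A x * ∑ σ : Equiv.Perm (Fin n),
          (if pre σ t = A.erase x ∧ σ ⟨t, ht'⟩ = x then wprod h σ t else 0)
        ≤ ((n - (t + 1)).factorial : ℝ) * (h A x * U (A.erase x)) := by
      intro x hx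
      have hcard : (A.erase x).card = t := by rw [card_erase_of_mem hx]; omega
      have h1 := next_uniform h ht' (A.erase x) hcard (notMem_erase x A)
      have h2 := ih (by omega) (A.erase x) hcard
      rw [← h1, hfac, mul_assoc] at h2
      have h3 := le_of_mul_le_mul_left h2 hpos
      calc _ ≤ h A x * (((n - (t + 1)).factorial : ℝ) * U (A.erase x)) :=
            mul_le_mul_of_nonneg_left h3 (hh A x)
        _ = _ := by ring
    calc _ ≤ ∑ x ∈ A, ((n - (t + 1)).factorial : ℝ) * (h A x * U (A.erase x)) :=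
          sum_le_sum hstep
      _ = ((n - (t + 1)).factorial : ℝ) * ∑ x ∈ A, h A x * U (A.erase x) := by rw [mul_sum]
      _ ≤ _ := mul_le_mul_of_nonneg_left (hU A hne) (Nat.cast_nonneg _)

/-- **Order sums.** A supersolution of the backward recursion bounds the sum over all orders. -/
theorem order_sum_le (h : Finset (Fin n) → Fin n → ℝ) (hh : ∀ A x, 0 ≤ h A x)
    (U : Finset (Fin n) → ℝ) (hU0 : 1 ≤ U ∅)
    (hU : ∀ A : Finset (Fin n), A.Nonempty → ∑ x ∈ A, h A x * U (A.erase x) ≤ U A) :
    ∑ σ : Equiv.Perm (Fin n), wprod h σ n ≤ U univ := by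
  classical
  have h1 := order_sum_aux h hh U hU0 hU n le_rfl univ (by simp)
  rw [Nat.sub_self, Nat.factorial_zero, Nat.cast_one, one_mul] at h1
  refine le_trans (le_of_eq ?_) h1
  refine sum_congr rfl fun σ _ => ?_
  rw [if_pos (pre_n σ)]

end Pool.Agent.Work.MP_3bf421_lc_LU
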