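import Pool.Agent.Work.MP_3bf421_lc_LU.Block

set_option autoImplicit false

/-!
The union bound over the sets generated by the relevant elements.
-/

namespace Pool.Agent.Work.MP_3bf421_lc_LU

open Finset

variable {n : ℕ} {α : Type*} [LinearOrder α]

theorem sum_powerset_pow (P : Finset (Fin n)) (θ : ℝ) :
    ∑ J ∈ P.powerset.filter (fun J => J.Nonempty), θ ^ J.card = (1 + θ) ^ P.card - 1 := by
  classical
  have h1 : ∑ J ∈ P.powerset, θ ^ J.card = (1 + θ) ^ P.card := by
    have h := Finset.sum_pow_mul_eq_add_pow θ 1 P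
    simp only [one_pow, mul_one] at h
    rw [h, add_comm]
  have h2 : P.powerset = insert ∅ (P.powerset.filter (fun J => J.Nonempty)) := by
    ext J
    rw [mem_insert, mem_filter, mem_powerset]
    constructor
    · intro h
      rcases J.eq_empty_or_nonempty with h3 | h3
      · exact Or.inl h3
      · exact Or.inr ⟨h, h3⟩
    · rintro (h | h)
      · rw [h]; exact empty_subset _
      · exact h.1
  rw [h2, sum_insert (by simp)] at h1
  simp only [card_empty, pow_zero] at h1
  linarith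

open Classical in
theorem blockA (M : Matroid (Fin n)) (hE : M.E = Set.univ) (κ : Fin n → α)
    (hκ : Function.Injective κ) (e : Fin n) (T1 T0 R B k : ℕ) (hT : T1 ≤ T0) (hTn : T0 < n)
    {lam θ : ℝ} (hlam : 1 ≤ lam) (hθ : 0 ≤ θ)
    (hR : ∀ I : Finset (Fin n), M.Indep (I : Set (Fin n)) → I.card ≤ R)
    (cont : Finset (Fin n) → Finset (Fin n)) (f : Finset (Fin n) → ℕ)
    (hc1 : ∀ J : Finset (Fin n), ∀ I : Finset (Fin n), I ⊆ cont J → M.Indep (I : Set (Fin n)) →
      I.card ≤ f J)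
    (hc2 : ∀ D : Finset (Fin n), M.IsCircuit (D : Set (Fin n)) → e ∈ D →
      ∃ J : Finset (Fin n), J.Nonempty ∧ J ⊆ D.erase e ∧ D.erase e ⊆ cont J ∧
        k * J.card ≤ f J ∧ (D.erase e).card = f J)
    (hθ2 : ∀ m j : ℕ, k * j ≤ m →
      PB (T0 - T1) ((lam - 1) * m) (n - T1 - 1) / lam ^ m ≤ θ ^ j) :
    ((univ.filter (fun σ : Equiv.Perm (Fin n) => T0 ≤ (σ.symm e).val ∧
      e ∈ M.closure (Cset M κ {e} T0 σ : Set (Fin n)))).card : ℝ)
    ≤ (((n - 1).factorial : ℝ) * ((n - T0 : ℕ) : ℝ)) *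
      ((R : ℝ) * ((n - 1 - T1 : ℕ) : ℝ) / (((T1 : ℝ) + 1) * ((B : ℝ) + 1))
        + ((1 + θ) ^ B - 1)) := by
  set c1 : ℝ := (T1.factorial : ℝ) * ((n - T1 - 1).factorial : ℝ) * ((n - T0 : ℕ) : ℝ) with hc1d
  have hc10 : 0 ≤ c1 := by positivity
  set Ss := powersetCard T1 (univ.erase e : Finset (Fin n)) with hSs
  have hθB : (0 : ℝ) ≤ (1 + θ) ^ B - 1 := by
    have : (1 : ℝ) ≤ (1 + θ) ^ B := one_le_pow₀ (by linarith)
    linarith
  set N : Finset (Fin n) → ℝ := fun S => ((univ.filter (fun σ : Equiv.Perm (Fin n) =>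
    pre σ S.card = S ∧ T0 ≤ (σ.symm e).val ∧
      e ∈ M.closure (Cset M κ {e} T0 σ : Set (Fin n)))).card : ℝ) with hN
  -- splitting according to the first block
  have hsplit : ((univ.filter (fun σ : Equiv.Perm (Fin n) => T0 ≤ (σ.symm e).val ∧
      e ∈ M.closure (Cset M κ {e} T0 σ : Set (Fin n)))).card : ℝ) ≤ ∑ S ∈ Ss, N S := by
    rw [hN]
    rw [← Nat.cast_sum]
    have h1 : univ.filter (fun σ : Equiv.Perm (Fin n) => T0 ≤ (σ.symm e).val ∧
      e ∈ M.closure (Cset M κ {e} T0 σ : Set (Fin n))) ⊆ Ss.biUnion (fun S =>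
        univ.filter (fun σ : Equiv.Perm (Fin n) =>
        pre σ S.card = S ∧ T0 ≤ (σ.symm e).val ∧
          e ∈ M.closure (Cset M κ {e} T0 σ : Set (Fin n)))) := by
      intro σ hσ
      rw [mem_filter] at hσ
      rw [mem_biUnion]
      have hcard : (pre σ T1).card = T1 := card_pre σ (by omega)
      refine ⟨pre σ T1, ?_, ?_⟩
      · rw [hSs, mem_powersetCard]
        refine ⟨fun x hx => mem_erase.2 ⟨?_, mem_univ _⟩, hcard⟩
        rintro rfl
        rw [mem_pre] at hx
        omega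
      · rw [mem_filter, hcard]
        exact ⟨mem_univ _, rfl, hσ.2⟩
    exact_mod_cast (card_le_card h1).trans card_biUnion_le
  have hNS : ∀ S ∈ Ss, N S ≤ c1 * ((if B < (P1 M κ e S).card then 1 else 0)
      + ((1 + θ) ^ B - 1)) := by
    intro S hS
    rw [hSs, mem_powersetCard] at hS
    have heS : e ∉ S := fun h => (mem_erase.1 (hS.1 h)).1 rfl
    have hcard := hS.2
    have hST : S.card ≤ T0 := by omega
    by_cases hP : B < (P1 M κ e S).card
    · rw [if_pos hP]
      have h1 : N S ≤ c1 := by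
        have h2 := count_first e S heS T0 hST hTn
        rw [hcard] at h2
        refine le_trans ?_ h2
        rw [hN]
        simp only
        rw [hcard]
        exact_mod_cast card_le_card (by
          intro σ hσ
          rw [mem_filter] at hσ ⊢
          exact ⟨hσ.1, hσ.2.1, hσ.2.2.1⟩)
      nlinarith [mul_nonneg hc10 hθB]
    · rw [if_neg hP, zero_add]
      push Not at hP
      have h1 : N S ≤ ∑ J ∈ (P1 M κ e S).powerset.filter (fun J => J.Nonempty),
          c1 * θ ^ J.card := by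
        have h2 : univ.filter (fun σ : Equiv.Perm (Fin n) => pre σ S.card = S ∧
            T0 ≤ (σ.symm e).val ∧ e ∈ M.closure (Cset M κ {e} T0 σ : Set (Fin n)))
            ⊆ ((P1 M κ e S).powerset.filter (fun J => J.Nonempty ∧ k * J.card ≤ f J)).biUnion
              (fun J => univ.filter (fun σ : Equiv.Perm (Fin n) => pre σ S.card = S ∧
                T0 ≤ (σ.symm e).val ∧ f J ≤ (Cset M κ (insert e S) T0 σ ∩ cont J).card)) := by
          intro σ hσ
          rw [mem_filter] at hσ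
          obtain ⟨-, hσ1, hσ2, hσ3⟩ := hσ
          have heC : e ∉ Cset M κ {e} T0 σ := by
            intro h
            unfold Cset at h
            rw [mem_filter] at h
            exact h.2.1 (mem_singleton_self e)
          obtain ⟨D, hD, heD, hDC⟩ := exists_circuit M e _ heC hσ3
          obtain ⟨J, hJ1, hJ2, hJ3, hJ4, hJ5⟩ := hc2 D hD heD
          rw [mem_biUnion]
          refine ⟨J, ?_, ?_⟩
          · rw [mem_filter, mem_powerset]
            exact ⟨(hJ2.trans hDC).trans (Cset_sub_P1 M κ e S heS T0 σ hST hσ1), hJ1, hJ4⟩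
          · rw [mem_filter]
            refine ⟨mem_univ _, hσ1, hσ2, ?_⟩
            rw [← hJ5]
            apply card_le_card
            intro x hx
            rw [mem_inter]
            exact ⟨Cset_mono M κ e S T0 σ hST hσ1 (hDC hx), hJ3 hx⟩
        have h3 : N S ≤ ∑ J ∈ (P1 M κ e S).powerset.filter
            (fun J => J.Nonempty ∧ k * J.card ≤ f J),
            ((univ.filter (fun σ : Equiv.Perm (Fin n) => pre σ S.card = S ∧
                T0 ≤ (σ.symm e).val ∧
                f J ≤ (Cset M κ (insert e S) T0 σ ∩ cont J).card)).card : ℝ) := by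
          rw [hN, ← Nat.cast_sum]
          simp only
          exact_mod_cast (card_le_card h2).trans card_biUnion_le
        refine h3.trans ?_
        have h4 : ∀ J ∈ (P1 M κ e S).powerset.filter (fun J => J.Nonempty ∧ k * J.card ≤ f J),
            ((univ.filter (fun σ : Equiv.Perm (Fin n) => pre σ S.card = S ∧
                T0 ≤ (σ.symm e).val ∧
                f J ≤ (Cset M κ (insert e S) T0 σ ∩ cont J).card)).card : ℝ)
            ≤ c1 * θ ^ J.card := by
          intro J hJ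
          rw [mem_filter] at hJ
          have h5 := count_cond M hE κ hκ e S (cont J) heS T0 (f J) (f J) hST hTn hlam (hc1 J)
          rw [hcard] at h5 ⊢
          exact h5.trans (mul_le_mul_of_nonneg_left (hθ2 (f J) J.card hJ.2.2) hc10)
        refine (sum_le_sum h4).trans ?_
        apply sum_le_sum_of_subset_of_nonneg
        · intro J hJ
          rw [mem_filter] at hJ ⊢
          exact ⟨hJ.1, hJ.2.1⟩
        · intro J _ _
          positivity
      rw [← mul_sum, sum_powerset_pow] at h1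
      refine h1.trans (mul_le_mul_of_nonneg_left ?_ hc10)
      have : (1 + θ) ^ (P1 M κ e S).card ≤ (1 + θ) ^ B := pow_le_pow_right₀ (by linarith) hP
      linarith
  have hcardSs : (Ss.card : ℝ) = ((n - 1).choose T1 : ℝ) := by
    rw [hSs, card_powersetCard, card_erase_of_mem (mem_univ e), card_univ, Fintype.card_fin]
  have hmark : ((Ss.filter (fun S => B < (P1 M κ e S).card)).card : ℝ) * ((B : ℝ) + 1)
      ≤ (R : ℝ) * ((n - 1).choose (T1 + 1) : ℝ) := by
    have h1 := sum_P1 M hE κ hκ e T1 R hR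
    have h2 : (Ss.filter (fun S => B < (P1 M κ e S).card)).card * (B + 1)
        ≤ ∑ S ∈ Ss, (P1 M κ e S).card := by
      rw [← smul_eq_mul, ← sum_const]
      refine (sum_le_sum (fun S hS => ?_)).trans
        (sum_le_sum_of_subset (filter_subset (fun S => B < (P1 M κ e S).card) Ss))
      rw [mem_filter] at hS
      omega
    exact_mod_cast h2.trans h1
  have hfac : ((n - 1).choose T1 : ℝ) * c1 = ((n - 1).factorial : ℝ) * ((n - T0 : ℕ) : ℝ) := by
    have h1 := Nat.choose_mul_factorial_mul_factorial (n := n - 1) (k := T1) (by omega)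
    rw [hc1d, show n - T1 - 1 = n - 1 - T1 by omega, ← h1]
    push_cast
    ring
  have hch : ((n - 1).choose (T1 + 1) : ℝ) * ((T1 : ℝ) + 1)
      = ((n - 1).choose T1 : ℝ) * ((n - 1 - T1 : ℕ) : ℝ) := by
    have h1 := Nat.choose_succ_right_eq (n - 1) T1
    exact_mod_cast h1
  have hsum : ∑ S ∈ Ss, N S ≤ c1 * ((Ss.filter (fun S => B < (P1 M κ e S).card)).card : ℝ)
      + c1 * ((Ss.card : ℝ) * ((1 + θ) ^ B - 1)) := by
    refine (sum_le_sum hNS).trans (le_of_eq ?_)
    rw [← mul_sum, sum_add_distrib, ← sum_filter, sum_const, sum_const, nsmul_eq_mul,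
      nsmul_eq_mul, mul_one]
    ring
  refine hsplit.trans (hsum.trans ?_)
  have hB1 : (0 : ℝ) < (B : ℝ) + 1 := by positivity
  have hT1 : (0 : ℝ) < (T1 : ℝ) + 1 := by positivity
  have h1 : c1 * ((Ss.filter (fun S => B < (P1 M κ e S).card)).card : ℝ)
      ≤ (((n - 1).factorial : ℝ) * ((n - T0 : ℕ) : ℝ)) *
      ((R : ℝ) * ((n - 1 - T1 : ℕ) : ℝ) / (((T1 : ℝ) + 1) * ((B : ℝ) + 1))) := by
    rw [mul_div_assoc', le_div_iff₀ (by positivity)]
    calc _ = (c1 * ((T1 : ℝ) + 1)) *
          (((Ss.filter (fun S => B < (P1 M κ e S).card)).card : ℝ) * ((B : ℝ) + 1)) := by ring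
      _ ≤ (c1 * ((T1 : ℝ) + 1)) * ((R : ℝ) * ((n - 1).choose (T1 + 1) : ℝ)) :=
          mul_le_mul_of_nonneg_left hmark (by positivity)
      _ = c1 * (R : ℝ) * (((n - 1).choose (T1 + 1) : ℝ) * ((T1 : ℝ) + 1)) := by ring
      _ = (((n - 1).choose T1 : ℝ) * c1) * ((R : ℝ) * ((n - 1 - T1 : ℕ) : ℝ)) := by
          rw [hch]; ring
      _ = _ := by rw [hfac]
  have h2 : c1 * ((Ss.card : ℝ) * ((1 + θ) ^ B - 1))
      = (((n - 1).factorial : ℝ) * ((n - T0 : ℕ) : ℝ)) * ((1 + θ) ^ B - 1) := by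
    rw [hcardSs, ← hfac]; ring
  rw [h2]
  calc _ ≤ (((n - 1).factorial : ℝ) * ((n - T0 : ℕ) : ℝ)) *
      ((R : ℝ) * ((n - 1 - T1 : ℕ) : ℝ) / (((T1 : ℝ) + 1) * ((B : ℝ) + 1)))
      + (((n - 1).factorial : ℝ) * ((n - T0 : ℕ) : ℝ)) * ((1 + θ) ^ B - 1) := by linarith
    _ = _ := by ring

open Classical in
/-- from the blocked orders to the good orders -/
theorem good_count (M : Matroid (Fin n)) (κ : Fin n → α) (e : Fin n) (T0 : ℕ) (hTn : T0 < n)
    {x : ℝ} (hx : ((univ.filter (fun σ : Equiv.Perm (Fin n) => T0 ≤ (σ.symm e).val ∧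
      e ∈ M.closure (Cset M κ {e} T0 σ : Set (Fin n)))).card : ℝ)
      ≤ (((n - 1).factorial : ℝ) * ((n - T0 : ℕ) : ℝ)) * x) :
    (((n - T0 : ℕ) : ℝ) / n * (1 - x)) * (n.factorial : ℝ)
    ≤ ((univ.filter (fun σ : Equiv.Perm (Fin n) => T0 ≤ (σ.symm e).val ∧
      e ∉ M.closure (Cset M κ {e} T0 σ : Set (Fin n)))).card : ℝ) := by
  have h1 := count_pos e T0 hTn
  have h2 : ((univ.filter (fun σ : Equiv.Perm (Fin n) => T0 ≤ (σ.symm e).val)).card : ℝ)
      = ((univ.filter (fun σ : Equiv.Perm (Fin n) => T0 ≤ (σ.symm e).val ∧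
      e ∈ M.closure (Cset M κ {e} T0 σ : Set (Fin n)))).card : ℝ)
      + ((univ.filter (fun σ : Equiv.Perm (Fin n) => T0 ≤ (σ.symm e).val ∧
      e ∉ M.closure (Cset M κ {e} T0 σ : Set (Fin n)))).card : ℝ) := by
    rw [← filter_filter, ← filter_filter]
    exact_mod_cast (card_filter_add_card_filter_not
      (s := univ.filter (fun σ : Equiv.Perm (Fin n) => T0 ≤ (σ.symm e).val)) _).symm
  have hn : (n : ℝ) ≠ 0 := by
    have : n ≠ 0 := by omega
    exact_mod_cast this
  have h3 : (n.factorial : ℝ) = n * ((n - 1).factorial : ℝ) := by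
    exact_mod_cast (Nat.mul_factorial_pred (by omega)).symm
  have h4 : (((n - T0 : ℕ) : ℝ) / n * (1 - x)) * (n.factorial : ℝ)
      = (((n - 1).factorial : ℝ) * ((n - T0 : ℕ) : ℝ)) * (1 - x) := by
    rw [h3]
    field_simp
  rw [h4]
  linarith

end Pool.Agent.Work.MP_3bf421_lc_LU
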