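import Pool.Agent.Work.MP_3bf421_lc_LU.Greedy

set_option autoImplicit false

/-!
Counting the orders in which an element of the optimum is blocked.
-/

namespace Pool.Agent.Work.MP_3bf421_lc_LU

open Finset

variable {n : ℕ} {α : Type*} [LinearOrder α]

open Classical in
theorem count_cond (M : Matroid (Fin n)) (hE : M.E = Set.univ) (κ : Fin n → α)
    (hκ : Function.Injective κ) (e : Fin n) (S G : Finset (Fin n)) (heS : e ∉ S) (T0 ρ f : ℕ)
    (hST : S.card ≤ T0) (hTn : T0 < n) {lam : ℝ} (hlam : 1 ≤ lam)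
    (hG : ∀ I : Finset (Fin n), I ⊆ G → M.Indep (I : Set (Fin n)) → I.card ≤ ρ) :
    ((univ.filter (fun σ : Equiv.Perm (Fin n) => pre σ S.card = S ∧ T0 ≤ (σ.symm e).val ∧
      f ≤ (Cset M κ (insert e S) T0 σ ∩ G).card)).card : ℝ)
    ≤ ((S.card.factorial : ℝ) * ((n - S.card - 1).factorial : ℝ) * ((n - T0 : ℕ) : ℝ))
      * (PB (T0 - S.card) ((lam - 1) * ρ) (n - S.card - 1) / lam ^ f) := by
  have h1 := moment M hE κ hκ e S G heS T0 ρ hST hTn hlam hG
  have hpow : (0 : ℝ) < lam ^ f := by positivity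
  rw [mul_div_assoc', le_div_iff₀ hpow]
  refine le_trans ?_ h1
  rw [← nsmul_eq_mul, ← sum_const, sum_filter]
  refine sum_le_sum fun σ _ => ?_
  by_cases h : pre σ S.card = S ∧ T0 ≤ (σ.symm e).val
  · rw [if_pos h]
    by_cases h2 : f ≤ (Cset M κ (insert e S) T0 σ ∩ G).card
    · rw [if_pos ⟨h.1, h.2, h2⟩]
      exact pow_le_pow_right₀ hlam h2
    · rw [if_neg (fun h3 => h2 h3.2.2)]
      positivity
  · rw [if_neg h, if_neg (fun h3 => h ⟨h3.1, h3.2.1⟩)]

open Classical in
theorem count_first (e : Fin n) (S : Finset (Fin n)) (heS : e ∉ S) (T0 : ℕ)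
    (hST : S.card ≤ T0) (hTn : T0 < n) :
    ((univ.filter (fun σ : Equiv.Perm (Fin n) => pre σ S.card = S ∧
      T0 ≤ (σ.symm e).val)).card : ℝ)
    ≤ (S.card.factorial : ℝ) * ((n - S.card - 1).factorial : ℝ) * ((n - T0 : ℕ) : ℝ) := by
  have h1 := count_cond (α := Fin n) (Matroid.loopyOn (Set.univ : Set (Fin n))) rfl
    id Function.injective_id e S ∅ heS T0 0 0 hST hTn (lam := 1) le_rfl (by
      intro I hI _
      rw [subset_empty.1 hI]
      simp)
  simp only [zero_le, and_true, pow_zero, div_one, sub_self, zero_mul] at h1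
  have h2 : PB (T0 - S.card) 0 (n - S.card - 1) = 1 := by
    unfold PB
    simp
  rwa [h2, mul_one] at h1

open Classical in
/-- the number of orders with `e` at a time `≥ T0` -/
theorem count_pos (e : Fin n) (T0 : ℕ) (hTn : T0 < n) :
    ((univ.filter (fun σ : Equiv.Perm (Fin n) => T0 ≤ (σ.symm e).val)).card : ℝ)
    = ((n - 1).factorial : ℝ) * ((n - T0 : ℕ) : ℝ) := by
  have hup : ∀ e' : Fin n, ((univ.filter (fun σ : Equiv.Perm (Fin n) =>
      T0 ≤ (σ.symm e').val)).card : ℝ) ≤ ((n - 1).factorial : ℝ) * ((n - T0 : ℕ) : ℝ) := by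
    intro e'
    have h1 := count_first e' ∅ (notMem_empty e') T0 (by simp) hTn
    simp only [card_empty, pre_zero, true_and, Nat.factorial_zero, Nat.cast_one, one_mul,
      Nat.sub_zero] at h1
    exact h1
  have hsum : ∑ e' : Fin n, ((univ.filter (fun σ : Equiv.Perm (Fin n) =>
      T0 ≤ (σ.symm e').val)).card : ℝ)
      = ∑ _e' : Fin n, ((n - 1).factorial : ℝ) * ((n - T0 : ℕ) : ℝ) := by
    have h2 : ∀ e' : Fin n, ((univ.filter (fun σ : Equiv.Perm (Fin n) =>
        T0 ≤ (σ.symm e').val)).card : ℝ)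
        = ∑ σ : Equiv.Perm (Fin n), (if T0 ≤ (σ.symm e').val then (1 : ℝ) else 0) := by
      intro e'
      rw [← sum_filter, sum_const, nsmul_eq_mul, mul_one]
    rw [sum_congr rfl (fun e' _ => h2 e'), sum_comm]
    have h3 : ∀ σ : Equiv.Perm (Fin n), ∑ e' : Fin n,
        (if T0 ≤ (σ.symm e').val then (1 : ℝ) else 0) = ((n - T0 : ℕ) : ℝ) := by
      intro σ
      rw [← sum_filter, sum_const, nsmul_eq_mul, mul_one]
      have h4 : (univ.filter (fun e' : Fin n => T0 ≤ (σ.symm e').val)) = (pre σ T0)ᶜ := by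
        ext x
        rw [mem_compl, mem_pre, mem_filter]
        simp
      rw [h4, card_compl, card_pre σ hTn.le, Fintype.card_fin]
    rw [sum_congr rfl (fun σ _ => h3 σ), sum_const, sum_const, card_univ, card_univ,
      Fintype.card_perm, Fintype.card_fin, nsmul_eq_mul, nsmul_eq_mul, ← mul_assoc]
    congr 1
    rw [← Nat.cast_mul, Nat.mul_factorial_pred (by omega)]
  have h5 := (sum_eq_sum_iff_of_le (fun e' _ => hup e')).1 hsum e (mem_univ e)
  exact h5

open Classical in
/-- the elements that may become candidates, given the first block -/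
noncomputable def P1 (M : Matroid (Fin n)) (κ : Fin n → α) (e : Fin n) (S : Finset (Fin n)) :
    Finset (Fin n) :=
  univ.filter (fun x => x ≠ e ∧ x ∉ S ∧ x ∉ M.closure {y | y ∈ S ∧ κ x < κ y})

open Classical in
theorem sum_P1 (M : Matroid (Fin n)) (hE : M.E = Set.univ) (κ : Fin n → α)
    (hκ : Function.Injective κ) (e : Fin n) (T1 R : ℕ)
    (hR : ∀ I : Finset (Fin n), M.Indep (I : Set (Fin n)) → I.card ≤ R) :
    ∑ S ∈ powersetCard T1 (univ.erase e), (P1 M κ e S).card
      ≤ R * (n - 1).choose (T1 + 1) := by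
  have h1 : ∑ A ∈ powersetCard (T1 + 1) (univ.erase e),
      (A.filter (fun x => x ∉ M.closure {y | y ∈ A ∧ κ x < κ y})).card
      ≤ R * (n - 1).choose (T1 + 1) := by
    calc _ ≤ ∑ _A ∈ powersetCard (T1 + 1) (univ.erase e : Finset (Fin n)), R := by
          refine sum_le_sum fun A _ => hR _ ?_
          have h := greedy_indep M hE κ hκ (fun x => x ∈ A)
          rwa [coe_filter]
      _ = _ := by
          rw [sum_const, card_powersetCard, card_erase_of_mem (mem_univ e), card_univ,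
            Fintype.card_fin, smul_eq_mul, mul_comm]
  refine le_trans ?_ h1
  rw [← card_sigma, ← card_sigma]
  refine card_le_card_of_injOn (fun q => ⟨insert q.2 q.1, q.2⟩) ?_ ?_
  · rintro ⟨S, x⟩ hq
    rw [mem_coe, mem_sigma, mem_powersetCard] at hq
    obtain ⟨⟨hS, hSc⟩, hx⟩ := hq
    simp only at hS hSc hx
    unfold P1 at hx
    rw [mem_filter] at hx
    rw [mem_coe, mem_sigma, mem_powersetCard, mem_filter]
    simp only
    refine ⟨⟨?_, ?_⟩, mem_insert_self _ _, ?_⟩
    · intro y hy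
      rcases mem_insert.1 hy with rfl | hy
      · exact mem_erase.2 ⟨hx.2.1, mem_univ _⟩
      · exact hS hy
    · rw [card_insert_of_notMem hx.2.2.1, hSc]
    · have h2 : {y | y ∈ insert x S ∧ κ x < κ y} = {y | y ∈ S ∧ κ x < κ y} := by
        ext y
        constructor
        · rintro ⟨h3, h4⟩
          rcases mem_insert.1 h3 with rfl | h3
          · exact absurd h4 (lt_irrefl _)
          · exact ⟨h3, h4⟩
        · rintro ⟨h3, h4⟩
          exact ⟨mem_insert_of_mem h3, h4⟩
      rw [h2]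
      exact hx.2.2.2
  · rintro ⟨S, x⟩ hq ⟨S', x'⟩ hq' heq
    rw [mem_coe, mem_sigma] at hq hq'
    simp only at hq hq' heq
    have hx2 := hq.2
    have hx2' := hq'.2
    unfold P1 at hx2 hx2'
    rw [mem_filter] at hx2 hx2'
    rw [Sigma.mk.injEq] at heq
    obtain ⟨h3, h4⟩ := heq
    have h5 : x = x' := eq_of_heq h4
    subst h5
    have h6 : S = S' := by
      rw [← erase_insert hx2.2.2.1, h3, erase_insert hx2'.2.2.1]
    subst h6
    rfl

theorem Cset_mono (M : Matroid (Fin n)) (κ : Fin n → α) (e : Fin n) (S : Finset (Fin n))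
    (T0 : ℕ) (σ : Equiv.Perm (Fin n)) (hST : S.card ≤ T0) (hσ : pre σ S.card = S) :
    Cset M κ {e} T0 σ ⊆ Cset M κ (insert e S) T0 σ := by
  classical
  intro x hx
  unfold Cset at hx ⊢
  rw [mem_filter] at hx ⊢
  obtain ⟨-, h1, h2, h3⟩ := hx
  refine ⟨mem_univ _, ?_, h2, ?_⟩
  · rw [mem_insert, not_or]
    refine ⟨fun h => h1 (mem_singleton.2 h), ?_⟩
    rw [← hσ, mem_pre]
    omega
  · unfold cand at h3 ⊢
    intro h4
    apply h3
    refine M.closure_subset_closure ?_ h4
    rintro y ⟨a, b, c⟩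
    exact ⟨a, fun h => b (mem_insert.2 (Or.inl (mem_singleton.1 h))), c⟩

theorem Cset_sub_P1 (M : Matroid (Fin n)) (κ : Fin n → α) (e : Fin n) (S : Finset (Fin n))
    (heS : e ∉ S) (T0 : ℕ) (σ : Equiv.Perm (Fin n)) (hST : S.card ≤ T0)
    (hσ : pre σ S.card = S) : Cset M κ {e} T0 σ ⊆ P1 M κ e S := by
  classical
  intro x hx
  unfold Cset at hx
  rw [mem_filter] at hx
  obtain ⟨-, h1, h2, h3⟩ := hx
  unfold P1
  rw [mem_filter]
  refine ⟨mem_univ _, fun h => h1 (mem_singleton.2 h), ?_, ?_⟩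
  · rw [← hσ, mem_pre]
    omega
  · unfold cand at h3
    intro h4
    apply h3
    refine M.closure_subset_closure ?_ h4
    rintro y ⟨a, b⟩
    refine ⟨?_, ?_, b⟩
    · have : y ∈ pre σ S.card := by rw [hσ]; exact a
      exact pre_mono σ (by omega) this
    · intro h
      exact heS ((mem_singleton.1 h) ▸ a)

/-- an element spanned by the candidates lies in a circuit of candidates -/
theorem exists_circuit (M : Matroid (Fin n)) (e : Fin n) (C : Finset (Fin n)) (heC : e ∉ C)
    (h : e ∈ M.closure (C : Set (Fin n))) :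
    ∃ D : Finset (Fin n), M.IsCircuit (D : Set (Fin n)) ∧ e ∈ D ∧ D.erase e ⊆ C := by
  classical
  rw [M.mem_closure_iff_exists_isCircuit (by simpa using heC)] at h
  obtain ⟨D, hD, hcirc, heD⟩ := h
  refine ⟨D.toFinite.toFinset, by rw [Set.Finite.coe_toFinset]; exact hcirc,
    (Set.Finite.mem_toFinset _).2 heD, ?_⟩
  intro x hx
  rw [mem_erase, Set.Finite.mem_toFinset] at hx
  rcases hD hx.2 with h1 | h1
  · exact absurd h1 hx.1
  · exact h1

end Pool.Agent.Work.MP_3bf421_lc_LU
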