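import Pool.Agent.Work.MP_3bf421_lc_LU.Sum

set_option autoImplicit false

/-!
Sums over the orders whose first block is a given set.
-/

namespace Pool.Agent.Work.MP_3bf421_lc_LU

open Finset

variable {n : ℕ}

open Classical in
/-- the auxiliary weights -/
noncomputable def hc (S : Finset (Fin n)) (h : Finset (Fin n) → Fin n → ℝ) (A : Finset (Fin n))
    (x : Fin n) : ℝ :=
  if A.card ≤ S.card then (if x ∈ S then 1 else 0) else (if x ∈ S then 0 else h A x)

open Classical in
/-- the auxiliary supersolution -/
noncomputable def Uc (S : Finset (Fin n)) (U : Finset (Fin n) → ℝ) (A : Finset (Fin n)) : ℝ :=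
  if A.card < S.card then (if A ⊆ S then (A.card.factorial : ℝ) else 0)
    else (if S ⊆ A then (S.card.factorial : ℝ) * U A else 0)

theorem wprod_eq_full (h : Finset (Fin n) → Fin n → ℝ) (σ : Equiv.Perm (Fin n)) :
    wprod h σ n = ∏ i : Fin n, h (pre σ (i.val + 1)) (σ i) := by
  unfold wprod
  refine prod_congr ?_ fun _ _ => rfl
  ext i; simp

open Classical in
theorem hc_prod (S : Finset (Fin n)) (h : Finset (Fin n) → Fin n → ℝ) (σ : Equiv.Perm (Fin n)) :
    wprod (hc S h) σ n = if pre σ S.card = S then
      ∏ i ∈ univ.filter (fun i : Fin n => S.card ≤ i.val), h (pre σ (i.val + 1)) (σ i) else 0 := by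
  have hSn : S.card ≤ n := by simpa using card_le_univ S
  rw [wprod_eq_full]
  have hcardpre : ∀ i : Fin n, (pre σ (i.val + 1)).card = i.val + 1 := fun i =>
    card_pre σ (by omega)
  by_cases hc1 : pre σ S.card = S
  · rw [if_pos hc1, prod_filter]
    refine prod_congr rfl fun i _ => ?_
    unfold hc
    rw [hcardpre i]
    by_cases hi : S.card ≤ i.val
    · rw [if_neg (by omega), if_pos hi, if_neg]
      rw [← hc1, mem_pre]
      simpa using hi
    · rw [if_pos (by omega), if_neg hi, if_pos]
      rw [← hc1, mem_pre]
      simpa using hi
  · rw [if_neg hc1]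
    -- some element of the first block is not in S
    have hcard : (pre σ S.card).card = S.card := card_pre σ hSn
    have hex : ∃ x ∈ pre σ S.card, x ∉ S := by
      by_contra hcon
      push Not at hcon
      exact hc1 (eq_of_subset_of_card_le hcon (by rw [hcard]))
    obtain ⟨x, hx, hxS⟩ := hex
    rw [mem_pre] at hx
    refine prod_eq_zero (mem_univ (σ.symm x)) ?_
    unfold hc
    rw [hcardpre, if_pos (by omega), Equiv.apply_symm_apply, if_neg hxS]

open Classical in
theorem order_sum_cond (S : Finset (Fin n)) (h : Finset (Fin n) → Fin n → ℝ)
    (hh : ∀ A x, 0 ≤ h A x) (U : Finset (Fin n) → ℝ) (hU0 : 1 ≤ U S)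
    (hU : ∀ A : Finset (Fin n), S ⊂ A → ∑ x ∈ A \ S, h A x * U (A.erase x) ≤ U A) :
    ∑ σ : Equiv.Perm (Fin n), (if pre σ S.card = S then
      ∏ i ∈ univ.filter (fun i : Fin n => S.card ≤ i.val), h (pre σ (i.val + 1)) (σ i) else 0)
      ≤ (S.card.factorial : ℝ) * U univ := by
  have h1 := order_sum_le (hc S h) (by
    intro A x
    unfold hc
    split_ifs
    · norm_num
    · norm_num
    · norm_num
    · exact hh A x) (Uc S U) (by
    unfold Uc
    by_cases hS : (∅ : Finset (Fin n)).card < S.card
    · rw [if_pos hS, if_pos (empty_subset _)]
      simp
    · rw [if_neg hS]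
      have : S = ∅ := by
        rw [← card_eq_zero]
        simpa using hS
      subst this
      simpa using hU0) (by
    intro A hA
    by_cases h1 : A.card < S.card
    · -- small sets
      by_cases h2 : A ⊆ S
      · have hval : Uc S U A = (A.card.factorial : ℝ) := by
          unfold Uc; rw [if_pos h1, if_pos h2]
        rw [hval]
        have : ∀ x ∈ A, hc S h A x * Uc S U (A.erase x) = ((A.card - 1).factorial : ℝ) := by
          intro x hx
          unfold hc Uc
          have hce : (A.erase x).card = A.card - 1 := card_erase_of_mem hx
          rw [if_pos h1.le, if_pos (h2 hx), hce, if_pos (by omega),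
            if_pos ((erase_subset x A).trans h2), one_mul]
        rw [sum_congr rfl this, sum_const, nsmul_eq_mul]
        have hpos := card_pos.2 hA
        apply le_of_eq
        rw [← Nat.cast_mul, Nat.mul_factorial_pred hpos.ne']
      · have hval : Uc S U A = 0 := by
          unfold Uc; rw [if_pos h1, if_neg h2]
        rw [hval]
        apply le_of_eq
        refine sum_eq_zero fun x hx => ?_
        unfold hc Uc
        have hce : (A.erase x).card = A.card - 1 := card_erase_of_mem hx
        rw [if_pos h1.le, hce, if_pos (by omega : A.card - 1 < S.card)]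
        by_cases hxS : x ∈ S
        · rw [if_pos hxS, if_neg (fun h3 => h2 (by
            intro y hy
            by_cases hyx : y = x
            · rw [hyx]; exact hxS
            · exact h3 (mem_erase.2 ⟨hyx, hy⟩))), mul_zero]
        · rw [if_neg hxS, zero_mul]
    · by_cases h2 : S ⊆ A
      · have hval : Uc S U A = (S.card.factorial : ℝ) * U A := by
          unfold Uc; rw [if_neg h1, if_pos h2]
        rw [hval]
        rcases eq_or_ne S A with rfl | hne
        · -- A = S
          have hpos := card_pos.2 hA
          have : ∀ x ∈ S, hc S h S x * Uc S U (S.erase x) = ((S.card - 1).factorial : ℝ) := by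
            intro x hx
            unfold hc Uc
            have hce : (S.erase x).card = S.card - 1 := card_erase_of_mem hx
            rw [if_pos le_rfl, if_pos hx, hce, if_pos (by omega),
              if_pos (erase_subset x S), one_mul]
          rw [sum_congr rfl this, sum_const, nsmul_eq_mul, ← Nat.cast_mul,
            Nat.mul_factorial_pred hpos.ne']
          have h0 : (0 : ℝ) ≤ S.card.factorial := Nat.cast_nonneg _
          nlinarith
        · have hss : S ⊂ A := lt_of_le_of_ne h2 hne
          have hlt := card_lt_card hss
          have h3 : ∑ x ∈ A, hc S h A x * Uc S U (A.erase x)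
              = ∑ x ∈ A \ S, (S.card.factorial : ℝ) * (h A x * U (A.erase x)) := by
            rw [← sum_subset (sdiff_subset : A \ S ⊆ A)]
            · refine sum_congr rfl fun x hx => ?_
              rw [mem_sdiff] at hx
              unfold hc Uc
              have hce : (A.erase x).card = A.card - 1 := card_erase_of_mem hx.1
              have hsub : S ⊆ A.erase x := fun y hy =>
                mem_erase.2 ⟨fun h4 => hx.2 (h4 ▸ hy), h2 hy⟩
              rw [if_neg (by omega), if_neg hx.2, if_neg (by omega), if_pos hsub]
              ring
            · intro x hx hx2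
              have hxS : x ∈ S := by
                by_contra hcon
                exact hx2 (mem_sdiff.2 ⟨hx, hcon⟩)
              unfold hc
              rw [if_neg (by omega), if_pos hxS, zero_mul]
          rw [h3, ← mul_sum]
          exact mul_le_mul_of_nonneg_left (hU A hss) (Nat.cast_nonneg _)
      · have hval : Uc S U A = 0 := by
          unfold Uc; rw [if_neg h1, if_neg h2]
        rw [hval]
        apply le_of_eq
        refine sum_eq_zero fun x hx => ?_
        have hce : (A.erase x).card = A.card - 1 := card_erase_of_mem hx
        unfold hc
        by_cases h4 : A.card ≤ S.card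
        · -- |A| = |S|, A ≠ S
          rw [if_pos h4]
          by_cases hxS : x ∈ S
          · unfold Uc
            rw [if_pos hxS, if_pos (by
              have := card_pos.2 hA
              omega : (A.erase x).card < S.card), if_neg, mul_zero]
            intro h5
            apply h2
            have h6 : A ⊆ S := by
              intro y hy
              by_cases hyx : y = x
              · rw [hyx]; exact hxS
              · exact h5 (mem_erase.2 ⟨hyx, hy⟩)
            rw [eq_of_subset_of_card_le h6 (by omega)]
          · rw [if_neg hxS, zero_mul]
        · rw [if_neg h4]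
          by_cases hxS : x ∈ S
          · rw [if_pos hxS, zero_mul]
          · unfold Uc
            rw [if_neg hxS, if_neg (by omega : ¬ (A.erase x).card < S.card), if_neg, mul_zero]
            exact fun h5 => h2 (h5.trans (erase_subset x A)))
  have h2 : Uc S U univ = (S.card.factorial : ℝ) * U univ := by
    unfold Uc
    rw [if_neg (by
      have := card_le_univ S
      rw [card_univ]
      omega), if_pos (subset_univ S)]
  rw [h2] at h1
  refine le_trans (le_of_eq ?_) h1
  exact sum_congr rfl fun σ _ => (hc_prod S h σ).symm

end Pool.Agent.Work.MP_3bf421_lc_LU
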