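import Pool.Agent.Work.MP_3bf421_lc_LU.NumA

set_option autoImplicit false

/-!
The final numerics of the large-union theorem.
-/

namespace Pool.Agent.Work.MP_3bf421_lc_LU

open Finset

/-- the number of rejected elements -/
noncomputable def T0f (ε : ℝ) (n : ℕ) : ℕ := ⌈(1 + ε / 2) * n / Real.exp 1⌉₊

theorem finalNumA {ε : ℝ} (hε : 0 < ε) (hε1 : ε ≤ 1) :
    ∃ N0 : ℕ, ∃ C : ℝ, 0 < C ∧ ∀ n : ℕ, N0 ≤ n → ∀ R k : ℕ, 1 ≤ R →
      C * Real.log (R + 1) ≤ k →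
      ∃ (T1 B : ℕ) (lam θ : ℝ), T1 ≤ T0f ε n ∧ T0f ε n < n ∧ 1 ≤ lam ∧ 0 ≤ θ ∧
        (∀ m j : ℕ, k * j ≤ m →
          PB (T0f ε n - T1) ((lam - 1) * m) (n - T1 - 1) / lam ^ m ≤ θ ^ j) ∧
        1 - 1 / Real.exp 1 - ε ≤ ((n - T0f ε n : ℕ) : ℝ) / n *
          (1 - ((R : ℝ) * ((n - 1 - T1 : ℕ) : ℝ) / (((T1 : ℝ) + 1) * ((B : ℝ) + 1))
            + ((1 + θ) ^ B - 1))) := by
  set a : ℝ := ε / 2 with ha
  have ha0 : 0 < a := by positivity
  have ha1 : a ≤ 1 / 2 := by linarith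
  obtain ⟨N0, hN0⟩ := params ha0 (by linarith)
  obtain ⟨C, hC⟩ := copies ha0 (10 / a ^ 2) (a ^ 2 / 32) (by positivity) (by positivity)
  refine ⟨N0 + ⌈4 / a⌉₊ + 1, max C 1, lt_of_lt_of_le one_pos (le_max_right _ _),
    fun n hn R k hR hk => ?_⟩
  have hR1 : (1 : ℝ) ≤ R := by exact_mod_cast hR
  have hlog : 0 ≤ Real.log ((R : ℝ) + 1) := Real.log_nonneg (by linarith)
  have hk' : C * Real.log (R + 1) ≤ k :=
    (mul_le_mul_of_nonneg_right (le_max_left C 1) hlog).trans hk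
  obtain ⟨h1, h2, h3, h4, h5⟩ := hN0 n (by omega)
  have hyk := hC R k hR hk'
  have hn1 : 4 / a ≤ n := by
    have h6 := Nat.le_ceil (4 / a)
    have h7 : ((⌈4 / a⌉₊ : ℕ) : ℝ) ≤ n := by exact_mod_cast (by omega : ⌈4 / a⌉₊ ≤ n)
    linarith
  have hn0 : (0 : ℝ) < n := lt_of_lt_of_le (by positivity) hn1
  have han : 4 ≤ a * n := by
    rw [div_le_iff₀ ha0] at hn1
    linarith
  change ⌊a * n / 4⌋₊ < T0f ε n at h2
  change T0f ε n < n at h3
  change T0f ε n - ⌊a * n / 4⌋₊ ≤ n - ⌊a * n / 4⌋₊ - 1 at h4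
  change Real.log (((n - ⌊a * n / 4⌋₊ - 1 : ℕ) : ℝ)
        / ((T0f ε n - ⌊a * n / 4⌋₊ : ℕ) : ℝ)) ≤ 1 - a / 4 at h5
  have hT0 : (T0f ε n : ℝ) < (1 + a) * n / Real.exp 1 + 1 :=
    Nat.ceil_lt_add_one (by positivity)
  have hT1lt : a * n / 4 < (⌊a * n / 4⌋₊ : ℝ) + 1 := Nat.lt_floor_add_one _
  set T1 := ⌊a * n / 4⌋₊ with hT1
  set θ := Real.exp (-(a ^ 2 / 32) * k) with hθ
  set B := ⌈4 * R / a ^ 2⌉₊ with hB
  have hd1 : a / 4 < 1 := by linarith
  have hd0 : 0 ≤ a / 4 := by positivity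
  have hdd : 0 < 1 - a / 4 := by linarith
  have hlam : 1 ≤ (1 - a / 4)⁻¹ := (one_le_inv₀ hdd).mpr (by linarith)
  have hθ0 : 0 < θ := Real.exp_pos _
  refine ⟨T1, B, (1 - a / 4)⁻¹, θ, h2.le, h3, hlam, hθ0.le, ?_, ?_⟩
  · intro m j hmj
    have h6 := PB_chernoff (by omega) h4 hd0 hd1 h5 m
    have h7 : 0 < ((1 - a / 4)⁻¹) ^ m := by positivity
    rw [div_le_iff₀ h7]
    refine h6.trans ?_
    rw [mul_comm]
    refine mul_le_mul_of_nonneg_right ?_ h7.le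
    rw [hθ, ← Real.exp_nat_mul]
    refine Real.exp_le_exp.mpr ?_
    have h8 : ((k : ℝ) * j) ≤ m := by exact_mod_cast hmj
    have h9 : (a / 4) ^ 2 / 2 = a ^ 2 / 32 := by ring
    rw [h9]
    nlinarith [sq_nonneg a]
  · have hBub : (B : ℝ) ≤ 5 * R / a ^ 2 := by
      have h6 : (B : ℝ) < 4 * R / a ^ 2 + 1 := Nat.ceil_lt_add_one (by positivity)
      have h7 : 1 ≤ R / a ^ 2 := by
        rw [le_div_iff₀ (by positivity)]
        nlinarith
      have h8 : 5 * (R : ℝ) / a ^ 2 = 4 * R / a ^ 2 + R / a ^ 2 := by ring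
      linarith
    have hBlb : 4 * R / a ^ 2 ≤ B := Nat.le_ceil _
    have hx2 : (1 + θ) ^ B - 1 ≤ a := by
      have h6 : 2 * (B * θ) ≤ a := by
        have h7 : (B : ℝ) * θ ≤ 5 * R / a ^ 2 * θ := mul_le_mul_of_nonneg_right hBub hθ0.le
        have h8 : 10 / a ^ 2 * R * θ = 2 * (5 * R / a ^ 2 * θ) := by ring
        have h9 : 10 / a ^ 2 * R * θ ≤ a := hyk
        linarith
      have h0 : 0 ≤ B * θ := by positivity
      have h10 : (1 + θ) ^ B ≤ Real.exp (B * θ) := by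
        have := Real.add_one_le_exp θ
        calc (1 + θ) ^ B ≤ (Real.exp θ) ^ B := by
              refine pow_le_pow_left₀ (by positivity) (by linarith) _
          _ = Real.exp (B * θ) := by rw [← Real.exp_nat_mul]
      have h11 := Real.abs_exp_sub_one_sub_id_le (x := B * θ)
        (by rw [abs_of_nonneg h0]; linarith)
      rw [abs_le] at h11
      nlinarith [h11.2]
    have hx1 : (R : ℝ) * ((n - 1 - T1 : ℕ) : ℝ) / (((T1 : ℝ) + 1) * ((B : ℝ) + 1)) ≤ a := by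
      have h6 : ((n - 1 - T1 : ℕ) : ℝ) ≤ n := by exact_mod_cast (by omega : n - 1 - T1 ≤ n)
      have h7 : (0 : ℝ) < ((T1 : ℝ) + 1) * ((B : ℝ) + 1) := by positivity
      rw [div_le_iff₀ h7]
      have h8 : (R : ℝ) * ((n - 1 - T1 : ℕ) : ℝ) ≤ R * n :=
        mul_le_mul_of_nonneg_left h6 (by positivity)
      have h9 : (a * n / 4) * (4 * R / a ^ 2) ≤ ((T1 : ℝ) + 1) * ((B : ℝ) + 1) :=
        mul_le_mul hT1lt.le (by linarith) (by positivity) (by positivity)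
      have h10 : a * ((a * n / 4) * (4 * R / a ^ 2)) = R * n := by
        field_simp
      nlinarith [mul_le_mul_of_nonneg_left h9 ha0.le]
    set x := (R : ℝ) * ((n - 1 - T1 : ℕ) : ℝ) / (((T1 : ℝ) + 1) * ((B : ℝ) + 1))
            + ((1 + θ) ^ B - 1) with hx
    have hx3 : x ≤ 2 * a := by linarith
    have hE0 := Real.exp_one_gt_d9
    have hEp : 0 < Real.exp 1 := Real.exp_pos 1
    have hinv : 1 / Real.exp 1 ≤ 1 / 2.7 := one_div_le_one_div_of_le (by norm_num) (by linarith)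
    have hE1 := Real.exp_one_lt_d9
    have hinv2 : 1 / 2.72 ≤ 1 / Real.exp 1 := one_div_le_one_div_of_le hEp (by linarith)
    have h6 : (1 + a) * n / Real.exp 1 = (1 + a) * n * (1 / Real.exp 1) := by ring
    have hfr : 1 - 1 / Real.exp 1 - 0.63 * a ≤ ((n - T0f ε n : ℕ) : ℝ) / n := by
      rw [le_div_iff₀ hn0, Nat.cast_sub h3.le]
      have h7 : (1 - 1 / Real.exp 1 - 0.63 * a) * n
          = n - n * (1 / Real.exp 1) - 0.63 * (a * n) := by ring
      rw [h7]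
      rw [h6] at hT0
      have h8 : a * n * (1 / Real.exp 1) ≤ a * n * (1 / 2.7) :=
        mul_le_mul_of_nonneg_left hinv (by positivity)
      nlinarith
    have hfr2 : ((n - T0f ε n : ℕ) : ℝ) / n ≤ 0.633 := by
      rw [div_le_iff₀ hn0, Nat.cast_sub h3.le]
      have h7 : (1 + a) * n / Real.exp 1 ≤ T0f ε n := Nat.le_ceil _
      rw [h6] at h7
      have h8 : 1 * n * (1 / 2.72) ≤ (1 + a) * n * (1 / Real.exp 1) := by
        refine mul_le_mul (mul_le_mul_of_nonneg_right (by linarith) hn0.le) hinv2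
          (by norm_num) (by positivity)
      linarith
    have hfr1 : 0 ≤ ((n - T0f ε n : ℕ) : ℝ) / n := by positivity
    have hε2 : ε = 2 * a := by rw [ha]; ring
    have h10 := mul_le_mul_of_nonneg_left (show 1 - 2 * a ≤ 1 - x by linarith) hfr1
    have h11 := mul_le_mul_of_nonneg_right hfr2 (show 0 ≤ 2 * a by linarith)
    refine le_trans ?_ h10
    linarith

end Pool.Agent.Work.MP_3bf421_lc_LU
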