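import Pool.Agent.Work.MP_3bf421_lc_LU.Moment

set_option autoImplicit false

/-!
The final numerics of the theorem on circuits covered by few flats.
-/

namespace Pool.Agent.Work.MP_3bf421_lc_LU

open Finset

theorem PB_le_exp_sum (T a : ℕ) {x : ℝ} (hx : 0 ≤ x) :
    PB T x a ≤ Real.exp (x * ∑ t ∈ Ioc T a, 1 / (t : ℝ)) := by
  unfold PB
  have h1 : ∏ t ∈ Ioc T a, (1 + x / (t : ℝ)) ≤ ∏ t ∈ Ioc T a, Real.exp (x * (1 / (t : ℝ))) := by
    refine prod_le_prod (fun t _ => by positivity) fun t _ => ?_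
    have := Real.add_one_le_exp (x * (1 / (t : ℝ)))
    refine le_trans (le_of_eq ?_) this
    ring
  refine h1.trans ?_
  rw [← Real.exp_sum, ← mul_sum]

/-- the number of rejected elements -/
noncomputable def T0g (K q n : ℕ) : ℕ := n - ⌈(n : ℝ) / (10 * q * K)⌉₊

theorem T0g_lt {K q n : ℕ} (hK : 1 ≤ K) (hq : 1 ≤ q) (hn : 0 < n) : T0g K q n < n := by
  have h : 0 < ⌈(n : ℝ) / (10 * q * K)⌉₊ := Nat.ceil_pos.mpr (by positivity)
  unfold T0g
  omega

theorem finalNumB {K q n : ℕ} (hK : 1 ≤ K) (hq : 1 ≤ q) (hn : 0 < n) :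
    ∃ lam : ℝ, 1 ≤ lam ∧ 1 / (20 * q * K) ≤ ((n - T0g K q n : ℕ) : ℝ) / n *
      (1 - ∑ j ∈ Icc 1 n, (K : ℝ) ^ j *
        (PB (T0g K q n) ((lam - 1) * ((q * j : ℕ) : ℝ)) (n - 1) / lam ^ j)) := by
  have hK1 : (1 : ℝ) ≤ K := by exact_mod_cast hK
  have hq1 : (1 : ℝ) ≤ q := by exact_mod_cast hq
  have hn0 : (0 : ℝ) < n := by exact_mod_cast hn
  have hqK : (1 : ℝ) ≤ q * K := by nlinarith
  set M := ⌈(n : ℝ) / (10 * q * K)⌉₊ with hM
  have hMn : M ≤ n := by
    refine Nat.ceil_le.mpr ?_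
    rw [div_le_iff₀ (by positivity)]
    nlinarith
  have hM0 : 0 < M := Nat.ceil_pos.mpr (by positivity)
  have hT : T0g K q n = n - M := rfl
  have hMlt : (M : ℝ) < n / (10 * q * K) + 1 := Nat.ceil_lt_add_one (by positivity)
  have hMge : (n : ℝ) / (10 * q * K) ≤ M := Nat.le_ceil _
  -- the harmonic block
  have hH : ∑ t ∈ Ioc (T0g K q n) (n - 1), 1 / (t : ℝ) ≤ 1 / (9 * q * K) := by
    have h1 : ∀ t ∈ Ioc (T0g K q n) (n - 1), 1 / (t : ℝ) ≤ 1 / ((n : ℝ) * (9 / 10)) := by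
      intro t ht
      rw [mem_Ioc, hT] at ht
      refine one_div_le_one_div_of_le (by positivity) ?_
      have h2 : n + 1 ≤ t + M := by omega
      have h3 : (n : ℝ) + 1 ≤ t + M := by exact_mod_cast h2
      have h4 : (n : ℝ) / (10 * q * K) ≤ n / 10 := by
        rw [div_le_div_iff₀ (by positivity) (by positivity)]
        nlinarith
      linarith
    refine (sum_le_sum h1).trans ?_
    rw [sum_const, Nat.card_Ioc, nsmul_eq_mul, hT]
    have h5 : ((n - 1 - (n - M) : ℕ) : ℝ) = M - 1 := by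
      rw [show n - 1 - (n - M) = M - 1 by omega, Nat.cast_sub hM0, Nat.cast_one]
    rw [h5]
    have h6 : (M : ℝ) - 1 ≤ n / (10 * q * K) := by linarith
    have h7 : ((M : ℝ) - 1) * (1 / ((n : ℝ) * (9 / 10)))
        ≤ n / (10 * q * K) * (1 / ((n : ℝ) * (9 / 10))) :=
      mul_le_mul_of_nonneg_right h6 (by positivity)
    refine h7.trans (le_of_eq ?_)
    field_simp
  have hlam : (1 : ℝ) ≤ 9 * K := by linarith
  refine ⟨9 * K, hlam, ?_⟩
  have hE1 := Real.exp_one_lt_d9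
  have hEp : 0 < Real.exp 1 := Real.exp_pos 1
  have hterm : ∀ j ∈ Icc 1 n, (K : ℝ) ^ j *
      (PB (T0g K q n) ((9 * (K : ℝ) - 1) * ((q * j : ℕ) : ℝ)) (n - 1) / (9 * (K : ℝ)) ^ j)
      ≤ (Real.exp 1 / 9) ^ j := by
    intro j _
    have h0 : 0 ≤ (9 * (K : ℝ) - 1) * ((q * j : ℕ) : ℝ) := mul_nonneg (by linarith) (by positivity)
    have h1 := PB_le_exp_sum (T0g K q n) (n - 1) h0
    have h2 : (9 * (K : ℝ) - 1) * ((q * j : ℕ) : ℝ) * ∑ t ∈ Ioc (T0g K q n) (n - 1), 1 / (t : ℝ)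
        ≤ j := by
      refine (mul_le_mul_of_nonneg_left hH h0).trans ?_
      push_cast
      rw [mul_one_div, div_le_iff₀ (by positivity)]
      have : (0 : ℝ) ≤ q * j := by positivity
      nlinarith
    have h3 : PB (T0g K q n) ((9 * (K : ℝ) - 1) * ((q * j : ℕ) : ℝ)) (n - 1) ≤ Real.exp 1 ^ j := by
      refine h1.trans ?_
      rw [← Real.exp_nat_mul, mul_one]
      exact Real.exp_le_exp.mpr h2
    rw [mul_div_assoc', div_le_iff₀ (by positivity), ← mul_pow]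
    have h4 : (Real.exp 1 / 9 * (9 * (K : ℝ))) ^ j = (K : ℝ) ^ j * Real.exp 1 ^ j := by
      rw [← mul_pow]
      congr 1
      ring
    rw [h4]
    exact mul_le_mul_of_nonneg_left h3 (by positivity)
  have hsum : ∑ j ∈ Icc 1 n, (K : ℝ) ^ j *
      (PB (T0g K q n) ((9 * (K : ℝ) - 1) * ((q * j : ℕ) : ℝ)) (n - 1) / (9 * (K : ℝ)) ^ j)
      ≤ 1 / 2 := by
    refine (sum_le_sum hterm).trans ?_
    set y := Real.exp 1 / 9 with hy
    have hy0 : 0 < y := by positivity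
    have hy1 : y ≤ 1 / 3 := by rw [hy]; linarith
    have h1 : ∀ N : ℕ, ∑ j ∈ Icc 1 N, y ^ j ≤ 1 / 2 - y ^ N / 2 := by
      intro N
      induction N with
      | zero => simp
      | succ N ih =>
        rw [sum_Icc_succ_top (by omega), pow_succ]
        have : 0 < y ^ N := by positivity
        nlinarith
    have h2 := h1 n
    have : 0 < y ^ n := by positivity
    linarith
  have hfr : 1 / (10 * (q : ℝ) * K) ≤ ((n - T0g K q n : ℕ) : ℝ) / n := by
    rw [hT, show n - (n - M) = M by omega, le_div_iff₀ hn0]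
    refine le_trans (le_of_eq ?_) hMge
    ring
  have h1 : 1 / (20 * (q : ℝ) * K) = 1 / (10 * (q : ℝ) * K) * (1 / 2) := by
    rw [div_mul_div_comm, one_mul]
    congr 1
    ring
  rw [h1]
  exact mul_le_mul hfr (by linarith) (by norm_num) (by positivity)

end Pool.Agent.Work.MP_3bf421_lc_LU
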