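import Pool.Agent.Work.MP_3bf421_lc_LU.Moment

set_option autoImplicit false

/-!
The greedy basis is optimal.
-/

namespace Pool.Agent.Work.MP_3bf421_lc_LU

open Finset

variable {n : ℕ} {α : Type*} [LinearOrder α]

open Classical in
/-- the greedy basis -/
noncomputable def optB (M : Matroid (Fin n)) (κ : Fin n → α) : Finset (Fin n) :=
  univ.filter (fun x => x ∉ M.closure {y | κ x < κ y})

theorem optB_indep (M : Matroid (Fin n)) (hE : M.E = Set.univ) (κ : Fin n → α)
    (hκ : Function.Injective κ) : M.Indep (optB M κ : Set (Fin n)) := by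
  have h := greedy_indep M hE κ hκ (fun _ => True)
  simp only [true_and] at h
  unfold optB
  rwa [coe_filter_univ]

/-- the greedy basis spans every upper set -/
theorem optB_span (M : Matroid (Fin n)) (hE : M.E = Set.univ) (κ : Fin n → α) (a : α)
    (u : Fin n) (hu : a ≤ κ u) : u ∈ M.closure {x | x ∈ optB M κ ∧ a ≤ κ x} := by
  classical
  induction' hk : (univ.filter (fun y => κ u < κ y)).card using Nat.strong_induction_on with k ih
    generalizing u
  have hsub : ∀ X : Set (Fin n), X ⊆ M.E := fun X => by rw [hE]; exact Set.subset_univ X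
  by_cases hB : u ∈ optB M κ
  · exact M.subset_closure _ (hsub _) ⟨hB, hu⟩
  · have h1 : u ∈ M.closure {y | κ u < κ y} := by
      by_contra hcon
      apply hB
      unfold optB
      rw [mem_filter]
      exact ⟨mem_univ _, hcon⟩
    have h2 : {y | κ u < κ y} ⊆ M.closure {x | x ∈ optB M κ ∧ a ≤ κ x} := by
      intro y hy
      refine ih _ ?_ y (hu.trans (le_of_lt hy)) rfl
      rw [← hk]
      apply card_lt_card
      rw [ssubset_iff_of_subset]
      · refine ⟨y, ?_, ?_⟩
        · rw [mem_filter]; exact ⟨mem_univ _, hy⟩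
        · rw [mem_filter]; exact fun h => lt_irrefl _ h.2
      · intro z hz
        rw [mem_filter] at hz ⊢
        exact ⟨mem_univ _, lt_trans hy hz.2⟩
    have h3 := M.closure_subset_closure h2 h1
    rwa [M.closure_closure] at h3

open Classical in
theorem card_upper_le (M : Matroid (Fin n)) (hE : M.E = Set.univ) (κ : Fin n → α)
    (hκ : Function.Injective κ) (I : Finset (Fin n)) (hI : M.Indep (I : Set (Fin n))) (a : α) :
    (I.filter (fun y => a ≤ κ y)).card ≤ ((optB M κ).filter (fun y => a ≤ κ y)).card := by
  have h1 : M.Indep ((I.filter (fun y => a ≤ κ y) : Finset (Fin n)) : Set (Fin n)) :=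
    hI.subset (by intro x hx; exact (mem_filter.1 hx).1)
  have h2 : M.Indep (((optB M κ).filter (fun y => a ≤ κ y) : Finset (Fin n)) : Set (Fin n)) :=
    (optB_indep M hE κ hκ).subset (by intro x hx; exact (mem_filter.1 hx).1)
  have h3 : ((I.filter (fun y => a ≤ κ y) : Finset (Fin n)) : Set (Fin n))
      ⊆ M.closure (((optB M κ).filter (fun y => a ≤ κ y) : Finset (Fin n)) : Set (Fin n)) := by
    intro x hx
    have hx' := (mem_filter.1 (mem_coe.1 hx)).2
    have := optB_span M hE κ a x hx'
    convert this using 2
    ext z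
    simp
  have h4 : M.eRk ((I.filter (fun y => a ≤ κ y) : Finset (Fin n)) : Set (Fin n))
      ≤ M.eRk (((optB M κ).filter (fun y => a ≤ κ y) : Finset (Fin n)) : Set (Fin n)) := by
    rw [← M.eRk_closure_eq (((optB M κ).filter (fun y => a ≤ κ y) : Finset (Fin n)) : Set (Fin n))]
    exact M.eRk_mono h3
  rw [h1.eRk_eq_encard, h2.eRk_eq_encard, Set.encard_coe_eq_coe_finsetCard,
    Set.encard_coe_eq_coe_finsetCard] at h4
  exact_mod_cast h4

open Classical in
theorem sum_le_of_upper (κ : Fin n → α) (w : Fin n → ℝ) (hw : ∀ e, 0 ≤ w e)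
    (hmono : ∀ x y, κ x ≤ κ y → w x ≤ w y) :
    ∀ (k : ℕ) (I B : Finset (Fin n)), I.card = k →
    (∀ x ∈ I, (I.filter (fun y => κ x ≤ κ y)).card ≤ (B.filter (fun y => κ x ≤ κ y)).card) →
    ∑ x ∈ I, w x ≤ ∑ x ∈ B, w x := by
  intro k
  induction k with
  | zero =>
    intro I B hI _
    rw [card_eq_zero] at hI
    rw [hI, sum_empty]
    exact sum_nonneg fun x _ => hw x
  | succ k ih =>
    intro I B hI h
    have hne : I.Nonempty := by rw [← card_pos]; omega
    obtain ⟨x, hx, hmin⟩ := exists_min_image I κ hne
    have hall : I.filter (fun y => κ x ≤ κ y) = I := filter_true_of_mem hmin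
    have hBx := h x hx
    rw [hall] at hBx
    have hneB : (B.filter (fun y => κ x ≤ κ y)).Nonempty := by rw [← card_pos]; omega
    obtain ⟨y, hy, hymin⟩ := exists_min_image _ κ hneB
    rw [mem_filter] at hy
    have h1 : ∑ z ∈ I.erase x, w z ≤ ∑ z ∈ B.erase y, w z := by
      apply ih (I.erase x) (B.erase y)
      · rw [card_erase_of_mem hx]; omega
      · intro z hz
        have hzI := mem_of_mem_erase hz
        have hzx : κ x ≤ κ z := hmin z hzI
        by_cases hyz : κ z ≤ κ y
        · -- all elements of B above x are above z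
          have h2 : B.filter (fun u => κ z ≤ κ u) = B.filter (fun u => κ x ≤ κ u) := by
            ext u
            rw [mem_filter, mem_filter]
            constructor
            · rintro ⟨a, b⟩
              exact ⟨a, hzx.trans b⟩
            · rintro ⟨a, b⟩
              exact ⟨a, hyz.trans (hymin u (mem_filter.2 ⟨a, b⟩))⟩
          have h3 : ((B.erase y).filter (fun u => κ z ≤ κ u)).card
              = (B.filter (fun u => κ x ≤ κ u)).card - 1 := by
            rw [filter_erase, h2, card_erase_of_mem]
            rw [mem_filter]; exact hy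
          have h4 : ((I.erase x).filter (fun u => κ z ≤ κ u)).card ≤ (I.erase x).card :=
            card_filter_le _ _
          rw [card_erase_of_mem hx] at h4
          omega
        · have h3 : (B.erase y).filter (fun u => κ z ≤ κ u) = B.filter (fun u => κ z ≤ κ u) := by
            rw [filter_erase, erase_eq_of_notMem]
            rw [mem_filter]
            exact fun h => hyz h.2
          rw [h3]
          exact (card_le_card (filter_subset_filter _ (erase_subset x I))).trans (h z hzI)
    rw [← add_sum_erase I w hx, ← add_sum_erase B w hy.1]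
    have := hmono x y hy.2
    linarith

/-- **Greedy optimality.** -/
theorem greedy_opt (M : Matroid (Fin n)) (hE : M.E = Set.univ) (κ : Fin n → α)
    (hκ : Function.Injective κ) (w : Fin n → ℝ) (hw : ∀ e, 0 ≤ w e)
    (hmono : ∀ x y, κ x ≤ κ y → w x ≤ w y) (I : Finset (Fin n))
    (hI : M.Indep (I : Set (Fin n))) : ∑ x ∈ I, w x ≤ ∑ x ∈ optB M κ, w x := by
  classical
  exact sum_le_of_upper κ w hw hmono I.card I (optB M κ) rfl fun x _ => by
    have := card_upper_le M hE κ hκ I hI (κ x)
    convert this using 2

end Pool.Agent.Work.MP_3bf421_lc_LU
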