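import Pool.Agent.Work.MP_3bf421_lc_LU.Cond

set_option autoImplicit false

/-!
The exponential moment of the number of candidates in a set of small rank.
-/

namespace Pool.Agent.Work.MP_3bf421_lc_LU

open Finset

variable {n : ℕ} {α : Type*} [LinearOrder α]

/-- `x` belongs to the optimum of `A \ Z` (for `x ∈ A \ Z`) -/
def cand (M : Matroid (Fin n)) (κ : Fin n → α) (Z A : Finset (Fin n)) (x : Fin n) : Prop :=
  x ∉ M.closure {y | y ∈ A ∧ y ∉ Z ∧ κ x < κ y}

theorem greedy_indep (M : Matroid (Fin n)) (hE : M.E = Set.univ) (κ : Fin n → α)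
    (hκ : Function.Injective κ) (P : Fin n → Prop) :
    M.Indep {x | P x ∧ x ∉ M.closure {y | P y ∧ κ x < κ y}} := by
  by_contra hcon
  have hdep : M.Dep {x | P x ∧ x ∉ M.closure {y | P y ∧ κ x < κ y}} :=
    ⟨hcon, by rw [hE]; exact Set.subset_univ _⟩
  obtain ⟨D, hD, hcirc⟩ := hdep.exists_isCircuit_subset
  have hne := hcirc.nonempty
  obtain ⟨x, hx, hmin⟩ := Set.exists_min_image D κ (Set.toFinite D) hne
  have h1 := hcirc.mem_closure_sdiff_singleton_of_mem hx
  apply (hD hx).2
  refine M.closure_subset_closure ?_ h1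
  rintro y ⟨hy, hyx⟩
  refine ⟨(hD hy).1, lt_of_le_of_ne (hmin y hy) ?_⟩
  intro h2
  exact hyx (hκ h2).symm

open Classical in
/-- few elements can be the last candidate -/
theorem count_cand (M : Matroid (Fin n)) (hE : M.E = Set.univ) (κ : Fin n → α)
    (hκ : Function.Injective κ) (Z A G : Finset (Fin n)) (ρ : ℕ)
    (hG : ∀ I : Finset (Fin n), I ⊆ G → M.Indep (I : Set (Fin n)) → I.card ≤ ρ) :
    ((A \ Z).filter (fun x => x ∈ G ∧ cand M κ Z A x)).card ≤ ρ := by
  apply hG
  · intro x hx
    rw [mem_filter] at hx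
    exact hx.2.1
  · have h1 := greedy_indep M hE κ hκ (fun x => x ∈ A ∧ x ∉ Z)
    apply h1.subset
    intro x hx
    rw [mem_coe, mem_filter, mem_sdiff] at hx
    refine ⟨hx.1, ?_⟩
    have h2 := hx.2.2
    unfold cand at h2
    have h3 : {y | (y ∈ A ∧ y ∉ Z) ∧ κ x < κ y} = {y | y ∈ A ∧ y ∉ Z ∧ κ x < κ y} := by
      ext y
      exact and_assoc
    rw [h3]
    exact h2

/-- the product bound -/
noncomputable def PB (T : ℕ) (x : ℝ) (a : ℕ) : ℝ := ∏ t ∈ Ioc T a, (1 + x / t)

theorem PB_pos (T : ℕ) {x : ℝ} (hx : 0 ≤ x) (a : ℕ) : 0 < PB T x a := by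
  unfold PB
  exact prod_pos fun t _ => by positivity

theorem PB_of_le {T a : ℕ} (x : ℝ) (h : a ≤ T) : PB T x a = 1 := by
  unfold PB
  rw [Ioc_eq_empty (by omega), prod_empty]

theorem PB_succ {T b : ℕ} (x : ℝ) (h : T ≤ b) : PB T x (b + 1) = (1 + x / ((b + 1 : ℕ) : ℝ)) * PB T x b := by
  unfold PB
  rw [← insert_Ioc_right_eq_Ioc_add_one h, prod_insert (by simp)]

theorem PB_fac {T b : ℕ} (x : ℝ) (h : T ≤ b) :
    (((b + 1 : ℕ) : ℝ) + x) * ((b.factorial : ℝ) * PB T x b)
      = ((b + 1).factorial : ℝ) * PB T x (b + 1) := by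
  rw [PB_succ x h, Nat.factorial_succ]
  have : ((b + 1 : ℕ) : ℝ) ≠ 0 := by positivity
  push_cast at this ⊢
  field_simp

open Classical in
/-- the weights -/
noncomputable def hm (M : Matroid (Fin n)) (κ : Fin n → α) (e : Fin n) (S G : Finset (Fin n))
    (T0 : ℕ) (lam : ℝ) (A : Finset (Fin n)) (x : Fin n) : ℝ :=
  if x = e then (if T0 < A.card then 1 else 0)
  else (if T0 < A.card ∧ x ∈ G ∧ cand M κ (insert e S) A x then lam else 1)

open Classical in
/-- the supersolution -/
noncomputable def Um (e : Fin n) (s T0 : ℕ) (x : ℝ) (A : Finset (Fin n)) : ℝ :=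
  if e ∈ A then ((A.card - s - 1).factorial : ℝ) * ((A.card - s - (T0 - s) : ℕ) : ℝ)
      * PB (T0 - s) x (A.card - s - 1)
  else ((A.card - s).factorial : ℝ) * PB (T0 - s) x (A.card - s)

open Classical in
theorem sum_hm_le (M : Matroid (Fin n)) (hE : M.E = Set.univ) (κ : Fin n → α)
    (hκ : Function.Injective κ) (e : Fin n) (S G : Finset (Fin n)) (T0 ρ : ℕ) {lam : ℝ}
    (hlam : 1 ≤ lam)
    (hG : ∀ I : Finset (Fin n), I ⊆ G → M.Indep (I : Set (Fin n)) → I.card ≤ ρ)
    (A B : Finset (Fin n)) (hB : B ⊆ A \ insert e S) (hT : T0 < A.card) :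
    ∑ x ∈ B, hm M κ e S G T0 lam A x ≤ (B.card : ℝ) + (lam - 1) * ρ := by
  have h1 : ∀ x ∈ B, hm M κ e S G T0 lam A x
      = 1 + (lam - 1) * (if x ∈ G ∧ cand M κ (insert e S) A x then 1 else 0) := by
    intro x hx
    have h2 := hB hx
    rw [mem_sdiff, mem_insert, not_or] at h2
    unfold hm
    rw [if_neg h2.2.1]
    by_cases h3 : x ∈ G ∧ cand M κ (insert e S) A x
    · rw [if_pos ⟨hT, h3⟩, if_pos h3]; ring
    · rw [if_neg (fun h4 => h3 h4.2), if_neg h3]; ring
  rw [sum_congr rfl h1, sum_add_distrib, ← mul_sum, sum_const, nsmul_eq_mul, mul_one]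
  have h2 : (∑ x ∈ B, (if x ∈ G ∧ cand M κ (insert e S) A x then (1 : ℝ) else 0)) ≤ ρ := by
    rw [← sum_filter, sum_const, nsmul_eq_mul, mul_one]
    have h3 := count_cand M hE κ hκ (insert e S) A G ρ hG
    have h4 : (B.filter (fun x => x ∈ G ∧ cand M κ (insert e S) A x)).card
        ≤ ((A \ insert e S).filter (fun x => x ∈ G ∧ cand M κ (insert e S) A x)).card :=
      card_le_card (filter_subset_filter _ hB)
    exact_mod_cast h4.trans h3
  have h3 : 0 ≤ lam - 1 := by linarith
  nlinarith [mul_le_mul_of_nonneg_left h2 h3]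

open Classical in
theorem sum_hm_eq (M : Matroid (Fin n)) (κ : Fin n → α) (e : Fin n) (S G : Finset (Fin n))
    (T0 : ℕ) (lam : ℝ) (A B : Finset (Fin n)) (hB : e ∉ B) (hT : ¬ T0 < A.card) :
    ∑ x ∈ B, hm M κ e S G T0 lam A x = (B.card : ℝ) := by
  have h1 : ∀ x ∈ B, hm M κ e S G T0 lam A x = 1 := by
    intro x hx
    unfold hm
    rw [if_neg (fun h => hB (by rw [← h]; exact hx)), if_neg (fun h => hT h.1)]
  rw [sum_congr rfl h1, sum_const, nsmul_eq_mul, mul_one]

open Classical in
theorem Um_super (M : Matroid (Fin n)) (hE : M.E = Set.univ) (κ : Fin n → α)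
    (hκ : Function.Injective κ) (e : Fin n) (S G : Finset (Fin n)) (heS : e ∉ S) (T0 ρ : ℕ)
    (hST : S.card ≤ T0) {lam : ℝ} (hlam : 1 ≤ lam)
    (hG : ∀ I : Finset (Fin n), I ⊆ G → M.Indep (I : Set (Fin n)) → I.card ≤ ρ)
    (A : Finset (Fin n)) (hA : S ⊂ A) :
    ∑ x ∈ A \ S, hm M κ e S G T0 lam A x * Um e S.card T0 ((lam - 1) * ρ) (A.erase x)
      ≤ Um e S.card T0 ((lam - 1) * ρ) A := by
  set z : ℝ := (lam - 1) * ρ with hz
  have hz0 : 0 ≤ z := mul_nonneg (by linarith) (Nat.cast_nonneg _)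
  have hlt := card_lt_card hA
  have hAS : (A \ S).card = A.card - S.card := card_sdiff_of_subset hA.1
  by_cases he : e ∈ A
  · -- e in A
    have heAS : e ∈ A \ S := mem_sdiff.2 ⟨he, heS⟩
    rw [← add_sum_erase _ _ heAS]
    have hUA : Um e S.card T0 z A = ((A.card - S.card - 1).factorial : ℝ)
        * ((A.card - S.card - (T0 - S.card) : ℕ) : ℝ)
        * PB (T0 - S.card) z (A.card - S.card - 1) := by
      unfold Um; rw [if_pos he]
    have hUe : Um e S.card T0 z (A.erase e) = ((A.card - S.card - 1).factorial : ℝ)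
        * PB (T0 - S.card) z (A.card - S.card - 1) := by
      unfold Um
      rw [if_neg (notMem_erase e A), card_erase_of_mem he,
        show A.card - 1 - S.card = A.card - S.card - 1 by omega]
    have hUx : ∀ x ∈ (A \ S).erase e, hm M κ e S G T0 lam A x * Um e S.card T0 z (A.erase x)
        = (((A.card - S.card - 2).factorial : ℝ)
          * ((A.card - S.card - 1 - (T0 - S.card) : ℕ) : ℝ)
          * PB (T0 - S.card) z (A.card - S.card - 2)) * hm M κ e S G T0 lam A x := by
      intro x hx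
      rw [mem_erase, mem_sdiff] at hx
      have h1 : e ∈ A.erase x := mem_erase.2 ⟨fun h => hx.1 h.symm, he⟩
      unfold Um
      rw [if_pos h1, card_erase_of_mem hx.2.1,
        show A.card - 1 - S.card - 1 = A.card - S.card - 2 by omega,
        show A.card - 1 - S.card - (T0 - S.card) = A.card - S.card - 1 - (T0 - S.card) by omega]
      ring
    rw [sum_congr rfl hUx, ← mul_sum, hUA, hUe]
    have hBcard : ((A \ S).erase e).card = A.card - S.card - 1 := by
      rw [card_erase_of_mem heAS, hAS]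
    have hme : hm M κ e S G T0 lam A e = if T0 < A.card then 1 else 0 := by
      unfold hm; rw [if_pos rfl]
    by_cases hT : T0 < A.card
    · rw [hme, if_pos hT, one_mul]
      have hsum := sum_hm_le M hE κ hκ e S G T0 ρ hlam hG A ((A \ S).erase e) (by
        intro x hx
        rw [mem_erase, mem_sdiff] at hx
        rw [mem_sdiff, mem_insert, not_or]
        exact ⟨hx.2.1, hx.1, hx.2.2⟩) hT
      rw [hBcard] at hsum
      obtain ⟨b, hb⟩ : ∃ b, A.card - S.card = b + 1 := ⟨A.card - S.card - 1, by omega⟩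
      have e1 : A.card - S.card - 1 = b := by omega
      rw [e1] at hsum ⊢
      rw [hb]
      by_cases hbT : b ≤ T0 - S.card
      · -- no other element contributes
        have hb' : b - (T0 - S.card) = 0 := by omega
        have hb1 : b + 1 - (T0 - S.card) = 1 := by omega
        rw [hb', hb1]
        simp
      · push Not at hbT
        obtain ⟨c, hc⟩ : ∃ c, b = c + 1 := ⟨b - 1, by omega⟩
        have e2 : b + 1 - 2 = c := by omega
        rw [e2]
        have hsub : ((b + 1 - (T0 - S.card) : ℕ) : ℝ) = ((b - (T0 - S.card) : ℕ) : ℝ) + 1 := by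
          rw [show b + 1 - (T0 - S.card) = b - (T0 - S.card) + 1 by omega]
          push_cast; ring
        rw [hsub]
        have hfac := PB_fac (T := T0 - S.card) (b := c) z (by omega)
        rw [← hc] at hfac
        have hd0 : (0 : ℝ) ≤ ((b - (T0 - S.card) : ℕ) : ℝ) := Nat.cast_nonneg _
        have hP0 := PB_pos (T0 - S.card) hz0 c
        have hf0 : (0 : ℝ) < c.factorial := by exact_mod_cast Nat.factorial_pos c
        have h3 : ((c.factorial : ℝ) * ((b - (T0 - S.card) : ℕ) : ℝ) * PB (T0 - S.card) z c)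
            * ∑ x ∈ (A \ S).erase e, hm M κ e S G T0 lam A x
            ≤ ((c.factorial : ℝ) * ((b - (T0 - S.card) : ℕ) : ℝ) * PB (T0 - S.card) z c)
            * ((b : ℝ) + z) :=
          mul_le_mul_of_nonneg_left hsum (by positivity)
        have h4 : ((c.factorial : ℝ) * ((b - (T0 - S.card) : ℕ) : ℝ) * PB (T0 - S.card) z c)
            * ((b : ℝ) + z) = ((b - (T0 - S.card) : ℕ) : ℝ) * ((b.factorial : ℝ)
            * PB (T0 - S.card) z b) := by
          rw [← hfac]; ring
        rw [h4] at h3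
        nlinarith
    · rw [hme, if_neg hT, zero_mul, zero_add]
      have hb' : A.card - S.card - 1 - (T0 - S.card) = 0 := by omega
      have hb1 : A.card - S.card - (T0 - S.card) = 0 := by omega
      rw [hb', hb1]
      simp
  · -- e not in A
    have hUA : Um e S.card T0 z A = ((A.card - S.card).factorial : ℝ)
        * PB (T0 - S.card) z (A.card - S.card) := by
      unfold Um; rw [if_neg he]
    have hUx : ∀ x ∈ A \ S, hm M κ e S G T0 lam A x * Um e S.card T0 z (A.erase x)
        = (((A.card - S.card - 1).factorial : ℝ)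
          * PB (T0 - S.card) z (A.card - S.card - 1)) * hm M κ e S G T0 lam A x := by
      intro x hx
      rw [mem_sdiff] at hx
      unfold Um
      rw [if_neg (fun h => he (erase_subset x A h)), card_erase_of_mem hx.1,
        show A.card - 1 - S.card = A.card - S.card - 1 by omega]
      ring
    rw [sum_congr rfl hUx, ← mul_sum, hUA]
    obtain ⟨b, hb⟩ : ∃ b, A.card - S.card = b + 1 := ⟨A.card - S.card - 1, by omega⟩
    have e1 : A.card - S.card - 1 = b := by omega
    rw [e1, hb]
    have hP0 := PB_pos (T0 - S.card) hz0 b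
    by_cases hT : T0 < A.card
    · have hsum := sum_hm_le M hE κ hκ e S G T0 ρ hlam hG A (A \ S) (by
        intro x hx
        rw [mem_sdiff] at hx
        rw [mem_sdiff, mem_insert, not_or]
        exact ⟨hx.1, fun h => he (h ▸ hx.1), hx.2⟩) hT
      rw [hAS, hb] at hsum
      rw [← PB_fac (T := T0 - S.card) (b := b) z (by omega)]
      calc _ ≤ ((b.factorial : ℝ) * PB (T0 - S.card) z b) * (((b + 1 : ℕ) : ℝ) + z) :=
            mul_le_mul_of_nonneg_left hsum (by positivity)
        _ = _ := by ring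
    · have hsum := sum_hm_eq M κ e S G T0 lam A (A \ S) (fun h => he (mem_sdiff.1 h).1) hT
      rw [hAS, hb] at hsum
      rw [hsum, PB_of_le z (by omega), PB_of_le z (by omega), Nat.factorial_succ]
      apply le_of_eq
      push_cast
      ring

open Classical in
/-- the candidates at times `≥ T0`, the elements of `Z` being ignored -/
noncomputable def Cset (M : Matroid (Fin n)) (κ : Fin n → α) (Z : Finset (Fin n)) (T0 : ℕ)
    (σ : Equiv.Perm (Fin n)) : Finset (Fin n) :=
  univ.filter (fun x => x ∉ Z ∧ T0 ≤ (σ.symm x).val ∧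
    cand M κ Z (pre σ ((σ.symm x).val + 1)) x)

open Classical in
theorem prod_hm (M : Matroid (Fin n)) (κ : Fin n → α) (e : Fin n) (S G : Finset (Fin n))
    (heS : e ∉ S) (T0 : ℕ) (hST : S.card ≤ T0) (lam : ℝ) (σ : Equiv.Perm (Fin n))
    (hσ : pre σ S.card = S) :
    ∏ i ∈ univ.filter (fun i : Fin n => S.card ≤ i.val),
      hm M κ e S G T0 lam (pre σ (i.val + 1)) (σ i)
    = if T0 ≤ (σ.symm e).val then lam ^ (Cset M κ (insert e S) T0 σ ∩ G).card else 0 := by
  have hcardpre : ∀ i : Fin n, (pre σ (i.val + 1)).card = i.val + 1 := fun i =>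
    card_pre σ (by omega)
  have hpe : S.card ≤ (σ.symm e).val := by
    by_contra hcon
    apply heS
    rw [← hσ, mem_pre]
    omega
  by_cases hT : T0 ≤ (σ.symm e).val
  · rw [if_pos hT]
    have h1 : ∀ i ∈ univ.filter (fun i : Fin n => S.card ≤ i.val),
        hm M κ e S G T0 lam (pre σ (i.val + 1)) (σ i)
        = if σ i ∈ Cset M κ (insert e S) T0 σ ∩ G then lam else 1 := by
      intro i hi
      have hi' : S.card ≤ i.val := by simpa using hi
      unfold hm
      rw [hcardpre i]
      by_cases hie : σ i = e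
      · rw [if_pos hie, if_pos (by rw [← hie] at hT; simp at hT; omega), if_neg]
        rw [mem_inter]
        rintro ⟨h2, -⟩
        unfold Cset at h2
        rw [mem_filter] at h2
        exact h2.2.1 (by rw [hie]; exact mem_insert_self _ _)
      · rw [if_neg hie]
        have hiS : σ i ∉ S := by
          rw [← hσ, mem_pre]
          simpa using hi'
        have : (T0 < i.val + 1 ∧ σ i ∈ G ∧ cand M κ (insert e S) (pre σ (i.val + 1)) (σ i)) ↔
            σ i ∈ Cset M κ (insert e S) T0 σ ∩ G := by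
          unfold Cset
          rw [mem_inter, mem_filter]
          simp only [mem_univ, true_and, Equiv.symm_apply_apply, mem_insert, not_or]
          constructor
          · rintro ⟨a, b, c⟩
            exact ⟨⟨⟨hie, hiS⟩, by omega, c⟩, b⟩
          · rintro ⟨⟨-, a, b⟩, c⟩
            exact ⟨by omega, c, b⟩
        simp only [this]
    rw [prod_congr rfl h1, prod_ite, prod_const_one, mul_one, prod_const]
    congr 1
    -- bijection between positions and elements
    refine card_bij (fun i _ => σ i) ?_ ?_ ?_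
    · intro i hi
      exact (mem_filter.1 hi).2
    · intro i _ j _ hij
      exact σ.injective hij
    · intro x hx
      refine ⟨σ.symm x, ?_, by simp⟩
      rw [mem_filter, mem_filter]
      refine ⟨⟨mem_univ _, ?_⟩, by simpa using hx⟩
      have hx' := (mem_inter.1 hx).1
      unfold Cset at hx'
      rw [mem_filter] at hx'
      omega
  · rw [if_neg hT]
    refine prod_eq_zero (i := σ.symm e) (by simp [hpe]) ?_
    unfold hm
    rw [hcardpre, Equiv.apply_symm_apply, if_pos rfl, if_neg (by omega)]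

open Classical in
/-- **Moment bound.** -/
theorem moment (M : Matroid (Fin n)) (hE : M.E = Set.univ) (κ : Fin n → α)
    (hκ : Function.Injective κ) (e : Fin n) (S G : Finset (Fin n)) (heS : e ∉ S) (T0 ρ : ℕ)
    (hST : S.card ≤ T0) (hTn : T0 < n) {lam : ℝ} (hlam : 1 ≤ lam)
    (hG : ∀ I : Finset (Fin n), I ⊆ G → M.Indep (I : Set (Fin n)) → I.card ≤ ρ) :
    ∑ σ : Equiv.Perm (Fin n), (if pre σ S.card = S ∧ T0 ≤ (σ.symm e).val then
      lam ^ (Cset M κ (insert e S) T0 σ ∩ G).card else 0)
    ≤ (S.card.factorial : ℝ) * ((n - S.card - 1).factorial : ℝ) * ((n - T0 : ℕ) : ℝ)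
      * PB (T0 - S.card) ((lam - 1) * ρ) (n - S.card - 1) := by
  have h1 := order_sum_cond S (hm M κ e S G T0 lam) (by
    intro A x
    unfold hm
    split_ifs
    · norm_num
    · norm_num
    · linarith
    · norm_num) (Um e S.card T0 ((lam - 1) * ρ)) (by
    unfold Um
    rw [if_neg heS, Nat.sub_self, PB_of_le _ (Nat.zero_le _)]
    simp) (fun A hA => Um_super M hE κ hκ e S G heS T0 ρ hST hlam hG A hA)
  have h2 : Um e S.card T0 ((lam - 1) * ρ) univ = ((n - S.card - 1).factorial : ℝ)
      * ((n - T0 : ℕ) : ℝ) * PB (T0 - S.card) ((lam - 1) * ρ) (n - S.card - 1) := by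
    unfold Um
    rw [if_pos (mem_univ e), card_univ, Fintype.card_fin,
      show n - S.card - (T0 - S.card) = n - T0 by omega]
  rw [h2] at h1
  refine le_trans (le_of_eq ?_) (h1.trans (le_of_eq (by ring)))
  refine sum_congr rfl fun σ _ => ?_
  by_cases hσ : pre σ S.card = S
  · rw [if_pos hσ, prod_hm M κ e S G heS T0 hST lam σ hσ]
    by_cases hT : T0 ≤ (σ.symm e).val
    · rw [if_pos ⟨hσ, hT⟩, if_pos hT]
    · rw [if_neg (fun h => hT h.2), if_neg hT]
  · rw [if_neg hσ, if_neg (fun h => hσ h.1)]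

end Pool.Agent.Work.MP_3bf421_lc_LU
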