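import Pool.Agent.Work.MP_3bf421_lc_LU.Moment

set_option autoImplicit false

/-!
Numerics of the large-union theorem: the product bound, the choice of the parameters, the union
bound and the choice of the number of copies.
-/

namespace Pool.Agent.Work.MP_3bf421_lc_LU

open Finset

/-- a harmonic block is at most a logarithm -/
theorem sum_inv_le_log {T a : ℕ} (hT : 1 ≤ T) (h : T ≤ a) :
    ∑ t ∈ Ioc T a, (1 : ℝ) / t ≤ Real.log ((a : ℝ) / T) := by
  induction a, h using Nat.le_induction with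
  | base => simp [div_self (show (T : ℝ) ≠ 0 by positivity)]
  | succ b hb ih =>
    rw [← insert_Ioc_right_eq_Ioc_add_one hb, sum_insert (by simp)]
    have hT0 : (0 : ℝ) < T := by exact_mod_cast hT
    have hb0 : (0 : ℝ) < b := by
      have : 1 ≤ b := le_trans hT hb
      exact_mod_cast this
    have h1 : Real.log (((b + 1 : ℕ) : ℝ) / T) =
        Real.log ((b : ℝ) / T) + Real.log (((b + 1 : ℕ) : ℝ) / b) := by
      rw [← Real.log_mul (by positivity) (by positivity)]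
      congr 1
      field_simp
    have h2 : (1 : ℝ) / ((b + 1 : ℕ) : ℝ) ≤ Real.log (((b + 1 : ℕ) : ℝ) / b) := by
      have h3 := Real.one_sub_inv_le_log_of_pos (x := ((b + 1 : ℕ) : ℝ) / b) (by positivity)
      refine le_trans (le_of_eq ?_) h3
      push_cast
      field_simp
      ring
    rw [h1]
    linarith

/-- the product bound as an exponential -/
theorem PB_le {T a : ℕ} (hT : 1 ≤ T) (h : T ≤ a) {x : ℝ} (hx : 0 ≤ x) :
    PB T x a ≤ Real.exp (x * Real.log ((a : ℝ) / T)) := by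
  unfold PB
  have h1 : ∏ t ∈ Ioc T a, (1 + x / (t : ℝ)) ≤ ∏ t ∈ Ioc T a, Real.exp (x * (1 / (t : ℝ))) := by
    refine prod_le_prod (fun t _ => by positivity) fun t _ => ?_
    have := Real.add_one_le_exp (x * (1 / (t : ℝ)))
    refine le_trans (le_of_eq ?_) this
    ring
  refine h1.trans ?_
  rw [← Real.exp_sum, ← mul_sum]
  exact Real.exp_le_exp.mpr (mul_le_mul_of_nonneg_left (sum_inv_le_log hT h) hx)

/-- the gain of the Chernoff bound -/
theorem chernoff_gain {d : ℝ} (hd : 0 ≤ d) (hd1 : d < 1) :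
    d ^ 2 / 2 ≤ -Real.log (1 - d) - d := by
  have h := Real.hasSum_pow_div_log_of_abs_lt_one (x := d) (by rw [abs_of_nonneg hd]; exact hd1)
  have h1 := sum_le_hasSum (range 2) (fun i _ => by positivity) h
  rw [sum_range_succ, sum_range_one] at h1
  norm_num at h1
  linarith

/-- the moment bound with the optimal base: `PB` against `lam ^ rho` -/
theorem PB_chernoff {T a : ℕ} (hT : 1 ≤ T) (h : T ≤ a) {d : ℝ} (hd : 0 ≤ d) (hd1 : d < 1)
    (hH : Real.log ((a : ℝ) / T) ≤ 1 - d) (ρ : ℕ) :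
    PB T (((1 - d)⁻¹ - 1) * ρ) a
      ≤ ((1 - d)⁻¹) ^ ρ * Real.exp (-(d ^ 2 / 2) * ρ) := by
  have h1d : 0 < 1 - d := by linarith
  have hl : 1 ≤ (1 - d)⁻¹ := (one_le_inv₀ h1d).mpr (by linarith)
  have h0 : 0 ≤ ((1 - d)⁻¹ - 1) * (ρ : ℝ) := mul_nonneg (by linarith) (by positivity)
  refine (PB_le hT h h0).trans ?_
  have h2 : ((1 - d)⁻¹) ^ ρ = Real.exp (ρ * Real.log ((1 - d)⁻¹)) := by
    rw [← Real.log_pow, Real.exp_log (by positivity)]
  rw [h2, ← Real.exp_add]
  refine Real.exp_le_exp.mpr ?_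
  have h3 : ((1 - d)⁻¹ - 1) * (ρ : ℝ) * Real.log ((a : ℝ) / T)
      ≤ ((1 - d)⁻¹ - 1) * (ρ : ℝ) * (1 - d) := mul_le_mul_of_nonneg_left hH h0
  have h4 : ((1 - d)⁻¹ - 1) * (ρ : ℝ) * (1 - d) = ρ * d := by
    field_simp
    ring
  have h5 := chernoff_gain hd hd1
  rw [Real.log_inv]
  have h6 : (ρ : ℝ) * (d ^ 2 / 2) ≤ ρ * (-Real.log (1 - d) - d) :=
    mul_le_mul_of_nonneg_left h5 (by positivity)
  nlinarith

/-- the parameters of the rule -/
theorem params {ε : ℝ} (hε : 0 < ε) (hε1 : ε ≤ 1) :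
    ∃ N0 : ℕ, ∀ n : ℕ, N0 ≤ n →
      1 ≤ ⌊ε * n / 4⌋₊ ∧ ⌊ε * n / 4⌋₊ < ⌈(1 + ε) * n / Real.exp 1⌉₊ ∧
      ⌈(1 + ε) * n / Real.exp 1⌉₊ < n ∧
      ⌈(1 + ε) * n / Real.exp 1⌉₊ - ⌊ε * n / 4⌋₊ ≤ n - ⌊ε * n / 4⌋₊ - 1 ∧
      Real.log (((n - ⌊ε * n / 4⌋₊ - 1 : ℕ) : ℝ)
        / ((⌈(1 + ε) * n / Real.exp 1⌉₊ - ⌊ε * n / 4⌋₊ : ℕ) : ℝ)) ≤ 1 - ε / 4 := by
  refine ⟨⌈4 / ε⌉₊ + 4, fun n hn => ?_⟩
  have hn1 : (4 : ℝ) / ε ≤ n := by
    have h1 := Nat.le_ceil (4 / ε)
    have h2 : ((⌈4 / ε⌉₊ + 4 : ℕ) : ℝ) ≤ n := by exact_mod_cast hn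
    push_cast at h2
    linarith
  have hn4 : (4 : ℝ) ≤ n := by
    have h2 : ((⌈4 / ε⌉₊ + 4 : ℕ) : ℝ) ≤ n := by exact_mod_cast hn
    push_cast at h2
    have : (0 : ℝ) ≤ ⌈4 / ε⌉₊ := by positivity
    linarith
  have hεn : 4 ≤ ε * n := by
    rw [div_le_iff₀ hε] at hn1
    linarith
  have hE0 := Real.exp_one_gt_d9
  have hE1 := Real.exp_one_lt_d9
  have hEp : 0 < Real.exp 1 := Real.exp_pos 1
  set T1 := ⌊ε * n / 4⌋₊ with hT1
  set T0 := ⌈(1 + ε) * n / Real.exp 1⌉₊ with hT0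
  have ha : 1 ≤ T1 := Nat.le_floor (by push_cast; linarith)
  have hb : (T1 : ℝ) ≤ ε * n / 4 := Nat.floor_le (by positivity)
  have hc : (1 + ε) * n / Real.exp 1 ≤ T0 := Nat.le_ceil _
  have hd : (T0 : ℝ) < (1 + ε) * n / Real.exp 1 + 1 := Nat.ceil_lt_add_one (by positivity)
  have he : (n : ℝ) / 4 < (1 + ε) * n / Real.exp 1 := by
    rw [lt_div_iff₀ hEp]
    nlinarith
  have hf : (T1 : ℝ) < T0 := by nlinarith
  have hg : (1 + ε) * n / Real.exp 1 ≤ 3 / 4 * n := by
    rw [div_le_iff₀ hEp]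
    nlinarith
  have hh : (T0 : ℝ) < n := by linarith
  have hf' : T1 < T0 := by exact_mod_cast hf
  have hh' : T0 < n := by exact_mod_cast hh
  refine ⟨ha, hf', hh', by omega, ?_⟩
  have hpos : (0 : ℝ) < ((T0 - T1 : ℕ) : ℝ) := by
    have : 0 < T0 - T1 := by omega
    exact_mod_cast this
  have hpos2 : (0 : ℝ) < ((n - T1 - 1 : ℕ) : ℝ) := by
    have : 0 < n - T1 - 1 := by omega
    exact_mod_cast this
  rw [Real.log_le_iff_le_exp (by positivity), div_le_iff₀ hpos]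
  have hi : ((T0 - T1 : ℕ) : ℝ) = (T0 : ℝ) - T1 := Nat.cast_sub hf'.le
  have hj : ((n - T1 - 1 : ℕ) : ℝ) = (n : ℝ) - T1 - 1 := by
    rw [Nat.cast_sub (by omega), Nat.cast_sub (by omega), Nat.cast_one]
  rw [hi, hj]
  have hK : Real.exp (1 - ε / 4) = Real.exp 1 * Real.exp (-(ε / 4)) := by
    rw [← Real.exp_add]; ring_nf
  have hk1 : 1 - ε / 4 ≤ Real.exp (-(ε / 4)) := by
    have := Real.add_one_le_exp (-(ε / 4))
    linarith
  have hk2 : Real.exp (-(ε / 4)) ≤ 1 := Real.exp_le_one_iff.mpr (by linarith)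
  have hK1 : 1 ≤ Real.exp (1 - ε / 4) := Real.one_le_exp (by linarith)
  have hK2 : Real.exp (1 - ε / 4) ≤ 2.7182818286 := by
    rw [hK]; nlinarith
  have hm : Real.exp (1 - ε / 4) * ((1 + ε) * n / Real.exp 1)
      = Real.exp (-(ε / 4)) * (1 + ε) * n := by
    rw [hK]; field_simp
  have hn' : Real.exp (1 - ε / 4) * ((1 + ε) * n / Real.exp 1) ≤ Real.exp (1 - ε / 4) * T0 :=
    mul_le_mul_of_nonneg_left hc (by positivity)
  have ho : (1 - ε / 4) * (1 + ε) * n ≤ Real.exp (-(ε / 4)) * (1 + ε) * n := by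
    have : 0 ≤ (1 + ε) * n := by positivity
    nlinarith
  have hp : (Real.exp (1 - ε / 4) - 1) * T1 ≤ (2.7182818286 - 1) * (ε * n / 4) := by
    have h0 : (0 : ℝ) ≤ T1 := by positivity
    nlinarith
  have hq : ε * ε * n ≤ ε * n := by nlinarith
  nlinarith

/-- the union bound over nonempty subsets -/
theorem union_bound {β : Type*} [DecidableEq β] (P : Finset β) {y : ℝ} (hy : 0 ≤ y)
    (hP : P.card * y ≤ 1) :
    ∑ J ∈ P.powerset.filter (fun J => J.Nonempty), y ^ J.card ≤ 2 * (P.card * y) := by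
  have h1 : ∑ J ∈ P.powerset, y ^ J.card = (1 + y) ^ P.card := by
    have := Finset.sum_pow_mul_eq_add_pow y 1 P
    simp only [one_pow, mul_one] at this
    rw [this, add_comm]
  have h2 : ∑ J ∈ P.powerset, y ^ J.card
      = ∑ J ∈ P.powerset.filter (fun J => J.Nonempty), y ^ J.card + 1 := by
    rw [← sum_filter_add_sum_filter_not P.powerset (fun J => J.Nonempty)]
    congr 1
    have : P.powerset.filter (fun J => ¬ J.Nonempty) = {∅} := by
      ext J
      simp only [mem_filter, mem_powerset, not_nonempty_iff_eq_empty, mem_singleton]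
      constructor
      · exact fun h => h.2
      · rintro rfl
        exact ⟨empty_subset _, rfl⟩
    rw [this]
    simp
  have h3 : (1 + y) ^ P.card ≤ Real.exp (P.card * y) := by
    have := Real.add_one_le_exp y
    calc (1 + y) ^ P.card ≤ (Real.exp y) ^ P.card := by
          refine pow_le_pow_left₀ (by positivity) (by linarith) _
      _ = Real.exp (P.card * y) := by rw [← Real.exp_nat_mul]
  have h4 : Real.exp (P.card * y) ≤ 1 + 2 * (P.card * y) := by
    have h0 : 0 ≤ P.card * y := by positivity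
    have := Real.abs_exp_sub_one_sub_id_le (x := P.card * y) (by rw [abs_of_nonneg h0]; exact hP)
    rw [abs_le] at this
    nlinarith [this.2]
  linarith

/-- the number of copies -/
theorem copies {ε : ℝ} (hε : 0 < ε) (A c : ℝ) (hA : 0 < A) (hc : 0 < c) :
    ∃ C : ℝ, ∀ r k : ℕ, 1 ≤ r → C * Real.log (r + 1) ≤ k →
      A * r * Real.exp (-c * k) ≤ ε := by
  refine ⟨(1 + max 0 (Real.log (A / ε)) / Real.log 2) / c, fun r k hr hk => ?_⟩
  have hr1 : (1 : ℝ) ≤ r := by exact_mod_cast hr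
  have hr0 : (0 : ℝ) < r := by linarith
  have hl2 : 0 < Real.log 2 := Real.log_pos (by norm_num)
  have hlr : Real.log 2 ≤ Real.log (r + 1) := Real.log_le_log (by norm_num) (by linarith)
  have hlr2 : Real.log r ≤ Real.log (r + 1) := Real.log_le_log hr0 (by linarith)
  have h1 : Real.log (A / ε) + Real.log r ≤ c * k := by
    have h2 : c * ((1 + max 0 (Real.log (A / ε)) / Real.log 2) / c * Real.log (r + 1)) ≤ c * k :=
      mul_le_mul_of_nonneg_left hk hc.le
    have h3 : c * ((1 + max 0 (Real.log (A / ε)) / Real.log 2) / c * Real.log (r + 1))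
        = Real.log (r + 1) + max 0 (Real.log (A / ε)) * (Real.log (r + 1) / Real.log 2) := by
      field_simp
    have h4 : 1 ≤ Real.log (r + 1) / Real.log 2 := (one_le_div hl2).mpr hlr
    have h5 := le_max_left 0 (Real.log (A / ε))
    have h6 := le_max_right 0 (Real.log (A / ε))
    rw [h3] at h2
    nlinarith
  have h7 : A * r * Real.exp (-c * k) ≤ A * r * Real.exp (-(Real.log (A / ε) + Real.log r)) :=
    mul_le_mul_of_nonneg_left (Real.exp_le_exp.mpr (by linarith)) (by positivity)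
  refine h7.trans (le_of_eq ?_)
  rw [neg_add, Real.exp_add, Real.exp_neg, Real.exp_neg, Real.exp_log (by positivity),
    Real.exp_log hr0]
  field_simp

end Pool.Agent.Work.MP_3bf421_lc_LU
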