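import Pool.Agent.Work.MP_3bf421_lc_LU.Moment
import Pool.Agent.Work.MP_3bf421_lc.UN.NumA

set_option autoImplicit false

/-!
The numbers of the theorem on unions of large multiplicity.
-/

namespace Pool.Agent.Work.MP_3bf421_lc_LU

open Finset
open _root_.MP_3bf421_lc.UN

theorem exp_half_le {x : ℝ} (h0 : 0 ≤ x) (h1 : x ≤ 1 / 2) : Real.exp x ≤ 1 + 2 * x := by
  have h2 := Real.add_one_le_exp (-x)
  rw [Real.exp_neg] at h2
  have h3 : Real.exp x ≤ (1 - x)⁻¹ := by
    rw [le_inv_comm₀ (Real.exp_pos x) (by linarith)]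
    linarith
  refine h3.trans ?_
  rw [inv_le_iff_one_le_mul₀ (by linarith)]
  nlinarith

theorem numA {ε : ℝ} (h0 : 0 < ε) (h1 : ε < 1 / 2) : ∃ C : ℝ, 0 < C ∧ ∀ n : ℕ, 1 ≤ n →
    ∃ T0 : ℕ, T0 < n ∧ 1 - Real.exp (-1) - ε ≤ ((n - T0 : ℕ) : ℝ) / n ∧
    ∀ k R : ℕ, 1 ≤ R → C * Real.log (R + 1) ≤ k → n ≤ k ∨
    ∃ T1 B : ℕ, ∃ lam θ : ℝ, T1 ≤ T0 ∧ 1 ≤ lam ∧ 0 ≤ θ ∧
      (∀ f j : ℕ, k * j ≤ f →
        PB (T0 - T1) ((lam - 1) * f) (n - T1 - 1) / lam ^ f ≤ θ ^ j) ∧
      1 - Real.exp (-1) - ε ≤ ((n - T0 : ℕ) : ℝ) / n *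
        (1 - (R : ℝ) * ((n - 1 - T1 : ℕ) : ℝ) / (((T1 : ℝ) + 1) * ((B : ℝ) + 1))
          - ((1 + θ) ^ B - 1)) := by
  set δ : ℝ := ε / 5 with hδ
  have hδ0 : 0 < δ := by positivity
  have hδ1 : δ ≤ 1 / 10 := by rw [hδ]; linarith
  refine ⟨CA δ, CA_pos hδ0 hδ1, fun n hn => ?_⟩
  have hnR : (0 : ℝ) < n := by exact_mod_cast hn
  have he1 := exp_one_gt
  have hTm := TA_le_mul hδ0.le n
  have hTlt : TA δ n < n := by
    have h2 : (1 + δ) * n / Real.exp 1 < n := by
      rw [div_lt_iff₀ (Real.exp_pos 1), mul_comm (n : ℝ)]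
      exact mul_lt_mul_of_pos_right (by linarith) hnR
    exact_mod_cast lt_of_le_of_lt hTm h2
  have hinv : (Real.exp 1)⁻¹ = Real.exp (-1) := (Real.exp_neg 1).symm
  have hexp0 : 0 < Real.exp (-1) := Real.exp_pos _
  have hexp1 : Real.exp (-1) ≤ 1 / 2 := by
    rw [← hinv, inv_le_comm₀ (Real.exp_pos 1) (by norm_num)]
    norm_num
    linarith
  have hval : 1 - (1 + δ) * Real.exp (-1) ≤ ((n - TA δ n : ℕ) : ℝ) / n := by
    rw [le_div_iff₀ hnR, Nat.cast_sub hTlt.le]
    rw [div_eq_mul_inv, hinv] at hTm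
    nlinarith
  have hval1 : ((n - TA δ n : ℕ) : ℝ) / n ≤ 1 := by
    rw [div_le_one hnR]
    exact_mod_cast Nat.sub_le _ _
  refine ⟨TA δ n, hTlt, ?_, fun k R hR hk => ?_⟩
  · refine le_trans ?_ hval
    nlinarith
  · rcases Nat.lt_or_ge k n with hkn | hkn
    · right
      have hbig := big_of_lt hδ0 hδ1 hR hk hkn
      obtain ⟨hST, -, -⟩ := harmA hδ0 hδ1 hbig
      have hd := dA_pos hδ0
      refine ⟨SA δ n, ⌊5 * (R : ℝ) / δ ^ 2⌋₊, lamA δ, Real.exp (-(dA δ * k)), hST.le,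
        one_le_lamA hδ0 hδ1, (Real.exp_pos _).le, fun f j hfj => ?_, ?_⟩
      · have hm := momA hδ0 hδ1 hbig f
        have hl : 0 < lamA δ ^ f := pow_pos (by linarith [one_le_lamA hδ0 hδ1]) f
        rw [div_le_iff₀ hl]
        have h2 : PB (TA δ n - SA δ n) ((lamA δ - 1) * f) (n - SA δ n - 1)
            = ∏ t ∈ Ico (TA δ n - SA δ n + 1) (n - SA δ n), (1 + (lamA δ - 1) * f / t) := by
          unfold PB
          have h3 : Ioc (TA δ n - SA δ n) (n - SA δ n - 1)
              = Ico (TA δ n - SA δ n + 1) (n - SA δ n) := by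
            ext t
            rw [mem_Ioc, mem_Ico]
            omega
          rw [h3]
        rw [h2]
        refine hm.trans ?_
        rw [mul_comm]
        refine mul_le_mul_of_nonneg_right ?_ hl.le
        rw [← Real.exp_nat_mul]
        apply Real.exp_le_exp.2
        have h4 : ((k * j : ℕ) : ℝ) ≤ f := by exact_mod_cast hfj
        rw [Nat.cast_mul] at h4
        nlinarith
      · have hB0 := Nat.lt_floor_add_one (5 * (R : ℝ) / δ ^ 2)
        have hB1 : (⌊5 * (R : ℝ) / δ ^ 2⌋₊ : ℝ) ≤ 5 * (R : ℝ) / δ ^ 2 :=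
          Nat.floor_le (by positivity)
        set B : ℕ := ⌊5 * (R : ℝ) / δ ^ 2⌋₊ with hB
        have hfirst : (R : ℝ) * ((n - 1 - SA δ n : ℕ) : ℝ) /
            (((SA δ n : ℝ) + 1) * ((B : ℝ) + 1)) ≤ δ := by
          rw [div_le_iff₀ (by positivity)]
          have h5 := markA hδ0 hbig hδ1 R
          have h6 : ((n - 1 - SA δ n : ℕ) : ℝ) ≤ (n : ℝ) + 1 := by
            have : n - 1 - SA δ n ≤ n + 1 := by omega
            exact_mod_cast this
          have h7 : (R : ℝ) * ((n - 1 - SA δ n : ℕ) : ℝ) ≤ ((n : ℝ) + 1) * R := by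
            rw [mul_comm]
            exact mul_le_mul_of_nonneg_right h6 (Nat.cast_nonneg R)
          refine h7.trans (h5.trans ?_)
          have h8 : δ * (5 * (R : ℝ) / δ ^ 2) ≤ δ * ((B : ℝ) + 1) :=
            mul_le_mul_of_nonneg_left hB0.le hδ0.le
          calc δ * (5 * (R : ℝ) / δ ^ 2) * ((SA δ n : ℝ) + 1)
              ≤ δ * ((B : ℝ) + 1) * ((SA δ n : ℝ) + 1) :=
                mul_le_mul_of_nonneg_right h8 (by positivity)
            _ = _ := by ring
        have hsecond : (1 + Real.exp (-(dA δ * k))) ^ B - 1 ≤ δ := by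
          have h5 := exp_small hδ0 hδ1 hR hk
          have h6 : (B : ℝ) * Real.exp (-(dA δ * k)) ≤ δ / 2 := by
            calc (B : ℝ) * Real.exp (-(dA δ * k))
                ≤ (5 * (R : ℝ) / δ ^ 2) * Real.exp (-(dA δ * k)) :=
                  mul_le_mul_of_nonneg_right hB1 (Real.exp_pos _).le
              _ = 5 / δ ^ 2 * (R * Real.exp (-(dA δ * k))) := by ring
              _ ≤ 5 / δ ^ 2 * (δ ^ 3 / 10) := mul_le_mul_of_nonneg_left h5 (by positivity)
              _ = δ / 2 := by field_simp; ring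
          have h7 : (1 + Real.exp (-(dA δ * k))) ^ B ≤
              Real.exp ((B : ℝ) * Real.exp (-(dA δ * k))) := by
            rw [Real.exp_nat_mul]
            refine pow_le_pow_left₀ (by positivity) ?_ B
            have := Real.add_one_le_exp (Real.exp (-(dA δ * k)))
            linarith
          have h8 := exp_half_le (x := (B : ℝ) * Real.exp (-(dA δ * k))) (by positivity)
            (by linarith)
          linarith
        have hY : 1 - 2 * δ ≤ 1 - (R : ℝ) * ((n - 1 - SA δ n : ℕ) : ℝ) /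
            (((SA δ n : ℝ) + 1) * ((B : ℝ) + 1)) - ((1 + Real.exp (-(dA δ * k))) ^ B - 1) := by
          linarith
        refine le_trans ?_ (mul_le_mul_of_nonneg_left hY (by positivity))
        have h9 : (0 : ℝ) ≤ 1 - 2 * δ := by linarith
        refine le_trans ?_ (mul_le_mul_of_nonneg_right hval h9)
        nlinarith
    · exact Or.inl hkn

end Pool.Agent.Work.MP_3bf421_lc_LU
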