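import Pool.Agent.Work.MP_3bf421_lc_LU.BlockA
import Pool.Agent.Work.MP_3bf421_lc_LU.BlockB
import Pool.Agent.Work.MP_3bf421_lc_LU.FinalNumA
import Pool.Agent.Work.MP_3bf421_lc.UN.Union

set_option autoImplicit false

/-!
The theorem on unions of many copies.
-/

namespace Pool.Agent.Work.MP_3bf421_lc_LU

open Finset

open Classical in
theorem large_unions (ε : ℝ) (hε : 0 < ε) : ∃ C : ℝ, 0 < C ∧ ∀ n : ℕ,
    ∃ m : ℕ, ∃ p : Fin m → ℝ, (∀ s, 0 ≤ p s) ∧ (∑ s, p s = 1) ∧
    ∃ D : Fin m → Fin n → (Fin n → ℝ) → (Set (Fin n) → Prop) → Bool,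
      ∀ (M : Matroid (Fin n)) (w : Fin n → ℝ), M.E = Set.univ → (∀ e, 0 ≤ w e) →
        (∀ (s : Fin m) (σ : Equiv.Perm (Fin n)),
          M.Indep (σ '' {i | D s i (fun j => if j ≤ i then w (σ j) else 0)
              (fun S => M.Indep (σ '' (S ∩ Set.Iic i))) = true})) ∧
        (∀ (l : ℕ) (N : Fin l → Matroid (Fin n)) (k r : ℕ),
          (∀ I : Set (Fin n), M.Indep I ↔
            ∃ J : Fin l → Set (Fin n), (∀ j, (N j).Indep (J j)) ∧ I = ⋃ j, J j) →
          (∀ j, k ≤ (univ.filter fun i => N i = N j).card) →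
          (∀ I : Finset (Fin n), M.Indep (I : Set (Fin n)) → I.card ≤ r) →
          C * Real.log (r + 1) ≤ k →
          ∀ I : Finset (Fin n), M.Indep (↑I : Set (Fin n)) →
            (1 - 1 / Real.exp 1 - ε) * ∑ e ∈ I, w e ≤
              (∑ σ : Equiv.Perm (Fin n), ∑ s : Fin m, p s *
                ∑ i : Fin n, (if D s i (fun j => if j ≤ i then w (σ j) else 0)
                  (fun S => M.Indep (σ '' (S ∩ Set.Iic i))) = true then w (σ i) else 0))
              / (n.factorial : ℝ)) := by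
  set δ := min ε (1 / 2) with hδ
  have hδ0 : 0 < δ := lt_min hε (by norm_num)
  have hδε : δ ≤ ε := min_le_left _ _
  have hδ1 : δ ≤ 1 / 2 := min_le_right _ _
  obtain ⟨N0, C0, hC0, hnum⟩ := finalNumA hδ0 (by linarith)
  have hl2 : 0 < Real.log 2 := Real.log_pos (by norm_num)
  have hEi : 1 / Real.exp 1 ≤ 1 / 2 := one_div_le_one_div_of_le (by norm_num) (by
    have := Real.exp_one_gt_d9
    linarith)
  have hc0 : 0 ≤ 1 - 1 / Real.exp 1 - δ := by linarith
  refine ⟨max C0 (N0 / Real.log 2), lt_of_lt_of_le hC0 (le_max_left _ _), fun n => ?_⟩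
  set T0 := if n < N0 then 0 else T0f δ n with hT0
  obtain ⟨m, p, hp0, hp1, D, hD⟩ := rule_value n T0
  refine ⟨m, p, hp0, hp1, D, fun M w hE hw => ⟨(hD M w hE hw).1, ?_⟩⟩
  intro l N k r hN hk hr hC I hI
  have hwI : 0 ≤ ∑ e ∈ I, w e := sum_nonneg fun e _ => hw e
  refine (mul_le_mul_of_nonneg_right (by linarith : 1 - 1 / Real.exp 1 - ε
    ≤ 1 - 1 / Real.exp 1 - δ) hwI).trans ?_
  refine (hD M w hE hw).2 _ hc0 ?_ I hI
  intro κ hκ _ e he
  have hn : 0 < n := lt_of_le_of_lt (Nat.zero_le _) e.isLt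
  have hU : MP_3bf421_lc.UN.IsUnion M N := hN
  -- `e` is not a loop
  have heloop : e ∉ M.closure ∅ := by
    intro h
    unfold optB at he
    rw [mem_filter] at he
    exact he.2 (M.closure_subset_closure (Set.empty_subset _) h)
  have hr1 : 1 ≤ r := by
    have h1 : M.Indep ((({e} : Finset (Fin n)) : Set (Fin n))) := by
      rw [coe_singleton]
      by_contra hcon
      apply heloop
      have h2 : M.IsLoop e := by
        rw [← Matroid.singleton_not_indep (by rw [hE]; exact Set.mem_univ e)]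
        exact hcon
      exact h2
    have := hr _ h1
    rwa [card_singleton] at this
  have hr1' : (1 : ℝ) ≤ r := by exact_mod_cast hr1
  have hlog0 : Real.log 2 ≤ Real.log ((r : ℝ) + 1) := Real.log_le_log (by norm_num) (by linarith)
  have hlogp : 0 ≤ Real.log ((r : ℝ) + 1) := hl2.le.trans hlog0
  have hC0k : C0 * Real.log (r + 1) ≤ k :=
    (mul_le_mul_of_nonneg_right (le_max_left _ _) hlogp).trans hC
  have hN0k : (N0 : ℝ) ≤ k := by
    refine le_trans ?_ hC
    refine le_trans ?_ (mul_le_mul (le_max_right C0 ((N0 : ℝ) / Real.log 2)) hlog0 hl2.le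
      (le_trans hC0.le (le_max_left _ _)))
    rw [div_mul_cancel₀ _ hl2.ne']
  -- circuits through `e`
  have hcirc : ∀ D : Finset (Fin n), M.IsCircuit (D : Set (Fin n)) → e ∈ D →
      ∃ J : Finset (Fin n), J.Nonempty ∧ J ⊆ D.erase e ∧
        D.erase e ⊆ MP_3bf421_lc.UN.cont N J ∧
        k * J.card ≤ MP_3bf421_lc.UN.fs N J ∧ (D.erase e).card = MP_3bf421_lc.UN.fs N J := by
    intro D hDc heD
    obtain ⟨J, h1, h2, h3, h4⟩ := hU.circuit_cont (k := k) (by
      intro j
      convert hk j) hDc heD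
    refine ⟨J, ?_, h1, h3, h2, h4⟩
    rw [nonempty_iff_ne_empty]
    rintro rfl
    have h5 : MP_3bf421_lc.UN.fs N ∅ = 0 := sum_eq_zero fun j _ => MP_3bf421_lc.UN.rk_empty _
    rw [h5, card_eq_zero] at h4
    apply heloop
    have h6 : (D : Set (Fin n)) = {e} := by
      rw [← insert_erase heD, h4]
      simp
    rw [h6] at hDc
    have h7 := hDc.mem_closure_sdiff_singleton_of_mem (e := e) rfl
    rwa [Set.sdiff_self] at h7
  by_cases hnN : n < N0
  · -- few elements: no circuit through `e`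
    have hT : T0 = 0 := by rw [hT0, if_pos hnN]
    have hnk : n < k := by
      have : (n : ℝ) < k := lt_of_lt_of_le (by exact_mod_cast hnN) hN0k
      exact_mod_cast this
    have h1 : ((univ.filter (fun σ : Equiv.Perm (Fin n) => 0 ≤ (σ.symm e).val ∧
        e ∈ M.closure (Cset M κ {e} 0 σ : Set (Fin n)))).card : ℝ)
        ≤ (((n - 1).factorial : ℝ) * ((n - 0 : ℕ) : ℝ)) * 0 := by
      rw [mul_zero]
      have h2 : univ.filter (fun σ : Equiv.Perm (Fin n) => 0 ≤ (σ.symm e).val ∧
        e ∈ M.closure (Cset M κ {e} 0 σ : Set (Fin n))) = ∅ := by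
        rw [filter_eq_empty_iff]
        rintro σ - ⟨-, h3⟩
        obtain ⟨D, hDc, heD, -⟩ := exists_circuit M e (Cset M κ {e} 0 σ) (by
          unfold Cset
          rw [mem_filter]
          rintro ⟨-, h4, -⟩
          exact h4 (mem_singleton_self e)) h3
        obtain ⟨J, hJ, -, -, h4, h5⟩ := hcirc D hDc heD
        have h6 : 1 ≤ J.card := card_pos.2 hJ
        have h7 : (D.erase e).card ≤ n := by
          have := card_le_univ (D.erase e)
          rwa [Fintype.card_fin] at this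
        have h8 : k * 1 ≤ k * J.card := Nat.mul_le_mul_left k h6
        omega
      rw [h2]
      simp
    have h2 := acc_count M κ 0 hn e he h1
    rw [hT]
    have hn0 : (n : ℝ) ≠ 0 := by positivity
    rw [Nat.sub_zero, div_self hn0, sub_zero, one_mul, one_mul] at h2
    have h3 : (1 - 1 / Real.exp 1 - δ) * (n.factorial : ℝ) ≤ 1 * (n.factorial : ℝ) := by
      refine mul_le_mul_of_nonneg_right ?_ (by positivity)
      have : 0 < 1 / Real.exp 1 := by positivity
      linarith
    rw [one_mul] at h3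
    refine h3.trans ?_
    convert h2
  · have hT : T0 = T0f δ n := by rw [hT0, if_neg hnN]
    obtain ⟨T1, B, lam, θ, h1, h2, h3, h4, h5, h6⟩ := hnum n (by omega) r k hr1 hC0k
    have h7 := blockA M hE κ hκ e T1 (T0f δ n) r B k h1 h2 h3 h4 hr
      (MP_3bf421_lc.UN.cont N) (MP_3bf421_lc.UN.fs N)
      (fun J I hIJ hI => hU.card_le_of_cont hI hIJ) hcirc h5
    have h8 := acc_count M κ (T0f δ n) h2 e he h7
    rw [hT]
    refine le_trans (mul_le_mul_of_nonneg_right h6 (by positivity)) ?_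
    convert h8

end Pool.Agent.Work.MP_3bf421_lc_LU
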