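import Pool.Agent.Work.MP_3bf421_lc_LU.BlockB
import Pool.Agent.Work.MP_3bf421_lc_LU.FinalNumB

set_option autoImplicit false

/-!
The theorem on circuits covered by few flats.
-/

namespace Pool.Agent.Work.MP_3bf421_lc_LU

open Finset

/-- for every element `e` and `j ≥ 1` the circuits with `j + 1` elements that contain `e` are
covered by at most `K ^ j` sets of rank at most `q * j` -/
def FewFlats {n : ℕ} (M : Matroid (Fin n)) (K q : ℕ) : Prop :=
  ∀ e : Fin n, ∀ j : ℕ, 1 ≤ j → ∃ F : Finset (Finset (Fin n)), F.card ≤ K ^ j ∧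
    (∀ G ∈ F, M.eRk (G : Set (Fin n)) ≤ ((q * j : ℕ) : ℕ∞)) ∧
    ∀ D : Finset (Fin n), M.IsCircuit (D : Set (Fin n)) → e ∈ D → D.card = j + 1 →
      ∃ G ∈ F, D ⊆ G

theorem few_flats (n K q : ℕ) (hK : 1 ≤ K) (hq : 1 ≤ q) :
    ∃ m : ℕ, ∃ p : Fin m → ℝ, (∀ s, 0 ≤ p s) ∧ (∑ s, p s = 1) ∧
    ∃ D : Fin m → Fin n → (Fin n → ℝ) → (Set (Fin n) → Prop) → Bool,
      ∀ (M : Matroid (Fin n)) (w : Fin n → ℝ), M.E = Set.univ → (∀ e, 0 ≤ w e) →
        (∀ (s : Fin m) (σ : Equiv.Perm (Fin n)),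
          M.Indep (σ '' {i | D s i (fun j => if j ≤ i then w (σ j) else 0)
              (fun S => M.Indep (σ '' (S ∩ Set.Iic i))) = true})) ∧
        (FewFlats M K q → ∀ I : Finset (Fin n), M.Indep (↑I : Set (Fin n)) →
            1 / (20 * q * K) * ∑ e ∈ I, w e ≤
              (∑ σ : Equiv.Perm (Fin n), ∑ s : Fin m, p s *
                ∑ i : Fin n, (if D s i (fun j => if j ≤ i then w (σ j) else 0)
                  (fun S => M.Indep (σ '' (S ∩ Set.Iic i))) = true then w (σ i) else 0))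
              / (n.factorial : ℝ)) := by
  obtain ⟨m, p, hp0, hp1, D, hD⟩ := rule_value n (T0g K q n)
  refine ⟨m, p, hp0, hp1, D, fun M w hE hw => ⟨(hD M w hE hw).1, fun hF => ?_⟩⟩
  refine (hD M w hE hw).2 (1 / (20 * q * K)) (by positivity) ?_
  intro κ hκ _ e he
  have hn : 0 < n := lt_of_le_of_lt (Nat.zero_le _) e.isLt
  obtain ⟨lam, hlam, hnum⟩ := finalNumB hK hq hn
  choose! F hF1 hF2 hF3 using hF e
  have h1 := blockB M hE κ hκ e he (T0g K q n) K q (T0g_lt hK hq hn) hlam F hF1 (by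
    intro j hj G hG I hIG hI
    have h2 := hF2 j hj G hG
    have h3 : ((I.card : ℕ) : ℕ∞) ≤ ((q * j : ℕ) : ℕ∞) := by
      refine le_trans ?_ h2
      rw [← Set.encard_coe_eq_coe_finsetCard, ← hI.eRk_eq_encard]
      exact M.eRk_mono (by exact_mod_cast hIG)
    exact_mod_cast h3) (fun D hD heD j hj hc => hF3 j hj D hD heD hc)
  have h2 := acc_count M κ (T0g K q n) (T0g_lt hK hq hn) e he h1
  refine le_trans (mul_le_mul_of_nonneg_right hnum (by positivity)) ?_
  convert h2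

end Pool.Agent.Work.MP_3bf421_lc_LU
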